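import Pool.Agent.GMC3.TabY

/-!
# GMC3.KeyY: Cor. 3', one partition, state form (helper97)

`ioP P eta X Y N w = max (iota - eta) 0`.
* `keyY_state`, `keyY_w` : the loss of `E (h * ioP)` under a partition `Z`, `h` any function of `(X, Y, N)` with values in `[0,1]`;
* `ioP_end` : `E ioP ≤ (6 / eta) E iota`.
-/

set_option autoImplicit false
set_option linter.unusedSectionVars false

namespace Pool.Agent.M3

open Finset Pool.Agent.PWZ

namespace FP

variable {Om : Type*} [Fintype Om] (P : FP Om) {κ ι ν ζ : Type*}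

/-- positive part of the density above `eta` -/
noncomputable def ioP (eta : ℝ) (X : Om → κ) (Y : Om → ι) (N : Om → ν) (w : Om) : ℝ :=
  max (P.iota X Y N w - eta) 0

theorem ioP_nonneg (eta : ℝ) (X : Om → κ) (Y : Om → ι) (N : Om → ν) (w : Om) : 0 ≤ P.ioP eta X Y N w :=
  le_max_right _ _

/-- a function of `(X,Y,N)` with values in `[0,1]`, in one state -/
theorem exists_lift2 {X : Om → κ} {Y : Om → ι} {N : Om → ν} {l : Om → ℝ}
    (hl : Fac (fun u => (X u, Y u, N u)) l) (h0 : ∀ u, 0 ≤ l u) (h1 : ∀ u, l u ≤ 1) (w : Om) :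
    ∃ l' : κ → ι → ℝ, (∀ x y, 0 ≤ l' x y) ∧ (∀ x y, l' x y ≤ 1) ∧ ∀ u, N u = N w → l u = l' (X u) (Y u) := by
  classical
  refine ⟨fun x y => if h : ∃ u, X u = x ∧ Y u = y ∧ N u = N w then l h.choose else 0, ?_, ?_, fun u hu => ?_⟩
  · intro x y
    beta_reduce
    split_ifs with h
    · exact h0 _
    · exact le_rfl
  · intro x y
    beta_reduce
    split_ifs with h
    · exact h1 _
    · exact zero_le_one
  have hex : ∃ v, X v = X u ∧ Y v = Y u ∧ N v = N w := ⟨u, rfl, rfl, hu⟩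
  simp only [hex, dif_pos]
  have h1 := hex.choose_spec
  exact (hl _ _ (by simp only [Prod.mk.injEq]; exact ⟨h1.1, h1.2.1, h1.2.2.trans hu.symm⟩)).symm

theorem sum_yy_J (X : Om → κ) (Y : Om → ι) (Z : Om → ζ) (N : Om → ν) {w : Om} (hw : P.p w ≠ 0) (eta : ℝ)
    {h : Om → ℝ} {h' : κ → ι → ℝ} (hh : ∀ u, N u = N w → h u = h' (X u) (Y u)) :
    ∑ x ∈ vals X, ∑ y ∈ vals Y, h' x y * yy eta ((P.tab X Y Z N hw).J x y)
      ((P.tab X Y Z N hw).U x * (P.tab X Y Z N hw).V y) = P.ce N (fun u => h u * P.ioP eta X Y N u) w := by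
  set t := P.tab X Y Z N hw with ht
  have e1 : ∑ x ∈ vals X, ∑ y ∈ vals Y, h' x y * yy eta (t.J x y) (t.U x * t.V y) =
      ∑ x ∈ vals X, ∑ y ∈ vals Y, t.J x y * (h' x y * max (Real.log (t.J x y / (t.U x * t.V y)) - eta) 0) := by
    refine Finset.sum_congr rfl (fun x _ => Finset.sum_congr rfl (fun y _ => ?_))
    unfold yy
    ring
  rw [e1]
  have hF : ∀ x y, Fac N (fun u => h' x y * max (Real.log (P.pv N (fun v => (X v, Y v)) u (x, y) /
      (P.pv N X u x * P.pv N Y u y)) - eta) 0) := fun x y =>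
    (P.pv_fac N (fun v => (X v, Y v)) (x, y)).comp₂ ((P.pv_fac N X x).mul (P.pv_fac N Y y))
      (fun a b => h' x y * max (Real.log (a / b) - eta) 0)
  refine (P.sum2 (N := N) X Y hF w).trans (P.ce_congr_state (fun u hu hN => ?_))
  rw [P.log_J_eq X Y N hu, hh u hN]
  rfl

theorem sum_yy_j (X : Om → κ) (Y : Om → ι) (Z : Om → ζ) (N : Om → ν) {w : Om} (hw : P.p w ≠ 0) (eta : ℝ)
    {h : Om → ℝ} {h' : κ → ι → ℝ} (hh : ∀ u, N u = N w → h u = h' (X u) (Y u)) :
    ∑ x ∈ vals X, ∑ y ∈ vals Y, ∑ z ∈ vals Z, h' x y * yy eta ((P.tab X Y Z N hw).j x y z)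
      ((P.tab X Y Z N hw).u x z * (P.tab X Y Z N hw).v y z / (P.tab X Y Z N hw).p z) =
      P.ce N (fun u => h u * P.ioP eta X Y (fun u => (Z u, N u)) u) w := by
  set t := P.tab X Y Z N hw with ht
  have e1 : ∑ x ∈ vals X, ∑ y ∈ vals Y, ∑ z ∈ vals Z, h' x y * yy eta (t.j x y z) (t.u x z * t.v y z / t.p z) =
      ∑ x ∈ vals X, ∑ y ∈ vals Y, ∑ z ∈ vals Z, t.j x y z *
        (h' x y * max (Real.log (t.j x y z / (t.u x z * t.v y z / t.p z)) - eta) 0) := by
    refine Finset.sum_congr rfl (fun x _ => Finset.sum_congr rfl (fun y _ => Finset.sum_congr rfl (fun z _ => ?_)))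
    unfold yy
    ring
  rw [e1]
  have hF : ∀ x y z, Fac N (fun u => h' x y * max (Real.log (P.pv N (fun v => (X v, Y v, Z v)) u (x, y, z) /
      (P.pv N (fun v => (X v, Z v)) u (x, z) * P.pv N (fun v => (Y v, Z v)) u (y, z) / P.pv N Z u z)) - eta) 0) :=
    fun x y z =>
    (P.pv_fac N (fun v => (X v, Y v, Z v)) (x, y, z)).comp₂
      (((P.pv_fac N (fun v => (X v, Z v)) (x, z)).mul (P.pv_fac N (fun v => (Y v, Z v)) (y, z))).comp₂
        (P.pv_fac N Z z) (fun a b => a / b))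
      (fun a b => h' x y * max (Real.log (a / b) - eta) 0)
  refine (P.sum3 (N := N) X Y Z hF w).trans (P.ce_congr_state (fun u hu hN => ?_))
  rw [P.log_j_eq X Y Z N hu, hh u hN]
  rfl

/-- KEY, positive part, pointwise in the state -/
theorem keyY_state (X : Om → κ) (Y : Om → ι) (Z : Om → ζ) (N : Om → ν) {w : Om} (hw : P.p w ≠ 0) {B d : ℝ}
    (hB : Real.exp 2 ≤ B) (hd : 0 ≤ d)
    (hXY : ∀ u, P.p u ≠ 0 → N u = N w → P.hel X N Y u ≤ d)
    (hYX : ∀ u, P.p u ≠ 0 → N u = N w → P.hel Y N X u ≤ d)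
    {T : Om → Prop} (hT : ∀ u v, (Z u, N u) = (Z v, N v) → (T u ↔ T v)) {eta : ℝ} (he : 0 < eta) (he1 : eta ≤ 1)
    {h : Om → ℝ} (hh : Fac (fun u => (X u, Y u, N u)) h) (hh0 : ∀ u, 0 ≤ h u) (hh1 : ∀ u, h u ≤ 1) :
    P.ce N (fun u => h u * P.ioP eta X Y N u) w -
        P.ce N (fun u => h u * P.ioP eta X Y (fun u => (Z u, N u)) u) w ≤
      2 / eta * (2 * kd d * B * (P.ce N (P.iota X Z N) w + P.ce N (P.iota Y Z N) w) +
        kd d * P.ce N (fun u => ind (T u)) w) +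
      P.ce N (fun u => ind (T u ∨ (B < P.rt X N Z u (Z u) ∧ B < P.rt Y N Z u (Z u))) *
        (1 / eta * (ind (eta < P.iota X Y N u) * P.iota X Y N u))) w := by
  set t := P.tab X Y Z N hw with ht
  set T' : ζ → Prop := fun z => ∃ u, N u = N w ∧ Z u = z ∧ T u with hT'
  have hTT : ∀ u, N u = N w → (T' (Z u) ↔ T u) := by
    intro u hu
    constructor
    · rintro ⟨v, hv1, hv2, hv3⟩
      exact (hT v u (by rw [hv2, hv1, hu])).1 hv3
    · intro h
      exact ⟨u, hu, rfl, h⟩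
  obtain ⟨h', h'0, h'1, hlift⟩ := exists_lift2 (w := w) hh hh0 hh1
  have hk := t.keyY hB hd (fun x _ => P.hel_row hXY x)
    (fun y _ => by
      have h := P.hel_row hYX y
      refine le_trans (le_of_eq (Finset.sum_congr rfl (fun x _ => ?_))) h
      show (Real.sqrt (P.pv N (fun u => (X u, Y u)) w (x, y)) - Real.sqrt (P.pv N X w x * P.pv N Y w y)) ^ 2 = _
      rw [P.pv_swap X Y N w x y, mul_comm (P.pv N Y w y)]) T' he he1 h'0 h'1
  have e1 := P.sum_yy_J X Y Z N hw eta hlift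
  have e2 := P.sum_yy_j X Y Z N hw eta hlift
  have e3 : ∑ z ∈ vals Z, ∑ x ∈ vals X, kk (t.u x z) (t.p z * t.U x) = P.ce N (P.iota X Z N) w :=
    P.sum_kk_u X Z N hw
  have e4 : ∑ z ∈ vals Z, ∑ y ∈ vals Y, kk (t.v y z) (t.p z * t.V y) = P.ce N (P.iota Y Z N) w :=
    P.sum_kk_u Y Z N hw
  have e6 : ∑ z ∈ vals Z, ind (T' z) * t.p z = P.ce N (fun u => ind (T u)) w := by
    have a1 : ∀ z ∈ vals Z, ind (T' z) * t.p z = P.ce N (fun u => ind (Z u = z) * ind (T u)) w := by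
      intro z _
      show ind (T' z) * P.ce N (fun u => ind (Z u = z)) w = _
      rw [mul_comm, ← P.ce_mul' (Fac.const N (ind (T' z)))]
      refine P.ce_congr_state fun u _ hN => ?_
      by_cases hz : Z u = z
      · have : T' z ↔ T u := by rw [← hz]; exact hTT u hN
        rw [ind_of hz, one_mul, one_mul]
        exact congrArg ind (propext this)
      · rw [ind_not hz]; ring
    rw [Finset.sum_congr rfl a1, ← P.ce_sum]
    congr 1
    funext u
    exact sum_vals Z (fun _ => ind (T u)) u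
  have e5 : ∑ x ∈ vals X, ∑ y ∈ vals Y, ∑ z ∈ vals Z,
        ind (¬ (¬ T' z ∧ ¬ (B < t.u x z / (t.p z * t.U x) ∧ B < t.v y z / (t.p z * t.V y)))) *
          (t.j x y z * (1 / eta * (ind (eta < Real.log (t.J x y / (t.U x * t.V y))) *
            Real.log (t.J x y / (t.U x * t.V y))))) =
      P.ce N (fun u => ind (T u ∨ (B < P.rt X N Z u (Z u) ∧ B < P.rt Y N Z u (Z u))) *
        (1 / eta * (ind (eta < P.iota X Y N u) * P.iota X Y N u))) w := by
    have hF : ∀ x y z, Fac N (fun u => ind (¬ (¬ T' z ∧ ¬ (B < P.pv N (fun v => (X v, Z v)) u (x, z) /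
        (P.pv N Z u z * P.pv N X u x) ∧ B < P.pv N (fun v => (Y v, Z v)) u (y, z) /
        (P.pv N Z u z * P.pv N Y u y)))) * (1 / eta * (ind (eta < Real.log (P.pv N (fun v => (X v, Y v)) u (x, y) /
          (P.pv N X u x * P.pv N Y u y))) * Real.log (P.pv N (fun v => (X v, Y v)) u (x, y) /
          (P.pv N X u x * P.pv N Y u y))))) := by
      intro x y z a b hab
      have a1 : P.pv N (fun v => (X v, Z v)) a (x, z) = P.pv N (fun v => (X v, Z v)) b (x, z) :=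
        P.pv_fac N (fun v => (X v, Z v)) (x, z) a b hab
      have a2 : P.pv N (fun v => (Y v, Z v)) a (y, z) = P.pv N (fun v => (Y v, Z v)) b (y, z) :=
        P.pv_fac N (fun v => (Y v, Z v)) (y, z) a b hab
      have a3 : P.pv N Z a z = P.pv N Z b z := P.pv_fac N Z z a b hab
      have a4 : P.pv N X a x = P.pv N X b x := P.pv_fac N X x a b hab
      have a5 : P.pv N Y a y = P.pv N Y b y := P.pv_fac N Y y a b hab
      have a6 : P.pv N (fun v => (X v, Y v)) a (x, y) = P.pv N (fun v => (X v, Y v)) b (x, y) :=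
        P.pv_fac N (fun v => (X v, Y v)) (x, y) a b hab
      show ind _ * _ = ind _ * _
      rw [a1, a2, a3, a4, a5, a6]
    have h := P.sum3 (N := N) X Y Z hF w
    have h' : ∑ x ∈ vals X, ∑ y ∈ vals Y, ∑ z ∈ vals Z,
        ind (¬ (¬ T' z ∧ ¬ (B < t.u x z / (t.p z * t.U x) ∧ B < t.v y z / (t.p z * t.V y)))) *
          (t.j x y z * (1 / eta * (ind (eta < Real.log (t.J x y / (t.U x * t.V y))) *
            Real.log (t.J x y / (t.U x * t.V y))))) =
        ∑ x ∈ vals X, ∑ y ∈ vals Y, ∑ z ∈ vals Z, P.pv N (fun u => (X u, Y u, Z u)) w (x, y, z) *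
        (ind (¬ (¬ T' z ∧ ¬ (B < P.pv N (fun v => (X v, Z v)) w (x, z) /
        (P.pv N Z w z * P.pv N X w x) ∧ B < P.pv N (fun v => (Y v, Z v)) w (y, z) /
        (P.pv N Z w z * P.pv N Y w y)))) * (1 / eta * (ind (eta < Real.log (P.pv N (fun v => (X v, Y v)) w (x, y) /
          (P.pv N X w x * P.pv N Y w y))) * Real.log (P.pv N (fun v => (X v, Y v)) w (x, y) /
          (P.pv N X w x * P.pv N Y w y))))) := by
      refine Finset.sum_congr rfl (fun x _ => Finset.sum_congr rfl (fun y _ => Finset.sum_congr rfl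
        (fun z _ => ?_)))
      show ind _ * (P.pv N (fun u => (X u, Y u, Z u)) w (x, y, z) * _) = _
      exact mul_left_comm _ _ _
    rw [h', h]
    refine P.ce_congr_state (fun u hu hN => ?_)
    rw [P.log_J_eq X Y N hu, P.ratio_eq X Z N hu, P.ratio_eq Y Z N hu]
    congr 2
    apply propext
    rw [hTT u hN]
    tauto
  rw [e1, e2, e3, e4, e5, e6] at hk
  exact hk

/-- KEY, positive part, with a weight `θ` of the state -/
theorem keyY_w (X : Om → κ) (Y : Om → ι) (Z : Om → ζ) (N : Om → ν) {θ : Om → ℝ} (hθ : Fac N θ)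
    (hθ0 : ∀ w, P.p w ≠ 0 → 0 ≤ θ w) {B d : ℝ} (hB : Real.exp 2 ≤ B) (hd : 0 ≤ d)
    (hXY : ∀ u, P.p u ≠ 0 → θ u ≠ 0 → P.hel X N Y u ≤ d)
    (hYX : ∀ u, P.p u ≠ 0 → θ u ≠ 0 → P.hel Y N X u ≤ d)
    {T : Om → Prop} (hT : ∀ u v, (Z u, N u) = (Z v, N v) → (T u ↔ T v)) {eta : ℝ} (he : 0 < eta) (he1 : eta ≤ 1)
    {h : Om → ℝ} (hh : Fac (fun u => (X u, Y u, N u)) h) (hh0 : ∀ u, 0 ≤ h u) (hh1 : ∀ u, h u ≤ 1) :
    P.E (fun w => θ w * (h w * P.ioP eta X Y N w)) -
        P.E (fun w => θ w * (h w * P.ioP eta X Y (fun u => (Z u, N u)) w)) ≤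
      2 / eta * (2 * kd d * B * (P.E (fun w => θ w * P.iota X Z N w) + P.E (fun w => θ w * P.iota Y Z N w)) +
        kd d * P.E (fun w => θ w * ind (T w))) +
      P.E (fun w => θ w * (ind (T w ∨ (B < P.rt X N Z w (Z w) ∧ B < P.rt Y N Z w (Z w))) *
        (1 / eta * (ind (eta < P.iota X Y N w) * P.iota X Y N w)))) := by
  rw [← P.E_mul_ce hθ (fun u => h u * P.ioP eta X Y N u),
    ← P.E_mul_ce hθ (fun u => h u * P.ioP eta X Y (fun u => (Z u, N u)) u),
    ← P.E_mul_ce hθ (P.iota X Z N), ← P.E_mul_ce hθ (P.iota Y Z N), ← P.E_mul_ce hθ (fun u => ind (T u)),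
    ← P.E_mul_ce hθ (fun w => ind (T w ∨ (B < P.rt X N Z w (Z w) ∧ B < P.rt Y N Z w (Z w))) *
      (1 / eta * (ind (eta < P.iota X Y N w) * P.iota X Y N w)))]
  rw [← P.E_sub, ← P.E_add, ← P.E_smul, ← P.E_smul, ← P.E_add, ← P.E_smul, ← P.E_add]
  refine P.E_mono (fun w hw => ?_)
  by_cases h0 : θ w = 0
  · rw [h0]; simp
  · have hk := P.keyY_state X Y Z N hw hB hd
      (fun u hu hN => hXY u hu (by rw [hθ u w hN]; exact h0))
      (fun u hu hN => hYX u hu (by rw [hθ u w hN]; exact h0)) hT he he1 hh hh0 hh1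
    have h1 := mul_le_mul_of_nonneg_left hk (hθ0 w hw)
    calc _ = θ w * (P.ce N (fun u => h u * P.ioP eta X Y N u) w -
          P.ce N (fun u => h u * P.ioP eta X Y (fun u => (Z u, N u)) u) w) := by ring
      _ ≤ _ := h1
      _ = _ := by ring

/-- the end: the mean of the positive part is controlled by the mutual information -/
theorem ioP_end (X : Om → κ) (Y : Om → ι) (N : Om → ν) {eta : ℝ} (he : 0 < eta) (he1 : eta ≤ 1) :
    P.E (P.ioP eta X Y N) ≤ 6 / eta * P.E (P.iota X Y N) := by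
  rw [← P.E_ce N (P.ioP eta X Y N), ← P.E_ce N (P.iota X Y N), ← P.E_smul]
  refine P.E_mono fun w hw => ?_
  have e1 := P.sum_yy_J X Y N N hw eta (h := fun _ => 1) (h' := fun _ _ => 1) (fun _ _ => rfl)
  have e2 := P.sum_kk_J X Y N N hw
  simp only [one_mul] at e1
  have e3 : P.ce N (fun u => P.ioP eta X Y N u) w = P.ce N (P.ioP eta X Y N) w := rfl
  rw [← e3, ← e1, ← e2, Finset.mul_sum]
  refine Finset.sum_le_sum fun x hx => ?_
  rw [Finset.mul_sum]
  refine Finset.sum_le_sum fun y hy => ?_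
  exact yy_le_kk he he1 ((P.tab X Y N N hw).J_nn hx hy)
    (mul_nonneg ((P.tab X Y N N hw).U_nn hx) ((P.tab X Y N N hw).V_nn hy)) ((P.tab X Y N N hw).J_zero hx hy)

end FP

end Pool.Agent.M3
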