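import Pool.Agent.M3.S3.StrA
import Pool.Agent.GMC3.KeyY

/-!
# GMC3.StrY: Cor. 3', the both-strong terms for any bounded function in the place of the density (helper97)

Copies of `both_strong` and `strong_sat` with `psi ≤ log (1/al)` in the place of the density.
-/

set_option autoImplicit false
set_option linter.unusedSectionVars false
set_option linter.unusedVariables false

namespace Pool.Agent.M3

open Finset Pool.Agent.PWZ

section strong

variable {Om : Type*} [Fintype Om] {P : FP Om} {α κ ι ζ ν : Type*} {a : Om → α} {X : Om → κ} {Y : Om → ι}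

/-- both ratios strong, any function `psi ≤ log A` in the place of the density -/
theorem both_strongY {N : Om → ν} {Z : Om → ζ} {A B eta sig L0 : ℝ} {T Tn : Om → Prop} {th psi : Om → ℝ}
    (hpsi : ∀ w, P.p w ≠ 0 → psi w ≤ Real.log A) (hth : Fac N th) (hth0 : ∀ w, P.p w ≠ 0 → 0 ≤ th w)
    (hZ : Fac (fun w => (a w, N w)) Z) (hT : ∀ u v, (Z u, N u) = (Z v, N v) → (T u ↔ T v))
    (hTn : ∀ u v, N u = N v → (Tn u ↔ Tn v)) (hsub : ∀ w, Tn w → T w)
    (hst : ∀ w (h : 0 < P.Pr (fun v => N v = N w)), P.p w ≠ 0 → th w ≠ 0 → ¬ Tn w →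
      (P.cnd (fun v => N v = N w) h).Sta a X Y A sig)
    (hA : 1 ≤ A) (hB : Real.exp 2 ≤ B) (h0 : 0 < eta) (hBe : 2 * Real.exp 1 ≤ B * eta) (hsig : 0 < sig)
    (hTm : ∀ w, P.p w ≠ 0 → ¬ T w → Real.exp (-L0) ≤ P.pv N Z w (Z w)) :
    P.E (fun w => th w * (ind (T w ∨ (B < P.rt X N Z w (Z w) ∧ B < P.rt Y N Z w (Z w))) * psi w)) ≤
      P.E (fun w => th w * (ind (T w) * psi w)) +
      Real.log A * (eta * (2 / Real.log B) * P.E (fun w => th w * P.iota X Z N w) +
        Real.exp (L0 + 1 - eta / (2 * sig)) * P.E (fun w => th w * ind (P.pv N Z w (Z w) ≤ 1 / 2))) := by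
  have hlA : 0 ≤ Real.log A := Real.log_nonneg hA
  have hB1 : 2 < B := by
    have := Real.add_one_le_exp 2
    linarith
  have hlB : 0 < Real.log B := Real.log_pos (by linarith)
  set F : Om → ℝ := fun w => ind (¬ T w) * (ind (B < P.rt X N Z w (Z w)) * ind (B < P.rt Y N Z w (Z w))) with hF
  -- pointwise in the state
  have key : ∀ w, P.p w ≠ 0 → th w * P.ce N F w ≤ th w * (eta * (2 / Real.log B) * P.ce N (P.iota X Z N) w +
        Real.exp (L0 + 1 - eta / (2 * sig)) * P.ce N (fun v => ind (P.pv N Z v (Z v) ≤ 1 / 2)) w) := by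
    intro w hw
    by_cases hthw : th w = 0
    · rw [hthw, zero_mul, zero_mul]
    refine mul_le_mul_of_nonneg_left ?_ (hth0 w hw)
    have hm : 0 < P.Pr (fun v => N v = N w) := P.m_pos N hw
    set Q := P.cnd (fun v => N v = N w) hm with hQ
    have hmN : 0 < P.m N w := hm
    have hQac : Q.AC P := cnd_ac P _ hm
    rw [ce_eq_cnd N _ hm, ce_eq_cnd N _ hm, ce_eq_cnd N _ hm]
    -- masses
    have hmZ : ∀ v, N v = N w → P.m (fun u => (Z u, N u)) v = P.m N w * Q.m Z v := by
      intro v hv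
      have e1 : P.m N w * Q.m Z v = P.E (fun u => ind (N u = N w) * ind (Z u = Z v)) := Pr_mul_cnd_E P _ hm _
      rw [e1]
      unfold FP.m
      refine P.E_congr (fun u _ => ?_)
      rw [← ind_and, ← hv]
      refine congrArg ind (propext ?_)
      rw [Prod.mk.injEq]
      exact and_comm
    have hmX : ∀ v, N v = N w → P.m (fun u => (X u, N u)) v = P.m N w * Q.m X v := by
      intro v hv
      have e1 : P.m N w * Q.m X v = P.E (fun u => ind (N u = N w) * ind (X u = X v)) := Pr_mul_cnd_E P _ hm _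
      rw [e1]
      unfold FP.m
      refine P.E_congr (fun u _ => ?_)
      rw [← ind_and, ← hv]
      refine congrArg ind (propext ?_)
      rw [Prod.mk.injEq]
      exact and_comm
    have hmY : ∀ v, N v = N w → P.m (fun u => (Y u, N u)) v = P.m N w * Q.m Y v := by
      intro v hv
      have e1 : P.m N w * Q.m Y v = P.E (fun u => ind (N u = N w) * ind (Y u = Y v)) := Pr_mul_cnd_E P _ hm _
      rw [e1]
      unfold FP.m
      refine P.E_congr (fun u _ => ?_)
      rw [← ind_and, ← hv]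
      refine congrArg ind (propext ?_)
      rw [Prod.mk.injEq]
      exact and_comm
    have hmXZ : ∀ v, N v = N w → P.m (fun u => (Z u, (X u, N u))) v = P.m N w * Q.m (fun u => (X u, Z u)) v := by
      intro v hv
      have e1 : P.m N w * Q.m (fun u => (X u, Z u)) v =
        P.E (fun u => ind (N u = N w) * ind ((X u, Z u) = (X v, Z v))) := Pr_mul_cnd_E P _ hm _
      rw [e1]
      unfold FP.m
      refine P.E_congr (fun u _ => ?_)
      rw [← ind_and, ← hv]
      refine congrArg ind (propext ?_)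
      simp only [Prod.mk.injEq]
      tauto
    have hmYZ : ∀ v, N v = N w → P.m (fun u => (Z u, (Y u, N u))) v = P.m N w * Q.m (fun u => (Y u, Z u)) v := by
      intro v hv
      have e1 : P.m N w * Q.m (fun u => (Y u, Z u)) v =
        P.E (fun u => ind (N u = N w) * ind ((Y u, Z u) = (Y v, Z v))) := Pr_mul_cnd_E P _ hm _
      rw [e1]
      unfold FP.m
      refine P.E_congr (fun u _ => ?_)
      rw [← ind_and, ← hv]
      refine congrArg ind (propext ?_)
      simp only [Prod.mk.injEq]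
      tauto
    have hpv : ∀ v, N v = N w → P.pv N Z v (Z v) = Q.m Z v := by
      intro v hv
      rw [FP.pv_self, hmZ v hv, P.Fac_m N v w hv]
      field_simp
    have hrX : ∀ v, Q.p v ≠ 0 → P.rt X N Z v (Z v) = qr Q X Z v := by
      intro v hv
      have hN : N v = N w := cnd_supp P hv
      have m1 := Q.m_pos X hv
      have m2 := Q.m_pos Z hv
      unfold FP.rt
      rw [hpv v hN, FP.pv_self]
      show P.m (fun u => (Z u, (X u, N u))) v / P.m (fun u => (X u, N u)) v / Q.m Z v = _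
      rw [hmXZ v hN, hmX v hN]
      unfold qr
      field_simp
    have hrY : ∀ v, Q.p v ≠ 0 → P.rt Y N Z v (Z v) = qr Q Y Z v := by
      intro v hv
      have hN : N v = N w := cnd_supp P hv
      have m1 := Q.m_pos Y hv
      have m2 := Q.m_pos Z hv
      unfold FP.rt
      rw [hpv v hN, FP.pv_self]
      show P.m (fun u => (Z u, (Y u, N u))) v / P.m (fun u => (Y u, N u)) v / Q.m Z v = _
      rw [hmYZ v hN, hmY v hN]
      unfold qr
      field_simp
    have hio : ∀ v, Q.p v ≠ 0 → P.iota X Z N v = Real.log (qr Q X Z v) := by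
      intro v hv
      have hN : N v = N w := cnd_supp P hv
      have m1 := Q.m_pos X hv
      have m2 := Q.m_pos Z hv
      have e1 : P.m (fun u => (X u, Z u, N u)) v = P.m (fun u => (Z u, (X u, N u))) v :=
        P.m_congr (fun s t h => by simp only [Prod.mk.injEq] at h ⊢; tauto)
          (fun s t h => by simp only [Prod.mk.injEq] at h ⊢; tauto) v
      unfold FP.iota
      rw [e1, hmXZ v hN, hmX v hN, hmZ v hN, P.Fac_m N v w hN]
      unfold qr
      congr 1
      field_simp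
    by_cases hTnw : Tn w
    · have e0 : Q.E F = Q.E (fun _ => (0 : ℝ)) := by
        refine Q.E_congr (fun v hv => ?_)
        have hTv : T v := hsub v ((hTn v w (cnd_supp P hv)).2 hTnw)
        show ind (¬ T v) * _ = 0
        rw [ind_not (fun h => h hTv), zero_mul]
      have e1 : Q.E (P.iota X Z N) = Q.E (fun v => Real.log (qr Q X Z v)) := Q.E_congr hio
      have e2 : 0 ≤ Q.E (fun v => Real.log (qr Q X Z v)) := by
        rw [← Q.E_ce Z]
        refine Q.E_nonneg (fun v hv => ?_)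
        have hV : 0 < Q.Pr (fun u => Z u = Z v) := Q.m_pos Z hv
        rw [ce_eq_cnd Z _ hV]
        have e3 : (Q.cnd (fun u => Z u = Z v) hV).E (fun v => Real.log (qr Q X Z v)) =
            kl (Q.cnd (fun u => Z u = Z v) hV) Q X := by
          unfold kl
          exact FP.E_congr _ (fun u hu => by rw [qr_eq_dn X Z hV (cnd_supp Q hu)])
        rw [e3]
        exact kl_nonneg (cnd_ac Q _ hV) X
      have e4 : 0 ≤ Q.E (fun v => ind (P.pv N Z v (Z v) ≤ 1 / 2)) := Q.E_nonneg (fun _ _ => ind_nonneg _)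
      rw [e0, FP.E_const, e1]
      have := Real.exp_pos (L0 + 1 - eta / (2 * sig))
      positivity
    · have hs := hst w hm hw hthw hTnw
      have h := ss_state' (P := Q) (a := a) (X := X) (Y := Y) (Z := Z)
        (fun u v hu hv huv => hZ u v (by
          show (a u, N u) = (a v, N v)
          rw [huv, (cnd_supp P hu : N u = N w), (cnd_supp P hv : N v = N w)]))
        (T := T) (fun u v hu hv huv => hT u v (by
          rw [huv, (cnd_supp P hu : N u = N w), (cnd_supp P hv : N v = N w)]))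
        hs.ci hB h0 hBe hsig hs.rY (L0 := L0)
        (fun v hv hTv => by rw [← hpv v (cnd_supp P hv)]; exact hTm v (hQac v hv) hTv)
      have e1 : Q.E F = Q.E (fun w => ind (¬ T w) * (ind (B < qr Q X Z w) * ind (B < qr Q Y Z w))) :=
        Q.E_congr (fun v hv => by
          show ind (¬ T v) * (ind (B < P.rt X N Z v (Z v)) * ind (B < P.rt Y N Z v (Z v))) = _
          rw [hrX v hv, hrY v hv])
      have e2 : Q.E (P.iota X Z N) = Q.E (fun v => Real.log (qr Q X Z v)) := Q.E_congr hio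
      have e3 : Q.E (fun v => ind (P.pv N Z v (Z v) ≤ 1 / 2)) = Q.Pr (fun v => Q.m Z v ≤ 1 / 2) :=
        Q.E_congr (fun v hv => by rw [hpv v (cnd_supp P hv)])
      rw [e1, e2, e3]
      exact h
  have h1 := P.E_mono key
  have e1 : P.E (fun w => th w * P.ce N F w) = P.E (fun w => th w * F w) := P.E_mul_ce hth F
  have e2 : P.E (fun w => th w * (eta * (2 / Real.log B) * P.ce N (P.iota X Z N) w +
        Real.exp (L0 + 1 - eta / (2 * sig)) * P.ce N (fun v => ind (P.pv N Z v (Z v) ≤ 1 / 2)) w)) =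
      eta * (2 / Real.log B) * P.E (fun w => th w * P.iota X Z N w) +
        Real.exp (L0 + 1 - eta / (2 * sig)) * P.E (fun w => th w * ind (P.pv N Z w (Z w) ≤ 1 / 2)) := by
    rw [← P.E_mul_ce hth (P.iota X Z N), ← P.E_mul_ce hth (fun v => ind (P.pv N Z v (Z v) ≤ 1 / 2)),
      ← FP.E_smul, ← FP.E_smul, ← FP.E_add]
    exact P.E_congr (fun w _ => by ring)
  rw [e1, e2] at h1
  have h2 : P.E (fun w => th w * (ind (T w ∨ (B < P.rt X N Z w (Z w) ∧ B < P.rt Y N Z w (Z w))) *
      psi w)) ≤ P.E (fun w => th w * (ind (T w) * psi w) + Real.log A * (th w * F w)) := by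
    refine P.E_mono (fun w hw => ?_)
    by_cases hthw : th w = 0
    · rw [hthw]; simp
    by_cases hTw : T w
    · have hF0 : F w = 0 := by
        show ind (¬ T w) * _ = 0
        rw [ind_not (fun h => h hTw), zero_mul]
      rw [hF0, ind_of (Or.inl hTw), ind_of hTw]
      linarith
    · have hTnw : ¬ Tn w := fun h => hTw (hsub w h)
      have hi := hpsi w hw
      have hFe : F w = ind (B < P.rt X N Z w (Z w)) * ind (B < P.rt Y N Z w (Z w)) := by
        show ind (¬ T w) * _ = _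
        rw [ind_of hTw, one_mul]
      rw [hFe, ind_not hTw, zero_mul, mul_zero, zero_add]
      by_cases hb : B < P.rt X N Z w (Z w) ∧ B < P.rt Y N Z w (Z w)
      · rw [ind_of (Or.inr hb), ind_of hb.1, ind_of hb.2]
        have := mul_le_mul_of_nonneg_left hi (hth0 w hw)
        linarith
      · rw [ind_not (fun h => h.elim hTw hb), zero_mul, mul_zero]
        have := mul_nonneg hlA (mul_nonneg (hth0 w hw)
          (mul_nonneg (ind_nonneg (B < P.rt X N Z w (Z w))) (ind_nonneg (B < P.rt Y N Z w (Z w)))))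
        exact this
  rw [FP.E_add, FP.E_smul] at h2
  have h3 := mul_le_mul_of_nonneg_left h1 hlA
  linarith

end strong

end Pool.Agent.M3

namespace Pool.Agent.M3.S3

open Finset Pool.Agent.PWZ Pool.Agent.M3

section state

variable {X β γ φ : Type*} [Fintype X] [Fintype β] [Fintype γ] [Fintype φ] [Nonempty X] [Nonempty β] [Nonempty γ]

/-- the both-strong term for boxes, any function `psi ≤ log (1/al)` -/
theorem strong_satY {k : KP X β γ φ} {N Z : Bx X β γ} (hN : N.Ok k) (hZ : Z.Sub N) {al sig Bd eta L0 : ℝ}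
    {th : X → β → γ → ℝ} {T Tn : X → β → γ → Prop} {psi : Sp X β γ φ → ℝ}
    (hpsi : ∀ w, k.P.p w ≠ 0 → psi w ≤ Real.log (1 / al)) (hth0 : ∀ x b c, 0 ≤ th x b c)
    (hth : ∀ x b c x' b' c', x' ∈ N.V x b c → b' ∈ N.B x b c → c' ∈ N.C x b c → th x' b' c' = th x b c)
    (hTn : ∀ x b c x' b' c', x' ∈ N.V x b c → b' ∈ N.B x b c → c' ∈ N.C x b c → (Tn x' b' c' ↔ Tn x b c))
    (hT : ∀ x b c x' b' c', x' ∈ Z.V x b c → b' ∈ N.B x b c → c' ∈ N.C x b c → (T x' b' c' ↔ T x b c))
    (hsub : ∀ x b c, Tn x b c → T x b c)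
    (hs : ∀ x b c, th x b c ≠ 0 → ¬ Tn x b c → SatS k (N.V x b c) (N.B x b c) (N.C x b c) b c sig ∧
      Thk k (N.V x b c) al)
    (hal : 0 < al) (hal1 : al ≤ 1) (hB : Real.exp 2 ≤ Bd) (h0 : 0 < eta) (hBe : 2 * Real.exp 1 ≤ Bd * eta)
    (hsig : 0 < sig)
    (hTm : ∀ x b c, ¬ T x b c → Real.exp (-L0) * (N.V x b c).card ≤ (Z.V x b c).card) :
    k.P.E (fun w => th w.1 w.2.1 w.2.2.1 * (ind (T w.1 w.2.1 w.2.2.1 ∨
      (Bd < k.P.rt xF N.map Z.map w (Z.map w) ∧ Bd < k.P.rt xG N.map Z.map w (Z.map w))) *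
        psi w)) ≤
      k.P.E (fun w => th w.1 w.2.1 w.2.2.1 * (ind (T w.1 w.2.1 w.2.2.1) * psi w)) +
      Real.log (1 / al) * (eta * (2 / Real.log Bd) *
        k.P.E (fun w => th w.1 w.2.1 w.2.2.1 * k.P.iota xF Z.map N.map w) +
        Real.exp (L0 + 1 - eta / (2 * sig)) *
          E3 (fun x b c => th x b c * ind (2 * ((Z.V x b c).card : ℝ) ≤ (N.V x b c).card))) := by
  have hpv : ∀ w : Sp X β γ φ, k.P.pv N.map Z.map w (Z.map w) =
      (Z.V w.1 w.2.1 w.2.2.1).card / (N.V w.1 w.2.1 w.2.2.1).card := by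
    intro w
    rw [FP.pv_self, m_pair k hZ, m_N, m_N, hZ.B, hZ.C]
    have hM : MM X β γ ≠ 0 := MM_pos.ne'
    have hB : ((N.B w.1 w.2.1 w.2.2.1).card : ℝ) ≠ 0 := by
      exact_mod_cast (Finset.card_pos.2 ⟨_, N.sB w.1 w.2.1 w.2.2.1⟩).ne'
    have hC : ((N.C w.1 w.2.1 w.2.2.1).card : ℝ) ≠ 0 := by
      exact_mod_cast (Finset.card_pos.2 ⟨_, N.sC w.1 w.2.1 w.2.2.1⟩).ne'
    field_simp
  have hVp : ∀ x b c, (0 : ℝ) < (N.V x b c).card := fun x b c => by
    exact_mod_cast Finset.card_pos.2 ⟨_, N.sV x b c⟩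
  have h1 := both_strongY (P := k.P) (a := fun v => v.1) (X := xF) (Y := xG) (N := N.map) (Z := Z.map)
    (A := 1 / al) (B := Bd) (eta := eta) (sig := sig) (L0 := L0)
    (T := fun w => T w.1 w.2.1 w.2.2.1) (Tn := fun w => Tn w.1 w.2.1 w.2.2.1)
    (th := fun w => th w.1 w.2.1 w.2.2.1) (psi := psi) hpsi
    (fun v w hv => by
      obtain ⟨h1, h2, h3⟩ := N.map_eq.1 hv
      exact hth _ _ _ _ _ _ h1 h2 h3)
    (fun w _ => hth0 _ _ _)
    (fun v w hv => by
      have hv' : (v.1, N.map v) = (w.1, N.map w) := hv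
      obtain ⟨e1, e1'⟩ := Prod.mk.inj hv'
      obtain ⟨h1, h2, h3⟩ := N.map_eq.1 e1'
      rw [Z.map_eq]
      have hi := Z.inv v.1 v.2.1 v.2.2.1 v.1 w.2.1 w.2.2.1 (Z.sV _ _ _)
        (by
          rw [hZ.B]
          obtain ⟨-, e2, -⟩ := N.inv _ _ _ _ _ _ h1 h2 h3
          rw [e2]; exact N.sB _ _ _)
        (by
          rw [hZ.C]
          obtain ⟨-, -, e3⟩ := N.inv _ _ _ _ _ _ h1 h2 h3
          rw [e3]; exact N.sC _ _ _)
      rw [e1] at hi
      refine ⟨?_, ?_, ?_⟩
      · rw [e1]; exact Z.sV _ _ _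
      · rw [hZ.B]; exact h2
      · rw [hZ.C]; exact h3)
    (fun u v huv => by
      have e1 : Z.map u = Z.map v := congrArg Prod.fst huv
      have e2 : N.map u = N.map v := congrArg Prod.snd huv
      obtain ⟨h1, -, -⟩ := Z.map_eq.1 e1
      obtain ⟨-, h2, h3⟩ := N.map_eq.1 e2
      exact hT _ _ _ _ _ _ h1 h2 h3)
    (fun u v huv => by
      obtain ⟨h1, h2, h3⟩ := N.map_eq.1 huv
      exact hTn _ _ _ _ _ _ h1 h2 h3)
    (fun w => hsub _ _ _)
    (fun w h _ h2 h3 => by
      obtain ⟨h4, h5⟩ := hs w.1 w.2.1 w.2.2.1 h2 h3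
      exact sta_of_sat hN w h h4 h5)
    (by rw [le_div_iff₀ hal, one_mul]; exact hal1) hB h0 hBe hsig
    (fun w _ hTw => by
      rw [hpv w, le_div_iff₀ (hVp _ _ _)]
      exact hTm _ _ _ hTw)
  have e1 : k.P.E (fun w => th w.1 w.2.1 w.2.2.1 * ind (k.P.pv N.map Z.map w (Z.map w) ≤ 1 / 2)) =
      E3 (fun x b c => th x b c * ind (2 * ((Z.V x b c).card : ℝ) ≤ (N.V x b c).card)) := by
    rw [← k.E_pts]
    refine k.P.E_congr fun w _ => ?_
    show _ = th w.1 w.2.1 w.2.2.1 * ind (2 * ((Z.V w.1 w.2.1 w.2.2.1).card : ℝ) ≤ (N.V w.1 w.2.1 w.2.2.1).card)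
    congr 1
    refine congrArg ind (propext ?_)
    rw [hpv w, div_le_iff₀ (hVp _ _ _)]
    constructor <;> intro h <;> linarith
  rw [e1] at h1
  exact h1

end state

end Pool.Agent.M3.S3
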