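import Pool.Agent.GMC3.UpdY
import Pool.Agent.GMC3.StrY

/-!
# GMC3.StepY: Cor. 3', one step of the time and its losses (helper97)

* `stepY` : `E_t [h ioP] ≤ E_(t+1) [h ioP] + losses`, `h` any function of the state, the points and the labels, `0 ≤ h ≤ 1`;
* `lossDY_le`, `lossCY_le`, `lossTY_le` : the losses, with the bounds of `lossD_le`, `lossC_le`, `lossT_le`.
-/

set_option autoImplicit false
set_option linter.unusedSectionVars false
set_option linter.unusedVariables false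

namespace Pool.Agent.M3.S3

open Finset Pool.Agent.PWZ Pool.Agent.M3

noncomputable section

namespace C3

variable {X β γ ι φ : Type*} [Fintype X] [Fintype β] [Fintype γ] [Fintype φ] [Nonempty X] [Nonempty β] [Nonempty γ]
  {D : Dat X β γ ι φ} {V : ℕ → X → β → γ → Finset X} {al : ℝ}

/-- the density above the threshold `et` -/
def ioT (P : FP (Sp X β γ φ)) (et : ℝ) (N : Sp X β γ φ → Finset X × Finset β × Finset γ) (w : Sp X β γ φ) : ℝ :=
  ind (et < P.iota xF xG N w) * P.iota xF xG N w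

/-- loss at the digit -/
def lossDY (T : D.Thick al) (hV : RefCl D V) (et B : ℝ) (Tb : Sp X β γ φ → Prop) (t : ℕ) : ℝ :=
  (D.kp T t).P.E (fun w => ind (Tb w ∨ (B < (D.kp T t).P.rt xF (bxU hV t).map (bxh hV t).map w ((bxh hV t).map w) ∧
      B < (D.kp T t).P.rt xG (bxU hV t).map (bxh hV t).map w ((bxh hV t).map w))) *
      ioT (D.kp T t).P et (bxU hV t).map w)

/-- loss at the next classes -/
def lossCY (T : D.Thick al) (hV : RefCl D V) (et B : ℝ) (θ : Sp X β γ φ → ℝ) (Tc : Sp X β γ φ → Prop) (t : ℕ) : ℝ :=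
  (D.kp T t).P.E (fun w => θ w * (ind (Tc w ∨
    (B < (D.kp T t).P.rt xF (bxH hV t).map (bxU hV (t + 1)).map w ((bxU hV (t + 1)).map w) ∧
      B < (D.kp T t).P.rt xG (bxH hV t).map (bxU hV (t + 1)).map w ((bxU hV (t + 1)).map w))) *
      ioT (D.kp T t).P et (bxH hV t).map w))

/-- loss at the tiny half step states -/
def lossTY (T : D.Thick al) (hV : RefCl D V) (et : ℝ) (θ : Sp X β γ φ → ℝ) (t : ℕ) : ℝ :=
  (D.kp T t).P.E (fun w => (1 - θ w) * (D.kp T t).P.ioP et xF xG (bxH hV t).map w)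

/-- **one step** -/
theorem stepY (T : D.Thick al) (hV : RefCl D V) {t : ℕ} {p q : φ → φ}
    (hp : ∀ x b c F, D.kf t x b c F = ∑ F', ind (p F' = F) * D.kf (t + 1) x b c F')
    (hq : ∀ x b c G, D.kg t x b c G = ∑ G', ind (q G' = G) * D.kg (t + 1) x b c G')
    {θ : Sp X β γ φ → ℝ} (hθ : Fac (bxH hV t).map θ) (hθ0 : ∀ w, 0 ≤ θ w) (hθ1 : ∀ w, θ w ≤ 1)
    {B d1 d2 : ℝ} (hB : Real.exp 2 ≤ B) (hd1 : 0 ≤ d1) (hd2 : 0 ≤ d2)
    (c1 : ∀ w, (D.kp T t).P.p w ≠ 0 → (D.kp T t).P.hel xF (bxU hV t).map xG w ≤ d1)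
    (c1' : ∀ w, (D.kp T t).P.p w ≠ 0 → (D.kp T t).P.hel xG (bxU hV t).map xF w ≤ d1)
    (c2 : ∀ w, (D.kp T t).P.p w ≠ 0 → θ w ≠ 0 → (D.kp T t).P.hel xF (bxH hV t).map xG w ≤ d2)
    (c2' : ∀ w, (D.kp T t).P.p w ≠ 0 → θ w ≠ 0 → (D.kp T t).P.hel xG (bxH hV t).map xF w ≤ d2)
    {Tb Tc : Sp X β γ φ → Prop}
    (hTb : ∀ u v, (bxh hV t).map u = (bxh hV t).map v → (Tb u ↔ Tb v))
    (hTc : ∀ u v, (bxU hV (t + 1)).map u = (bxU hV (t + 1)).map v → (Tc u ↔ Tc v))
    {et : ℝ} (he : 0 < et) (he1 : et ≤ 1) {h : Sp X β γ φ → ℝ} (h0 : ∀ w, 0 ≤ h w) (h1 : ∀ w, h w ≤ 1)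
    (hc : ∀ x x' b c F G, x' ∈ V t x b c → h (x', b, c, F, G) = h (x, b, c, F, G)) :
    (D.kp T t).P.E (fun w => h w * (D.kp T t).P.ioP et xF xG (bxU hV t).map w) ≤
      (D.kp T (t + 1)).P.E (fun w => h (prj p q w) * (D.kp T (t + 1)).P.ioP et xF xG (bxU hV (t + 1)).map w) +
      2 / et * (2 * kd d1 * B * gainD T hV t + kd d1 * (D.kp T t).P.E (fun w => ind (Tb w))) +
      2 / et * (2 * kd d2 * B * gainC T hV t + kd d2 * (D.kp T t).P.E (fun w => θ w * ind (Tc w))) +
      1 / et * (lossDY T hV et B Tb t + lossCY T hV et B θ Tc t) + lossTY T hV et θ t := by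
  set P := (D.kp T t).P with hP
  set N : Sp X β γ φ → Finset X × Finset β × Finset γ := (bxU hV t).map with hN
  set hh : Sp X β γ φ → Finset X × Finset β × Finset γ := (bxh hV t).map with hhh
  set H : Sp X β γ φ → Finset X × Finset β × Finset γ := (bxH hV t).map with hH
  set Z : Sp X β γ φ → Finset X × Finset β × Finset γ := (bxU hV (t + 1)).map with hZ
  have okN : (bxU hV t).Ok (D.kp T t) := bxA_ok T hV t t t le_rfl le_rfl
  have okh : (bxh hV t).Ok (D.kp T t) := bxB_ok T hV t t t le_rfl le_rfl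
  have okH : (bxH hV t).Ok (D.kp T t) := bxB_ok T hV t (t + 1) t (Nat.le_succ t) (Nat.le_succ t)
  have okZ : (bxU hV (t + 1)).Ok (D.kp T t) := bxA_ok T hV (t + 1) (t + 1) t le_rfl (Nat.le_succ t)
  have okZ' : (bxU hV (t + 1)).Ok (D.kp T (t + 1)) := bxA_ok T hV (t + 1) (t + 1) (t + 1) le_rfl le_rfl
  have hB0 : 0 ≤ B := (Real.exp_pos 2).le.trans hB
  have hkd1 := kd_nonneg hd1
  have hkd2 := kd_nonneg hd2
  have hhN : Fac hh N := (bxh_sub hV t).fac
  have hZH : Fac Z H := (bxU_sub hV t).fac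
  have hfe : ∀ (v w : Sp X β γ φ), v.1 ∈ V t w.1 w.2.1 w.2.2.1 → xF v = xF w → xG v = xG w → h v = h w := by
    rintro ⟨x', b', c', F', G'⟩ ⟨x, b, c, F, G⟩ hx hF hG
    simp only [xF, xG, Prod.mk.injEq] at hF hG
    obtain ⟨rfl, rfl⟩ := hF
    obtain ⟨rfl, rfl⟩ := hG
    exact hc x x' _ _ _ _ hx
  have facN : Fac (fun u => (xF u, xG u, N u)) h := by
    intro v w hvw
    simp only [Prod.mk.injEq] at hvw
    exact hfe v w (Bx.map_eq.1 hvw.2.2).1 hvw.1 hvw.2.1
  have facH : Fac (fun u => (xF u, xG u, H u)) h := by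
    intro v w hvw
    simp only [Prod.mk.injEq] at hvw
    exact hfe v w (mem_hlf.1 (Bx.map_eq.1 hvw.2.2).1).1 hvw.1 hvw.2.1
  -- (1) the digit
  have e1 := P.keyY_w xF xG hh N (θ := fun _ => 1) (Fac.const _ _) (fun _ _ => zero_le_one) hB hd1
    (fun u hu _ => c1 u hu) (fun u hu _ => c1' u hu) (T := Tb)
    (fun u v huv => hTb u v (congrArg Prod.fst huv)) he he1 facN h0 h1
  simp only [one_mul] at e1
  -- (2) the next classes
  have e2 := P.keyY_w xF xG Z H hθ (fun w _ => hθ0 w) hB hd2 c2 c2' (T := Tc)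
    (fun u v huv => hTc u v (congrArg Prod.fst huv)) he he1 facH h0 h1
  -- identities
  have i2 : ∀ w, P.iota xF xG (fun u => (hh u, N u)) w = P.iota xF xG hh w :=
    fun w => iota_congr3 P xF xG (Fac.fst hh N) ((Fac.refl hh).prod hhN) w
  have i3 : ∀ w, P.iota xF xG hh w = P.iota xF xG H w := fun w => by
    rw [hhh, hH, hP, iota_FG _ okh, iota_FG _ okH]
    rfl
  have i4 : ∀ w, P.iota xF xG (fun u => (Z u, H u)) w = P.iota xF xG Z w :=
    fun w => iota_congr3 P xF xG (Fac.fst Z H) ((Fac.refl Z).prod hZH) w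
  have j2 : ∀ w, P.ioP et xF xG (fun u => (hh u, N u)) w = P.ioP et xF xG H w := fun w => by
    unfold FP.ioP
    rw [i2, i3]
  have j4 : ∀ w, P.ioP et xF xG (fun u => (Z u, H u)) w = P.ioP et xF xG Z w := fun w => by
    unfold FP.ioP
    rw [i4]
  simp only [j2] at e1
  simp only [j4] at e2
  -- (3) the label update
  have e3 := updY (D.kp T t) (D.kp T (t + 1)) (bxU hV (t + 1)) okZ okZ' (hV.pv (t + 1)) p q hp hq h0
    (fun x x' b c F G hx => hc x x' b c F G (hV.ref t x b c hx)) et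
  -- (4) the weight
  have s1 : P.E (fun w => h w * P.ioP et xF xG H w) ≤ P.E (fun w => θ w * (h w * P.ioP et xF xG H w)) +
      lossTY T hV et θ t := by
    unfold lossTY
    rw [← P.E_add]
    refine P.E_mono fun w _ => ?_
    have a1 : 0 ≤ P.ioP et xF xG H w := P.ioP_nonneg _ _ _ _ _
    have a2 : h w * P.ioP et xF xG H w ≤ P.ioP et xF xG H w := mul_le_of_le_one_left a1 (h1 w)
    have a3 : (1 - θ w) * (h w * P.ioP et xF xG H w) ≤ (1 - θ w) * P.ioP et xF xG H w :=
      mul_le_mul_of_nonneg_left a2 (by linarith [hθ1 w])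
    show h w * P.ioP et xF xG H w ≤ θ w * (h w * P.ioP et xF xG H w) + (1 - θ w) * P.ioP et xF xG H w
    linarith
  have s2 : P.E (fun w => θ w * (h w * P.ioP et xF xG Z w)) ≤ P.E (fun w => h w * P.ioP et xF xG Z w) := by
    refine P.E_mono fun w _ => ?_
    exact mul_le_of_le_one_left (mul_nonneg (h0 w) (P.ioP_nonneg _ _ _ _ _)) (hθ1 w)
  -- (5) the gains
  have g1 : P.E (fun w => θ w * P.iota xF Z H w) + P.E (fun w => θ w * P.iota xG Z H w) ≤ gainC T hV t := by
    have F1 : Fac H (fun w => 1 - θ w) := hθ.comp (fun x => 1 - x)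
    have a1 := iota_w_nonneg P xF Z F1 (fun w => by linarith [hθ1 w])
    have a2 := iota_w_nonneg P xG Z F1 (fun w => by linarith [hθ1 w])
    have b1 : P.E (P.iota xF Z H) = P.E (fun w => θ w * P.iota xF Z H w) +
        P.E (fun w => (1 - θ w) * P.iota xF Z H w) := by
      rw [← P.E_add]
      exact P.E_congr fun w _ => by ring
    have b2 : P.E (P.iota xG Z H) = P.E (fun w => θ w * P.iota xG Z H w) +
        P.E (fun w => (1 - θ w) * P.iota xG Z H w) := by
      rw [← P.E_add]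
      exact P.E_congr fun w _ => by ring
    show _ ≤ P.E (P.iota xF Z H) + P.E (P.iota xG Z H)
    linarith
  have g2 : 2 / et * (2 * kd d2 * B * (P.E (fun w => θ w * P.iota xF Z H w) + P.E (fun w => θ w * P.iota xG Z H w)) +
      kd d2 * P.E (fun w => θ w * ind (Tc w))) ≤
      2 / et * (2 * kd d2 * B * gainC T hV t + kd d2 * P.E (fun w => θ w * ind (Tc w))) := by
    refine mul_le_mul_of_nonneg_left ?_ (by positivity)
    have := mul_le_mul_of_nonneg_left g1 (by positivity : 0 ≤ 2 * kd d2 * B)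
    linarith
  have g3 : P.E (fun w => P.iota xF hh N w) + P.E (fun w => P.iota xG hh N w) = gainD T hV t := rfl
  have l1 : P.E (fun w => ind (Tb w ∨ (B < P.rt xF N hh w (hh w) ∧ B < P.rt xG N hh w (hh w))) *
        (1 / et * (ind (et < P.iota xF xG N w) * P.iota xF xG N w))) = 1 / et * lossDY T hV et B Tb t := by
    unfold lossDY ioT
    rw [← P.E_smul]
    exact P.E_congr fun w _ => by ring
  have l2 : P.E (fun w => θ w * (ind (Tc w ∨ (B < P.rt xF H Z w (Z w) ∧ B < P.rt xG H Z w (Z w))) *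
        (1 / et * (ind (et < P.iota xF xG H w) * P.iota xF xG H w)))) = 1 / et * lossCY T hV et B θ Tc t := by
    unfold lossCY ioT
    rw [← P.E_smul]
    exact P.E_congr fun w _ => by ring
  rw [l1, g3] at e1
  rw [l2] at e2
  have e3' : P.E (fun w => h w * P.ioP et xF xG Z w) ≤
    (D.kp T (t + 1)).P.E (fun w => h (prj p q w) * (D.kp T (t + 1)).P.ioP et xF xG Z w) := e3
  linarith

/-! ## the losses -/

theorem law_ratio_le {α κ : Type*} {V W : Finset α} (hW : W ⊆ V) (hne : W.Nonempty) {f : α → κ → ℝ}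
    (hf : ∀ x F, 0 ≤ f x F) (F : κ) : law W f F / law V f F ≤ (V.card : ℝ) / W.card := by
  have hw : (0 : ℝ) < W.card := by exact_mod_cast hne.card_pos
  have hv : (0 : ℝ) < V.card := by exact_mod_cast (hne.mono hW).card_pos
  have h1 : ∑ x ∈ W, f x F ≤ ∑ x ∈ V, f x F := Finset.sum_le_sum_of_subset_of_nonneg hW fun x _ _ => hf x F
  have h2 : 0 ≤ ∑ x ∈ V, f x F := Finset.sum_nonneg fun x _ => hf x F
  show ((∑ x ∈ W, f x F) / (W.card : ℝ)) / ((∑ x ∈ V, f x F) / (V.card : ℝ)) ≤ _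
  rcases h2.eq_or_lt with h3 | h3
  · rw [← h3, zero_div, div_zero]
    positivity
  · rw [div_div_div_eq, div_le_div_iff₀ (by positivity) hw]
    nlinarith [mul_le_mul_of_nonneg_right h1 (mul_pos hv hw).le]

theorem four_lt {B : ℝ} (hB : Real.exp 2 ≤ B) : 4 < B := by
  have h1 := Real.exp_one_gt_d9
  have h2 : Real.exp 2 = Real.exp 1 * Real.exp 1 := by rw [← Real.exp_add]; norm_num
  nlinarith

/-- the loss at the digit -/
theorem lossDY_le (T : D.Thick al) (hV : RefCl D V) {dg : ℕ → X → ℝ} {t : ℕ} (hdg : ∀ x, dg t x = 1 ∨ dg t x = -1)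
    (hcell : ∀ x x', D.qa (t + 1) x = D.qa (t + 1) x' ↔ D.qa t x = D.qa t x' ∧ dg t x = dg t x')
    {mu sig B eta et : ℝ} (hmu0 : 0 < mu) (hmu : mu ≤ 1 / 4) (hB : Real.exp 2 ≤ B) (h0 : 0 < eta)
    (hBe : 2 * Real.exp 1 ≤ B * eta) (hsig : 0 < sig) (het : 0 < et)
    (hs : ∀ x b c, 1 / 2 < |avg (V t x b c) (dg t)| →
      SatS (D.kp T t) (V t x b c) (D.cB t b) (D.cC t c) b c sig) :
    lossDY T hV et B (fun w => ((hlf D V t w.1 w.2.1 w.2.2.1).card : ℝ) < mu * (V t w.1 w.2.1 w.2.2.1).card) t ≤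
      Real.log (1 / al) * (eta * (2 / Real.log B) *
        (D.kp T t).P.E ((D.kp T t).P.iota xF (bxh hV t).map (bxU hV t).map)) +
      Real.log (1 / al) * (mu + Real.exp (Real.log (1 / mu) + 1 - eta / (2 * sig))) *
        E3 (fun x b c => ind (1 / 2 < |avg (V t x b c) (dg t)|)) := by
  have hal := T.pos
  have hal1 := thick_al_le_one T
  have hlog : 0 ≤ Real.log (1 / al) := Real.log_nonneg (by rw [le_div_iff₀ hal, one_mul]; exact hal1)
  have hlB : 0 < Real.log B := Real.log_pos (lt_of_lt_of_le (Real.one_lt_exp_iff.2 (by norm_num)) hB)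
  have hB4 := four_lt hB
  set P := (D.kp T t).P with hP
  set th : X → β → γ → ℝ := fun x b c => ind (1 / 2 < |avg (V t x b c) (dg t)|) with hth
  set Tb : X → β → γ → Prop := fun x b c => ((hlf D V t x b c).card : ℝ) < mu * (V t x b c).card with hTb
  have okN : (bxU hV t).Ok (D.kp T t) := bxA_ok T hV t t t le_rfl le_rfl
  have hVinv : ∀ x b c x' b' c', x' ∈ (bxU hV t).V x b c → b' ∈ (bxU hV t).B x b c → c' ∈ (bxU hV t).C x b c →
      V t x' b' c' = V t x b c := fun x b c x' b' c' h1 h2 h3 => ((bxU hV t).inv x b c x' b' c' h1 h2 h3).1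
  have hpsi : ∀ w, P.p w ≠ 0 → ioT P et (bxU hV t).map w ≤ Real.log (1 / al) := by
    intro w hw
    have h1 := iota_le_thk okN hw (thk_of_cA T t (hV.cell t w.1 w.2.1 w.2.2.1))
    unfold ioT
    by_cases h2 : et < P.iota xF xG (bxU hV t).map w
    · rw [ind_of h2, one_mul]; exact h1
    · rw [ind_not h2, zero_mul]; exact hlog
  have hpsi0 : ∀ w, 0 ≤ ioT P et (bxU hV t).map w := by
    intro w
    unfold ioT
    by_cases h2 : et < P.iota xF xG (bxU hV t).map w
    · rw [ind_of h2, one_mul]; linarith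
    · rw [ind_not h2, zero_mul]
  have key := strong_satY (k := D.kp T t) (N := bxU hV t) (Z := bxh hV t) okN (bxh_sub hV t) (al := al) (sig := sig)
    (Bd := B) (eta := eta) (L0 := Real.log (1 / mu)) (th := th) (T := Tb) (Tn := fun _ _ _ => False)
    (psi := ioT P et (bxU hV t).map) hpsi
    (fun x b c => ind_nonneg _)
    (fun x b c x' b' c' h1 h2 h3 => by
      simp only [hth]
      rw [hVinv x b c x' b' c' h1 h2 h3])
    (fun x b c x' b' c' h1 h2 h3 => Iff.rfl)
    (fun x b c x' b' c' h1 h2 h3 => by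
      have hi := (bxh hV t).inv x b c x' b' c' h1 h2 h3
      have e1 : hlf D V t x' b' c' = hlf D V t x b c := hi.1
      have e2 : V t x' b' c' = V t x b c := hVinv x b c x' b' c' (mem_hlf.1 h1).1 h2 h3
      simp only [hTb]
      rw [e1, e2])
    (fun x b c h => h.elim)
    (fun x b c h1 _ => ⟨hs x b c (ind_ne h1), thk_of_cA T t (hV.cell t x b c)⟩)
    hal hal1 hB h0 hBe hsig
    (fun x b c h => by
      have h1 : Real.exp (-Real.log (1 / mu)) = mu := by
        rw [one_div, Real.log_inv, neg_neg, Real.exp_log hmu0]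
      rw [h1]
      exact not_lt.1 h)
  -- the weight: nothing bad happens at the good digits
  have e1 : lossDY T hV et B (fun w => ((hlf D V t w.1 w.2.1 w.2.2.1).card : ℝ) <
      mu * (V t w.1 w.2.1 w.2.2.1).card) t =
      P.E (fun w => th w.1 w.2.1 w.2.2.1 * (ind (Tb w.1 w.2.1 w.2.2.1 ∨
      (B < P.rt xF (bxU hV t).map (bxh hV t).map w ((bxh hV t).map w) ∧
        B < P.rt xG (bxU hV t).map (bxh hV t).map w ((bxh hV t).map w))) *
        ioT P et (bxU hV t).map w)) := by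
    unfold lossDY
    refine P.E_congr fun w _ => ?_
    by_cases hbd : 1 / 2 < |avg (V t w.1 w.2.1 w.2.2.1) (dg t)|
    · have : th w.1 w.2.1 w.2.2.1 = 1 := ind_of hbd
      rw [this, one_mul]
    · have h2 : th w.1 w.2.1 w.2.2.1 = 0 := ind_not hbd
      have hc0 : (0 : ℝ) < (V t w.1 w.2.1 w.2.2.1).card := by
        exact_mod_cast Finset.card_pos.2 ⟨_, hV.self t _ _ _⟩
      have hcd := hlf_card hV hdg hcell w.1 w.2.1 w.2.2.1
      have habs : -(1 / 2) ≤ dg t w.1 * avg (V t w.1 w.2.1 w.2.2.1) (dg t) := by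
        have h3 := not_lt.1 hbd
        have h4 := abs_le.1 h3
        rcases hdg w.1 with h5 | h5 <;> rw [h5]
        · linarith [h4.1]
        · linarith [h4.2]
      have hqt : ((V t w.1 w.2.1 w.2.2.1).card : ℝ) ≤ 4 * (hlf D V t w.1 w.2.1 w.2.2.1).card := by
        nlinarith
      have hnT : ¬ (((hlf D V t w.1 w.2.1 w.2.2.1).card : ℝ) < mu * (V t w.1 w.2.1 w.2.2.1).card) := by
        rw [not_lt]
        nlinarith
      have hrt : P.rt xF (bxU hV t).map (bxh hV t).map w ((bxh hV t).map w) ≤ 4 := by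
        rw [hP, rt_F (D.kp T t) (bxh_sub hV t) okN]
        have hmem : w.1 ∈ hlf D V t w.1 w.2.1 w.2.2.1 := mem_hlf.2 ⟨hV.self t _ _ _, rfl⟩
        have h6 := law_ratio_le (V := V t w.1 w.2.1 w.2.2.1) (W := hlf D V t w.1 w.2.1 w.2.2.1)
          (fun y hy => (mem_hlf.1 hy).1) ⟨_, hmem⟩
          (f := fun x => (D.kp T t).f x w.2.1 w.2.2.1) (fun x F => (D.kp T t).f_nn _ _ _ _) w.2.2.2.1
        refine h6.trans ?_
        have h7 : (0 : ℝ) < (hlf D V t w.1 w.2.1 w.2.2.1).card := by exact_mod_cast Finset.card_pos.2 ⟨_, hmem⟩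
        rw [div_le_iff₀ h7]
        exact hqt
      rw [h2, zero_mul]
      have h8 : ¬ ((((hlf D V t w.1 w.2.1 w.2.2.1).card : ℝ) < mu * (V t w.1 w.2.1 w.2.2.1).card) ∨
        (B < P.rt xF (bxU hV t).map (bxh hV t).map w ((bxh hV t).map w) ∧
        B < P.rt xG (bxU hV t).map (bxh hV t).map w ((bxh hV t).map w))) := by
        rintro (h9 | h9)
        · exact hnT h9
        · linarith [h9.1]
      show ind _ * _ = 0
      rw [ind_not h8, zero_mul]
  rw [e1]
  refine key.trans ?_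
  -- the tiny part
  have t1 : P.E (fun w => th w.1 w.2.1 w.2.2.1 * (ind (Tb w.1 w.2.1 w.2.2.1) * ioT P et (bxU hV t).map w)) ≤
      Real.log (1 / al) * (mu * E3 th) := by
    calc P.E (fun w => th w.1 w.2.1 w.2.2.1 * (ind (Tb w.1 w.2.1 w.2.2.1) * ioT P et (bxU hV t).map w))
        ≤ P.E (fun w => Real.log (1 / al) * (th w.1 w.2.1 w.2.2.1 * ind (Tb w.1 w.2.1 w.2.2.1))) := by
          refine P.E_mono fun w hw => ?_
          have h1 := hpsi w hw
          have h2 : 0 ≤ th w.1 w.2.1 w.2.2.1 * ind (Tb w.1 w.2.1 w.2.2.1) := mul_nonneg (ind_nonneg _) (ind_nonneg _)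
          nlinarith [mul_le_mul_of_nonneg_left h1 h2]
      _ = Real.log (1 / al) * E3 (fun x b c => th x b c * ind (Tb x b c)) := by
          rw [P.E_smul, hP, ← (D.kp T t).E_pts]
      _ ≤ Real.log (1 / al) * (mu * E3 th) :=
          mul_le_mul_of_nonneg_left (tiny_mass hV hdg hcell hmu0.le hmu) hlog
  -- the gain
  have F1 : Fac (bxU hV t).map (fun w : Sp X β γ φ => 1 - th w.1 w.2.1 w.2.2.1) := by
    intro v w hvw
    obtain ⟨h1, h2, h3⟩ := Bx.map_eq.1 hvw
    simp only [hth]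
    rw [hVinv _ _ _ _ _ _ h1 h2 h3]
  have t2 : P.E (fun w => th w.1 w.2.1 w.2.2.1 * P.iota xF (bxh hV t).map (bxU hV t).map w) ≤
      P.E (P.iota xF (bxh hV t).map (bxU hV t).map) := by
    have h1 := iota_w_nonneg P xF (bxh hV t).map F1 (fun w => by
      have := ind_le_one (1 / 2 < |avg (V t w.1 w.2.1 w.2.2.1) (dg t)|)
      simp only [hth]; linarith)
    have h2 : P.E (P.iota xF (bxh hV t).map (bxU hV t).map) =
        P.E (fun w => th w.1 w.2.1 w.2.2.1 * P.iota xF (bxh hV t).map (bxU hV t).map w) +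
        P.E (fun w => (1 - th w.1 w.2.1 w.2.2.1) * P.iota xF (bxh hV t).map (bxU hV t).map w) := by
      rw [← P.E_add]
      exact P.E_congr fun w _ => by ring
    linarith
  have t3 : E3 (fun x b c => th x b c * ind (2 * (((bxh hV t).V x b c).card : ℝ) ≤ ((bxU hV t).V x b c).card)) ≤
      E3 th := E3_mono fun x b c => by
    have h1 := ind_le_one (2 * (((bxh hV t).V x b c).card : ℝ) ≤ ((bxU hV t).V x b c).card)
    have h2 : 0 ≤ th x b c := ind_nonneg _
    nlinarith
  have hq : 0 ≤ eta * (2 / Real.log B) := by positivity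
  have hx : 0 ≤ Real.exp (Real.log (1 / mu) + 1 - eta / (2 * sig)) := (Real.exp_pos _).le
  have t4 := mul_le_mul_of_nonneg_left t2 hq
  have t5 := mul_le_mul_of_nonneg_left t3 hx
  have t6 := mul_le_mul_of_nonneg_left (add_le_add t4 t5) hlog
  have t7 := add_le_add t1 t6
  refine t7.trans (le_of_eq ?_)
  ring

/-- the loss at the next classes -/
theorem lossCY_le (T : D.Thick al) (hV : RefCl D V) {t : ℕ} {mu sig B eta L0 del et : ℝ}
    (hB : Real.exp 2 ≤ B) (h0 : 0 < eta) (hBe : 2 * Real.exp 1 ≤ B * eta) (hsig : 0 < sig) (het : 0 < et)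
    (hdel : 0 ≤ del)
    (hs : ∀ x b c, mu * ((V t x b c).card : ℝ) ≤ (hlf D V t x b c).card →
      SatS (D.kp T t) (hlf D V t x b c) (D.cB (t + 1) b) (D.cC (t + 1) c) b c sig) :
    lossCY T hV et B (fun w => ind (mu * ((V t w.1 w.2.1 w.2.2.1).card : ℝ) ≤ (hlf D V t w.1 w.2.1 w.2.2.1).card))
      (fun w => Real.exp L0 * ((V (t + 1) w.1 w.2.1 w.2.2.1).card : ℝ) ≤ (hlf D V t w.1 w.2.1 w.2.2.1).card) t ≤
      E3 (fun x b c => ind (mu * ((V t x b c).card : ℝ) ≤ (hlf D V t x b c).card) *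
        (ind (Real.exp L0 * ((V (t + 1) x b c).card : ℝ) ≤ (hlf D V t x b c).card) *
          (del + Psi del (D.kp T t) (hlf D V t x b c) x b c))) +
      Real.log (1 / al) * (eta * (2 / Real.log B) *
        (D.kp T t).P.E ((D.kp T t).P.iota xF (bxU hV (t + 1)).map (bxH hV t).map) +
        Real.exp (L0 + 1 - eta / (2 * sig)) *
          E3 (fun x b c => ind (2 * ((V (t + 1) x b c).card : ℝ) ≤ (hlf D V t x b c).card))) := by
  have hal := T.pos
  have hal1 := thick_al_le_one T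
  have hlog : 0 ≤ Real.log (1 / al) := Real.log_nonneg (by rw [le_div_iff₀ hal, one_mul]; exact hal1)
  have hlB : 0 < Real.log B := Real.log_pos (lt_of_lt_of_le (Real.one_lt_exp_iff.2 (by norm_num)) hB)
  set P := (D.kp T t).P with hP
  set th : X → β → γ → ℝ := fun x b c => ind (mu * ((V t x b c).card : ℝ) ≤ (hlf D V t x b c).card) with hth
  set Tc : X → β → γ → Prop := fun x b c =>
    Real.exp L0 * ((V (t + 1) x b c).card : ℝ) ≤ (hlf D V t x b c).card with hTc
  have okH : (bxH hV t).Ok (D.kp T t) := bxB_ok T hV t (t + 1) t (Nat.le_succ t) (Nat.le_succ t)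
  have hHinv : ∀ x b c x' b' c', x' ∈ (bxH hV t).V x b c → b' ∈ (bxH hV t).B x b c → c' ∈ (bxH hV t).C x b c →
      hlf D V t x' b' c' = hlf D V t x b c := fun x b c x' b' c' h1 h2 h3 => ((bxH hV t).inv x b c x' b' c' h1 h2 h3).1
  have hVinv : ∀ x b c x' b' c', x' ∈ (bxH hV t).V x b c → b' ∈ (bxH hV t).B x b c → c' ∈ (bxH hV t).C x b c →
      V t x' b' c' = V t x b c := fun x b c x' b' c' h1 h2 h3 =>
    ((bxA hV t (t + 1) (Nat.le_succ t)).inv x b c x' b' c' (mem_hlf.1 h1).1 h2 h3).1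
  have hthi : ∀ x b c x' b' c', x' ∈ (bxH hV t).V x b c → b' ∈ (bxH hV t).B x b c → c' ∈ (bxH hV t).C x b c →
      th x' b' c' = th x b c := by
    intro x b c x' b' c' h1 h2 h3
    simp only [hth]
    rw [hHinv x b c x' b' c' h1 h2 h3, hVinv x b c x' b' c' h1 h2 h3]
  have hpsi : ∀ w, P.p w ≠ 0 → ioT P et (bxH hV t).map w ≤ Real.log (1 / al) := by
    intro w hw
    have h1 := iota_le_thk okH hw (thk_of_cA T t (fun y hy => hV.cell t w.1 w.2.1 w.2.2.1 (mem_hlf.1 hy).1))
    unfold ioT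
    by_cases h2 : et < P.iota xF xG (bxH hV t).map w
    · rw [ind_of h2, one_mul]; exact h1
    · rw [ind_not h2, zero_mul]; exact hlog
  have key := strong_satY (k := D.kp T t) (N := bxH hV t) (Z := bxU hV (t + 1)) okH (bxU_sub hV t) (al := al) (sig := sig)
    (Bd := B) (eta := eta) (L0 := L0) (th := th) (T := Tc) (Tn := fun _ _ _ => False)
    (psi := ioT P et (bxH hV t).map) hpsi
    (fun x b c => ind_nonneg _) hthi
    (fun x b c x' b' c' h1 h2 h3 => Iff.rfl)
    (fun x b c x' b' c' h1 h2 h3 => by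
      have e1 : V (t + 1) x' b' c' = V (t + 1) x b c := ((bxU hV (t + 1)).inv x b c x' b' c' h1 h2 h3).1
      have e2 : hlf D V t x' b' c' = hlf D V t x b c := hHinv x b c x' b' c' ((bxU_sub hV t).V x b c h1) h2 h3
      simp only [hTc]
      rw [e1, e2])
    (fun x b c h => h.elim)
    (fun x b c h1 _ => ⟨hs x b c (ind_ne h1),
      thk_of_cA T t (fun y hy => hV.cell t x b c (mem_hlf.1 hy).1)⟩)
    hal hal1 hB h0 hBe hsig
    (fun x b c h => by
      have h1 : ((hlf D V t x b c).card : ℝ) < Real.exp L0 * (V (t + 1) x b c).card := not_le.1 h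
      have h2 : Real.exp (-L0) * (hlf D V t x b c).card ≤ Real.exp (-L0) * (Real.exp L0 * (V (t + 1) x b c).card) :=
        mul_le_mul_of_nonneg_left h1.le (Real.exp_pos _).le
      rw [← mul_assoc, ← Real.exp_add, neg_add_cancel, Real.exp_zero, one_mul] at h2
      exact h2)
  refine key.trans ?_
  -- the big cells
  have t1 : P.E (fun w => th w.1 w.2.1 w.2.2.1 * (ind (Tc w.1 w.2.1 w.2.2.1) * ioT P et (bxH hV t).map w)) ≤
      E3 (fun x b c => th x b c * (ind (Tc x b c) * (del + Psi del (D.kp T t) (hlf D V t x b c) x b c))) := by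
    rw [(D.kp T t).E_eq]
    refine E3_mono fun x b c => ?_
    have h1 : ∀ F G, ioT P et (bxH hV t).map (x, b, c, F, G) ≤
        del + psi del (D.kp T t) (hlf D V t x b c) b c F G := by
      intro F G
      have h2 := psi_nonneg (D.kp T t) del (hlf D V t x b c) b c F G
      unfold ioT
      by_cases h3 : et < P.iota xF xG (bxH hV t).map (x, b, c, F, G)
      · rw [ind_of h3, one_mul, hP, iota_FG _ okH]
        exact io_le_psi _ _ _ _ _ _ _
      · rw [ind_not h3, zero_mul]; linarith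
    calc ∑ F, ∑ G, (D.kp T t).f x b c F * (D.kp T t).g x b c G *
          (th x b c * (ind (Tc x b c) * ioT P et (bxH hV t).map (x, b, c, F, G)))
        ≤ ∑ F, ∑ G, ((D.kp T t).f x b c F * (D.kp T t).g x b c G * (th x b c * ind (Tc x b c) * del) +
          th x b c * ind (Tc x b c) * ((D.kp T t).f x b c F * (D.kp T t).g x b c G *
            psi del (D.kp T t) (hlf D V t x b c) b c F G)) := by
          refine Finset.sum_le_sum fun F _ => Finset.sum_le_sum fun G _ => ?_
          have h2 : 0 ≤ (D.kp T t).f x b c F * (D.kp T t).g x b c G * (th x b c * ind (Tc x b c)) :=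
            mul_nonneg (mul_nonneg ((D.kp T t).f_nn _ _ _ _) ((D.kp T t).g_nn _ _ _ _))
              (mul_nonneg (ind_nonneg _) (ind_nonneg _))
          have h3 := mul_le_mul_of_nonneg_left (h1 F G) h2
          refine le_trans (le_of_eq ?_) (h3.trans (le_of_eq ?_))
          · ring
          · ring
      _ = th x b c * (ind (Tc x b c) * (del + Psi del (D.kp T t) (hlf D V t x b c) x b c)) := by
          simp only [Finset.sum_add_distrib]
          have h4 : ∑ F, ∑ G, (D.kp T t).f x b c F * (D.kp T t).g x b c G * (th x b c * ind (Tc x b c) * del) =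
              th x b c * ind (Tc x b c) * del := by
            simp only [← Finset.sum_mul, ← Finset.mul_sum, (D.kp T t).g_one, mul_one, (D.kp T t).f_one, one_mul]
          rw [h4]
          unfold Psi
          simp only [← Finset.mul_sum]
          ring
  -- the gain
  have F1 : Fac (bxH hV t).map (fun w : Sp X β γ φ => 1 - th w.1 w.2.1 w.2.2.1) := by
    intro v w hvw
    obtain ⟨h1, h2, h3⟩ := Bx.map_eq.1 hvw
    show 1 - th v.1 v.2.1 v.2.2.1 = 1 - th w.1 w.2.1 w.2.2.1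
    rw [hthi _ _ _ _ _ _ h1 h2 h3]
  have t2 : P.E (fun w => th w.1 w.2.1 w.2.2.1 * P.iota xF (bxU hV (t + 1)).map (bxH hV t).map w) ≤
      P.E (P.iota xF (bxU hV (t + 1)).map (bxH hV t).map) := by
    have h1 := iota_w_nonneg P xF (bxU hV (t + 1)).map F1 (fun w => by
      have := ind_le_one (mu * ((V t w.1 w.2.1 w.2.2.1).card : ℝ) ≤ (hlf D V t w.1 w.2.1 w.2.2.1).card)
      simp only [hth]; linarith)
    have h2 : P.E (P.iota xF (bxU hV (t + 1)).map (bxH hV t).map) =
        P.E (fun w => th w.1 w.2.1 w.2.2.1 * P.iota xF (bxU hV (t + 1)).map (bxH hV t).map w) +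
        P.E (fun w => (1 - th w.1 w.2.1 w.2.2.1) * P.iota xF (bxU hV (t + 1)).map (bxH hV t).map w) := by
      rw [← P.E_add]
      exact P.E_congr fun w _ => by ring
    linarith
  have t3 : E3 (fun x b c => th x b c *
      ind (2 * (((bxU hV (t + 1)).V x b c).card : ℝ) ≤ ((bxH hV t).V x b c).card)) ≤
      E3 (fun x b c => ind (2 * ((V (t + 1) x b c).card : ℝ) ≤ (hlf D V t x b c).card)) := E3_mono fun x b c => by
    have h1 : th x b c ≤ 1 := ind_le_one _
    have h2 : 0 ≤ ind (2 * ((V (t + 1) x b c).card : ℝ) ≤ (hlf D V t x b c).card) := ind_nonneg _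
    show th x b c * ind (2 * ((V (t + 1) x b c).card : ℝ) ≤ (hlf D V t x b c).card) ≤
      ind (2 * ((V (t + 1) x b c).card : ℝ) ≤ (hlf D V t x b c).card)
    nlinarith
  have hq : 0 ≤ eta * (2 / Real.log B) := by positivity
  have hx : 0 ≤ Real.exp (L0 + 1 - eta / (2 * sig)) := (Real.exp_pos _).le
  have t4 := mul_le_mul_of_nonneg_left t2 hq
  have t5 := mul_le_mul_of_nonneg_left t3 hx
  have t6 := mul_le_mul_of_nonneg_left (add_le_add t4 t5) hlog
  exact add_le_add t1 t6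

/-- the loss at the tiny half step states -/
theorem lossTY_le (T : D.Thick al) (hV : RefCl D V) {dg : ℕ → X → ℝ} {t : ℕ} (hdg : ∀ x, dg t x = 1 ∨ dg t x = -1)
    (hcell : ∀ x x', D.qa (t + 1) x = D.qa (t + 1) x' ↔ D.qa t x = D.qa t x' ∧ dg t x = dg t x')
    {mu et : ℝ} (hmu0 : 0 ≤ mu) (hmu : mu ≤ 1 / 4) (het : 0 < et) :
    lossTY T hV et (fun w => ind (mu * ((V t w.1 w.2.1 w.2.2.1).card : ℝ) ≤ (hlf D V t w.1 w.2.1 w.2.2.1).card)) t ≤
      Real.log (1 / al) * (mu * E3 (fun x b c => ind (1 / 2 < |avg (V t x b c) (dg t)|))) := by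
  have hal := T.pos
  have hal1 := thick_al_le_one T
  have hlog : 0 ≤ Real.log (1 / al) := Real.log_nonneg (by rw [le_div_iff₀ hal, one_mul]; exact hal1)
  set P := (D.kp T t).P with hP
  have okH : (bxH hV t).Ok (D.kp T t) := bxB_ok T hV t (t + 1) t (Nat.le_succ t) (Nat.le_succ t)
  calc lossTY T hV et (fun w => ind (mu * ((V t w.1 w.2.1 w.2.2.1).card : ℝ) ≤ (hlf D V t w.1 w.2.1 w.2.2.1).card)) t
      ≤ P.E (fun w => Real.log (1 / al) * (ind (1 / 2 < |avg (V t w.1 w.2.1 w.2.2.1) (dg t)|) *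
        ind (((hlf D V t w.1 w.2.1 w.2.2.1).card : ℝ) < mu * (V t w.1 w.2.1 w.2.2.1).card))) := by
        refine P.E_mono fun w hw => ?_
        have h1 := iota_le_thk okH hw (thk_of_cA T t (fun y hy => hV.cell t w.1 w.2.1 w.2.2.1 (mem_hlf.1 hy).1))
        have h1' : P.ioP et xF xG (bxH hV t).map w ≤ Real.log (1 / al) := by
          unfold FP.ioP
          exact max_le (by linarith) hlog
        beta_reduce
        by_cases h2 : ((hlf D V t w.1 w.2.1 w.2.2.1).card : ℝ) < mu * (V t w.1 w.2.1 w.2.2.1).card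
        · rw [ind_not (not_le.2 h2), ind_of h2, ind_of (tiny_bad' hV hdg hcell hmu h2)]
          linarith
        · rw [ind_of (not_lt.1 h2), ind_not h2]
          linarith
    _ = Real.log (1 / al) * E3 (fun x b c => ind (1 / 2 < |avg (V t x b c) (dg t)|) *
        ind (((hlf D V t x b c).card : ℝ) < mu * (V t x b c).card)) := by
        rw [P.E_smul, hP, ← (D.kp T t).E_pts]
    _ ≤ _ := mul_le_mul_of_nonneg_left (tiny_mass hV hdg hcell hmu0 hmu) hlog

end C3

end

end Pool.Agent.M3.S3
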