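import Pool.Agent.M3.S3.FinA
import Pool.Agent.GMC3.StepY

/-!
# GMC3.SumY: Cor. 3', the sum over all times (helper97)

* `sumY` : `eta P(past K) ≤ E ioP_K + sum of the losses`;
* `finY` : the bound for a rule `R` with saturated classes, same hypotheses as `finA`.
-/

set_option autoImplicit false
set_option linter.unusedSectionVars false
set_option linter.unusedVariables false

namespace Pool.Agent.M3.S3

open Finset Pool.Agent.PWZ Pool.Agent.M3

noncomputable section

namespace C3

section sum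

variable {X β γ ι φ : Type*} [Fintype X] [Fintype β] [Fintype γ] [Fintype φ] [Nonempty X] [Nonempty β] [Nonempty γ]
  {D : Dat X β γ ι φ} {V : ℕ → X → β → γ → Finset X} {al : ℝ}

/-- **optional stopping** -/
theorem sumY (T : D.Thick al) (hV : RefCl D V) {K : ℕ} {prf prg : ℕ → φ → φ}
    (hp : ∀ t < K, ∀ x b c F, D.kf t x b c F = ∑ F', ind (prf t F' = F) * D.kf (t + 1) x b c F')
    (hq : ∀ t < K, ∀ x b c G, D.kg t x b c G = ∑ G', ind (prg t G' = G) * D.kg (t + 1) x b c G')
    {et : ℝ} (he : 0 < et) {err : ℕ → ℝ}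
    (hstep : ∀ t < K, ∀ h : Sp X β γ φ → ℝ, (∀ w, 0 ≤ h w) → (∀ w, h w ≤ 1) →
      (∀ x x' b c F G, x' ∈ V t x b c → h (x', b, c, F, G) = h (x, b, c, F, G)) →
      (D.kp T t).P.E (fun w => h w * (D.kp T t).P.ioP et xF xG (bxU hV t).map w) ≤
        (D.kp T (t + 1)).P.E (fun w => h (prj (prf t) (prg t) w) *
          (D.kp T (t + 1)).P.ioP et xF xG (bxU hV (t + 1)).map w) + err t) :
    et * (D.kp T K).P.E (fun w => ind (past T V prf prg et K w)) ≤
      (D.kp T K).P.E ((D.kp T K).P.ioP et xF xG (bxU hV K).map) + ∑ t ∈ range K, err t := by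
  have okN : ∀ t, (bxU hV t).Ok (D.kp T t) := fun t => bxA_ok T hV t t t le_rfl le_rfl
  have hhit : ∀ t w, hit T V et t w → et ≤ (D.kp T t).P.ioP et xF xG (bxU hV t).map w := by
    intro t w hw
    unfold FP.ioP
    rw [iota_FG _ (okN t)]
    refine le_trans ?_ (le_max_left _ _)
    unfold hit at hw
    show et ≤ io (D.kp T t) (V t w.1 w.2.1 w.2.2.1) w.2.1 w.2.2.1 w.2.2.2.1 w.2.2.2.2 - et
    linarith
  have main : ∀ m ≤ K, et * (D.kp T m).P.E (fun w => ind (past T V prf prg et m w)) ≤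
      (D.kp T m).P.E (fun w => ind (past T V prf prg et m w) *
        (D.kp T m).P.ioP et xF xG (bxU hV m).map w) + ∑ t ∈ range m, err t := by
    intro m
    induction m with
    | zero =>
      intro _
      rw [Finset.sum_range_zero, add_zero, ← FP.E_smul]
      refine FP.E_mono _ fun w _ => ?_
      by_cases h : past T V prf prg et 0 w
      · rw [ind_of h, mul_one, one_mul]
        exact hhit 0 w h
      · rw [ind_not h]; simp
    | succ m ih =>
      intro hm
      have hm' : m < K := hm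
      have h1 := ih hm'.le
      have h2 := hstep m hm' (fun w => ind (past T V prf prg et m w)) (fun w => ind_nonneg _) (fun w => ind_le_one _)
        (fun x x' b c F G hx => congrArg ind (propext (past_cls T hV prf prg et m x x' b c F G hx)))
      have h3 := E_push (D.kp T m) (D.kp T (m + 1)) (prf m) (prg m) (hp m hm') (hq m hm')
        (fun w => ind (past T V prf prg et m w))
      rw [Finset.sum_range_succ]
      have h4 : et * (D.kp T (m + 1)).P.E (fun w => ind (past T V prf prg et (m + 1) w)) +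
          (D.kp T (m + 1)).P.E (fun w => ind (past T V prf prg et m (prj (prf m) (prg m) w)) *
            (D.kp T (m + 1)).P.ioP et xF xG (bxU hV (m + 1)).map w) ≤
          et * (D.kp T (m + 1)).P.E (fun w => ind (past T V prf prg et m (prj (prf m) (prg m) w))) +
          (D.kp T (m + 1)).P.E (fun w => ind (past T V prf prg et (m + 1) w) *
            (D.kp T (m + 1)).P.ioP et xF xG (bxU hV (m + 1)).map w) := by
        rw [← FP.E_smul, ← FP.E_smul, ← FP.E_add, ← FP.E_add]
        refine FP.E_mono _ fun w _ => ?_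
        have hn : 0 ≤ (D.kp T (m + 1)).P.ioP et xF xG (bxU hV (m + 1)).map w := FP.ioP_nonneg _ _ _ _ _ _
        by_cases ha : past T V prf prg et m (prj (prf m) (prg m) w)
        · have hb : past T V prf prg et (m + 1) w := Or.inr ha
          rw [ind_of ha, ind_of hb]
        · by_cases hb : past T V prf prg et (m + 1) w
          · have hc : hit T V et (m + 1) w := hb.resolve_right ha
            rw [ind_not ha, ind_of hb]
            have := hhit (m + 1) w hc
            linarith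
          · rw [ind_not ha, ind_not hb]
      rw [h3] at h4
      beta_reduce at h2 h4
      linarith
  refine (main K le_rfl).trans ?_
  refine add_le_add ?_ le_rfl
  refine FP.E_mono _ fun w _ => ?_
  exact mul_le_of_le_one_left (FP.ioP_nonneg _ _ _ _ _ _) (ind_le_one _)

end sum

section fin

variable {X β γ ι φ : Type} [Fintype X] [Fintype β] [Fintype γ] [Fintype φ] [Nonempty X] [Nonempty β] [Nonempty γ]
  {D : Dat X β γ ι φ} {al : ℝ}

/-- **THE SUM**, same hypotheses as `finA` -/
theorem finY (T : D.Thick al) (ha1 : al ≤ 1) (R : Rl D) {dg : ℕ → X → ℝ} {K : ℕ} {prf prg : ℕ → φ → φ} {Lam : ℝ}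
    (H : Hyp3 D dg prf prg al K Lam) (hBi : Birth D K Lam)
    {sg sgh mu B eta L0 del q l : ℝ} (hsg : 0 < sg) (hsgh : sg ≤ sgh) (hmu : 0 < mu) (hmu1 : mu ≤ 1 / 4)
    (hB : Real.exp 2 ≤ B) (heta : 0 < eta) (hBe : 2 * Real.exp 1 ≤ B * eta) (hdel : 0 ≤ del)
    (hS : ∀ s ≤ K, ∀ x b c, SatS (D.kp T s) (R.U s x b c) (D.cB s b) (D.cC s c) b c sg)
    (hSh : ∀ s < K, ∀ x b c, ntn R mu s x b c →
      SatS (D.kp T s) (hcl R s x b c) (D.cB (s + 1) b) (D.cC (s + 1) c) b c sgh)
    {BD BG HB AF AG BE : ℝ}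
    (hBD : ∑ s ∈ range K, E3 (fun x b c => ind (1 / 2 < |avg (R.U s x b c) (dg s)|)) ≤ BD)
    (hBG : ∑ s ∈ range K, E3 (fun x b c => ind (bgc R L0 s x b c)) ≤ BG)
    (hHB : ∑ s ∈ range K, E3 (fun x b c =>
      ind (2 * ((R.U (s + 1) x b c).card : ℝ) ≤ (hcl R s x b c).card)) ≤ HB)
    (hAF : ∑ s ∈ range K, E3 (fun x b c => ind (ffF R q l s x b c) * Pst T del R s x b c) ≤ AF)
    (hAG : ∑ s ∈ range K, E3 (fun x b c => ind (ffG R q l s x b c) * Pst T del R s x b c) ≤ AG)
    (hBE : ∑ s ∈ range K, E3 (fun x b c => ind (ntn R mu s x b c ∧ bgc R L0 s x b c ∧ ¬ ffF R q l s x b c ∧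
        ¬ ffG R q l s x b c) * Pst T del R s x b c) ≤ BE) {et : ℝ} (het : 0 < et) (het1 : et ≤ 1) :
    et * (D.kp T K).P.E (fun w => ind (past T R.U prf prg et K w)) ≤
      6 / et * (sg * (Real.log (1 / al) + 1)) +
      (2 / et * (4 * kd (sgh * (Real.log (1 / al) + 1)) * B * Lam +
        kd (sgh * (Real.log (1 / al) + 1)) * (mu * BD + BG)) +
      1 / et * ((Real.log (1 / al) * (mu * BD) + Real.log (1 / al) * (eta * (2 / Real.log B) * (2 * Lam) +
          Real.exp (Real.log (1 / mu) + 1 - eta / (2 * sg)) * BD)) +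
        (del * BG + AF + AG + BE + Real.log (1 / al) * (eta * (2 / Real.log B) * (2 * Lam) +
          Real.exp (L0 + 1 - eta / (2 * sgh)) * HB))) +
      Real.log (1 / al) * (mu * BD)) := by
  set hV := U_refCl R with hVd
  have hsgh0 : 0 < sgh := hsg.trans_le hsgh
  have hla : 0 ≤ Real.log (1 / al) := Real.log_nonneg (by
    rw [le_div_iff₀ T.pos, one_mul]; exact ha1)
  set d := sgh * (Real.log (1 / al) + 1) with hd
  have hd0 : 0 ≤ d := by positivity
  have hkd := kd_nonneg hd0
  have hB0 : 0 ≤ B := (Real.exp_pos 2).le.trans hB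
  -- closeness
  have c0 : ∀ t < K, ∀ w, (D.kp T t).P.p w ≠ 0 → (D.kp T t).P.hel xF (bxU hV t).map xG w ≤ d ∧
      (D.kp T t).P.hel xG (bxU hV t).map xF w ≤ d := by
    intro t ht w hw
    have h1 := hel_le_sat (bxA_ok T hV t t t le_rfl le_rfl) hw hsg.le
      (hS t ht.le w.1 w.2.1 w.2.2.1) (FA.thk_of T (hV.cell t w.1 w.2.1 w.2.2.1))
    have h2 : sg * (Real.log (1 / al) + 1) ≤ d := mul_le_mul_of_nonneg_right hsgh (by linarith)
    exact ⟨h1.1.trans h2, h1.2.trans h2⟩
  have c2 : ∀ t < K, ∀ w, (D.kp T t).P.p w ≠ 0 → thA R mu t w ≠ 0 →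
      (D.kp T t).P.hel xF (bxH hV t).map xG w ≤ d ∧ (D.kp T t).P.hel xG (bxH hV t).map xF w ≤ d := by
    intro t ht w hw hne
    have h0 := hSh t ht w.1 w.2.1 w.2.2.1 (thA_ne hne)
    rw [← hlf_U] at h0
    exact hel_le_sat (bxB_ok T hV t (t + 1) t (Nat.le_succ t) (Nat.le_succ t)) hw hsgh0.le h0
      (FA.thk_of T (x := w.1) (fun y hy => hV.cell t w.1 w.2.1 w.2.2.1 (mem_hlf.1 hy).1))
  have hTb : ∀ (t : ℕ) (u v : Sp X β γ φ), (bxh hV t).map u = (bxh hV t).map v →
      ((((hlf D R.U t u.1 u.2.1 u.2.2.1).card : ℝ) < mu * (R.U t u.1 u.2.1 u.2.2.1).card) ↔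
        (((hlf D R.U t v.1 v.2.1 v.2.2.1).card : ℝ) < mu * (R.U t v.1 v.2.1 v.2.2.1).card)) := by
    intro t u v h
    have h1 := Bx.map_eq.1 h
    have hx : u.1 ∈ hcl R t v.1 v.2.1 v.2.2.1 := by
      rw [← hlf_U]; exact h1.1
    rw [hlf_U, hlf_U, FA.hcl_eq hx h1.2.1 h1.2.2, FA.U_eq ((mem_hcl R).1 hx).1 h1.2.1 h1.2.2]
  have hTc : ∀ (t : ℕ) (u v : Sp X β γ φ), (bxU hV (t + 1)).map u = (bxU hV (t + 1)).map v →
      ((Real.exp L0 * ((R.U (t + 1) u.1 u.2.1 u.2.2.1).card : ℝ) ≤ (hlf D R.U t u.1 u.2.1 u.2.2.1).card) ↔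
        (Real.exp L0 * ((R.U (t + 1) v.1 v.2.1 v.2.2.1).card : ℝ) ≤ (hlf D R.U t v.1 v.2.1 v.2.2.1).card)) := by
    intro t u v h
    have h1 := Bx.map_eq.1 h
    rw [hlf_U, hlf_U]
    exact FA.bgc_inv (L0 := L0) h1.1 h1.2.1 h1.2.2
  set Tb : ℕ → Sp X β γ φ → Prop := fun t w =>
    ((hlf D R.U t w.1 w.2.1 w.2.2.1).card : ℝ) < mu * (R.U t w.1 w.2.1 w.2.2.1).card with hTbd
  set Tc : ℕ → Sp X β γ φ → Prop := fun t w =>
    Real.exp L0 * ((R.U (t + 1) w.1 w.2.1 w.2.2.1).card : ℝ) ≤ (hlf D R.U t w.1 w.2.1 w.2.2.1).card with hTcd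
  set err : ℕ → ℝ := fun t => 2 / et * (2 * kd d * B * gainD T hV t + kd d * (D.kp T t).P.E (fun w => ind (Tb t w))) +
      2 / et * (2 * kd d * B * gainC T hV t + kd d * (D.kp T t).P.E (fun w => thA R mu t w * ind (Tc t w))) +
      1 / et * (lossDY T hV et B (Tb t) t + lossCY T hV et B (thA R mu t) (Tc t) t) +
        lossTY T hV et (thA R mu t) t with herr
  have main := sumY T hV (K := K) H.kf_pr H.kg_pr het (err := err) (fun t ht h h0 h1 hc => by
    have h2 := stepY T hV (H.kf_pr t ht) (H.kg_pr t ht) (θ := thA R mu t) (thA_fac t) (fun w => ind_nonneg _)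
      (fun w => ind_le_one _) hB hd0 hd0 (fun w hw => (c0 t ht w hw).1) (fun w hw => (c0 t ht w hw).2)
      (fun w hw hne => (c2 t ht w hw hne).1) (fun w hw hne => (c2 t ht w hw hne).2)
      (Tb := Tb t) (Tc := Tc t) (hTb t) (hTc t) het het1 h0 h1 hc
    rw [herr]
    beta_reduce
    linarith)
  -- the end
  have hend := (D.kp T K).P.ioP_end xF xG (bxU hV K).map het het1
  have hMK := MK_le T hV K hsg.le (hS K le_rfl)
  have hE : (D.kp T K).P.E ((D.kp T K).P.ioP et xF xG (bxU hV K).map) ≤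
      6 / et * (sg * (Real.log (1 / al) + 1)) :=
    hend.trans (mul_le_mul_of_nonneg_left hMK (by positivity))
  -- the gains
  have hG := gains_le T hV hBi
  have gD0 : 0 ≤ ∑ t ∈ range K, gainD T hV t := Finset.sum_nonneg fun t _ => gainD_nonneg T hV t
  have gC0 : 0 ≤ ∑ t ∈ range K, gainC T hV t := Finset.sum_nonneg fun t _ => gainC_nonneg T hV t
  have hlB : 0 < Real.log B := Real.log_pos (lt_of_lt_of_le (by
    have := Real.add_one_le_exp (2 : ℝ)
    linarith) hB)
  have he2 : 0 ≤ eta * (2 / Real.log B) := by positivity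
  have pG : ∀ t, (D.kp T t).P.E ((D.kp T t).P.iota xF (bxh hV t).map (bxU hV t).map) ≤ gainD T hV t := by
    intro t
    have h2 : 0 ≤ (D.kp T t).P.E ((D.kp T t).P.iota xG (bxh hV t).map (bxU hV t).map) := by
      rw [FP.E_iota]; exact FP.I_nonneg _ _ _ _
    unfold gainD
    linarith
  have pC : ∀ t, (D.kp T t).P.E ((D.kp T t).P.iota xF (bxU hV (t + 1)).map (bxH hV t).map) ≤ gainC T hV t := by
    intro t
    have h2 : 0 ≤ (D.kp T t).P.E ((D.kp T t).P.iota xG (bxU hV (t + 1)).map (bxH hV t).map) := by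
      rw [FP.E_iota]; exact FP.I_nonneg _ _ _ _
    unfold gainC
    linarith
  -- probability of the tiny half step states
  have qT : ∑ t ∈ range K, (D.kp T t).P.E (fun w => ind (Tb t w)) ≤ mu * BD := by
    refine le_trans (Finset.sum_le_sum fun t ht => ?_) (le_trans (le_of_eq (Finset.mul_sum _ _ _).symm)
      (mul_le_mul_of_nonneg_left hBD hmu.le))
    have ht' := Finset.mem_range.1 ht
    have h1 : (D.kp T t).P.E (fun w => ind (Tb t w)) ≤ E3 (fun x b c => ind (1 / 2 < |avg (R.U t x b c) (dg t)|) *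
        ind (((hlf D R.U t x b c).card : ℝ) < mu * (R.U t x b c).card)) := by
      rw [← (D.kp T t).E_pts]
      refine FP.E_mono _ fun w _ => ?_
      by_cases h2 : ((hlf D R.U t w.1 w.2.1 w.2.2.1).card : ℝ) < mu * (R.U t w.1 w.2.1 w.2.2.1).card
      · show ind _ ≤ ind _ * ind _
        rw [ind_of h2, ind_of (tiny_bad' hV (H.dg_val t) (H.dg_cell t ht') hmu1 h2), one_mul]
      · show ind _ ≤ ind _ * ind _
        rw [ind_not h2, mul_zero]
    exact h1.trans (tiny_mass hV (H.dg_val t) (H.dg_cell t ht') hmu.le hmu1)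
  have qC : ∑ t ∈ range K, (D.kp T t).P.E (fun w => thA R mu t w * ind (Tc t w)) ≤ BG := by
    refine le_trans (Finset.sum_le_sum fun t _ => ?_) hBG
    rw [← (D.kp T t).E_pts]
    refine FP.E_mono _ fun w _ => ?_
    have h1 : thA R mu t w * ind (Tc t w) ≤ ind (Tc t w) := mul_le_of_le_one_left (ind_nonneg _) (ind_le_one _)
    refine h1.trans (le_of_eq (congrArg ind ?_))
    show (Real.exp L0 * ((R.U (t + 1) w.1 w.2.1 w.2.2.1).card : ℝ) ≤ (hlf D R.U t w.1 w.2.1 w.2.2.1).card) = _
    rw [hlf_U]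
    rfl
  -- the losses
  have lD : ∑ t ∈ range K, lossDY T hV et B (Tb t) t ≤
      Real.log (1 / al) * (eta * (2 / Real.log B) * (2 * Lam)) +
      Real.log (1 / al) * (mu + Real.exp (Real.log (1 / mu) + 1 - eta / (2 * sg))) * BD := by
    have h1 : ∀ t ∈ range K, lossDY T hV et B (Tb t) t ≤
        Real.log (1 / al) * (eta * (2 / Real.log B)) * gainD T hV t +
        Real.log (1 / al) * (mu + Real.exp (Real.log (1 / mu) + 1 - eta / (2 * sg))) *
          E3 (fun x b c => ind (1 / 2 < |avg (R.U t x b c) (dg t)|)) := by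
      intro t ht
      have ht' := Finset.mem_range.1 ht
      refine (lossDY_le T hV (H.dg_val t) (H.dg_cell t ht') hmu hmu1 hB heta hBe hsg het
        (fun x b c _ => hS t ht'.le x b c)).trans ?_
      refine add_le_add ?_ le_rfl
      rw [mul_assoc (Real.log (1 / al)) (eta * (2 / Real.log B)) (gainD T hV t)]
      exact mul_le_mul_of_nonneg_left (mul_le_mul_of_nonneg_left (pG t) he2) hla
    refine (Finset.sum_le_sum h1).trans ?_
    rw [Finset.sum_add_distrib, ← Finset.mul_sum, ← Finset.mul_sum]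
    refine add_le_add ?_ ?_
    · rw [mul_assoc]
      exact mul_le_mul_of_nonneg_left (mul_le_mul_of_nonneg_left (by linarith) he2) hla
    · exact mul_le_mul_of_nonneg_left hBD (mul_nonneg hla (add_nonneg hmu.le (Real.exp_pos _).le))
  have lT : ∑ t ∈ range K, lossTY T hV et (thA R mu t) t ≤ Real.log (1 / al) * (mu * BD) := by
    have h1 : ∀ t ∈ range K, lossTY T hV et (thA R mu t) t ≤
        Real.log (1 / al) * mu * E3 (fun x b c => ind (1 / 2 < |avg (R.U t x b c) (dg t)|)) := by
      intro t ht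
      have ht' := Finset.mem_range.1 ht
      rw [mul_assoc]
      exact lossTY_le T hV (H.dg_val t) (H.dg_cell t ht') hmu.le hmu1 het
    refine (Finset.sum_le_sum h1).trans ?_
    rw [← Finset.mul_sum, ← mul_assoc]
    exact mul_le_mul_of_nonneg_left hBD (mul_nonneg hla hmu.le)
  have lC : ∑ t ∈ range K, lossCY T hV et B (thA R mu t) (Tc t) t ≤
      (del * BG + AF + AG + BE) + Real.log (1 / al) * (eta * (2 / Real.log B) * (2 * Lam) +
        Real.exp (L0 + 1 - eta / (2 * sgh)) * HB) := by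
    have h1 : ∀ t ∈ range K, lossCY T hV et B (thA R mu t) (Tc t) t ≤
        E3 (fun x b c => ind (ntn R mu t x b c) * (ind (bgc R L0 t x b c) * (del + Pst T del R t x b c))) +
        (Real.log (1 / al) * (eta * (2 / Real.log B)) * gainC T hV t +
          Real.log (1 / al) * Real.exp (L0 + 1 - eta / (2 * sgh)) *
            E3 (fun x b c => ind (2 * ((R.U (t + 1) x b c).card : ℝ) ≤ (hcl R t x b c).card))) := by
      intro t ht
      have ht' := Finset.mem_range.1 ht
      refine (lossCY_le T hV (mu := mu) (L0 := L0) (del := del) hB heta hBe hsgh0 het hdel (fun x b c h => ?_)).trans ?_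
      · rw [hlf_U] at h ⊢
        exact hSh t ht' x b c h
      · refine add_le_add (le_of_eq ?_) ?_
        · refine E3_congr fun x b c => ?_
          rw [hlf_U]
          rfl
        · simp only [hlf_U]
          rw [mul_add]
          refine add_le_add ?_ (le_of_eq (by ring))
          rw [mul_assoc (Real.log (1 / al)) (eta * (2 / Real.log B)) (gainC T hV t)]
          exact mul_le_mul_of_nonneg_left (mul_le_mul_of_nonneg_left (pC t) he2) hla
    refine (Finset.sum_le_sum h1).trans ?_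
    rw [Finset.sum_add_distrib, Finset.sum_add_distrib, ← Finset.mul_sum, ← Finset.mul_sum, mul_add]
    refine add_le_add ?_ (add_le_add ?_ ?_)
    · refine (cut_le T R q l mu L0 hdel K).trans ?_
      have := mul_le_mul_of_nonneg_left hBG hdel
      linarith
    · rw [mul_assoc]
      exact mul_le_mul_of_nonneg_left (mul_le_mul_of_nonneg_left (by linarith) he2) hla
    · rw [mul_assoc]
      exact mul_le_mul_of_nonneg_left (mul_le_mul_of_nonneg_left hHB (Real.exp_pos _).le) hla
  -- the sum of the errors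
  have hsum : ∑ t ∈ range K, err t =
      2 / et * (2 * kd d * B * (∑ t ∈ range K, gainD T hV t + ∑ t ∈ range K, gainC T hV t) +
        kd d * (∑ t ∈ range K, (D.kp T t).P.E (fun w => ind (Tb t w)) +
          ∑ t ∈ range K, (D.kp T t).P.E (fun w => thA R mu t w * ind (Tc t w)))) +
      1 / et * (∑ t ∈ range K, lossDY T hV et B (Tb t) t + ∑ t ∈ range K, lossCY T hV et B (thA R mu t) (Tc t) t) +
      ∑ t ∈ range K, lossTY T hV et (thA R mu t) t := by
    rw [herr]
    simp only [Finset.sum_add_distrib, ← Finset.mul_sum]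
    ring
  rw [hsum] at main
  have k1 : 2 / et * (2 * kd d * B * (∑ t ∈ range K, gainD T hV t + ∑ t ∈ range K, gainC T hV t) +
        kd d * (∑ t ∈ range K, (D.kp T t).P.E (fun w => ind (Tb t w)) +
          ∑ t ∈ range K, (D.kp T t).P.E (fun w => thA R mu t w * ind (Tc t w)))) ≤
      2 / et * (4 * kd d * B * Lam + kd d * (mu * BD + BG)) := by
    refine mul_le_mul_of_nonneg_left ?_ (by positivity)
    have a1 := mul_le_mul_of_nonneg_left hG (by positivity : 0 ≤ 2 * kd d * B)
    have a2 := mul_le_mul_of_nonneg_left (add_le_add qT qC) hkd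
    linarith
  have k2 : 1 / et * (∑ t ∈ range K, lossDY T hV et B (Tb t) t +
      ∑ t ∈ range K, lossCY T hV et B (thA R mu t) (Tc t) t) ≤
      1 / et * ((Real.log (1 / al) * (mu * BD) + Real.log (1 / al) * (eta * (2 / Real.log B) * (2 * Lam) +
          Real.exp (Real.log (1 / mu) + 1 - eta / (2 * sg)) * BD)) +
        (del * BG + AF + AG + BE + Real.log (1 / al) * (eta * (2 / Real.log B) * (2 * Lam) +
          Real.exp (L0 + 1 - eta / (2 * sgh)) * HB))) := by
    refine mul_le_mul_of_nonneg_left ?_ (by positivity)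
    refine add_le_add (lD.trans (le_of_eq (by ring))) lC
  linarith

end fin

end C3

end

end Pool.Agent.M3.S3
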