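import Pool.Agent.M3.S3.EndA
import Pool.Agent.GMC3.SumY

/-!
# GMC3.Cor3P: Theorem 3 with closeness at ALL times (Cor. 3') (helper97)

`cor3P` : one family of classes `U` with the conclusion of Theorem 3 (`Concl3`), with the bound `bits` of its entropy, and
such that the density of the two labels on the class of the true point is at least `2 et` at some time `≤ K` only with
probability `C Lam^C n^(-1/40) / et^2` (`past`: the labels of earlier times are functions of the labels of the time `K`).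
-/

set_option autoImplicit false
set_option linter.unusedSectionVars false

namespace Pool.Agent.M3.S3

open Finset Pool.Agent.PWZ Pool.Agent.M3

noncomputable section

namespace PA

section num

variable {Lam n : ℝ}

theorem mu_BD_le (h : Big Lam n) {BD : ℝ} (hBD : BD ≤ 100 * n * Lam) : mu Lam n * BD ≤ 100 * (x n)⁻¹ ^ 1000 := by
  have hL1 := h.Lam1
  have hL0 : 0 < Lam := by linarith
  have hE1 := E_ge1 h
  have hLE := Lam_le_exp h
  have hnE := n_le_exp h
  have hEn := E_neg h (show 3 + 1 ≤ 50 by norm_num)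
  have hmuE : mu Lam n = (Real.exp (lg Lam n))⁻¹ ^ 50 := by
    unfold mu
    rw [Real.exp_neg, show (50 : ℝ) = ((50 : ℕ) : ℝ) by norm_num, exp_mul_lg, inv_pow]
  rw [hmuE]
  set E := Real.exp (lg Lam n) with hE
  have hE0 : 0 < E := Real.exp_pos _
  have h1 : BD ≤ 100 * (E * E) := by
    have : n * Lam ≤ E * E := mul_le_mul hnE hLE hL0.le hE0.le
    linarith
  have h2 : E⁻¹ ^ 50 * BD ≤ E⁻¹ ^ 50 * (100 * (E * E)) := mul_le_mul_of_nonneg_left h1 (by positivity)
  have h3 : E⁻¹ ^ 50 * (100 * (E * E)) ≤ 100 * (E ^ 3 * E⁻¹ ^ 50) := by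
    have h4 : E * E ≤ E ^ 3 := by
      have : E * E = E ^ 2 := by ring
      rw [this]
      exact pow_le_pow_right₀ hE1 (by norm_num)
    have h5 : 0 ≤ E⁻¹ ^ 50 := by positivity
    nlinarith [mul_le_mul_of_nonneg_left h4 h5]
  linarith

theorem kd_leY (h : Big Lam n) : kd (sgh Lam n * (Lam + 1)) ≤ 2000 * (x n)⁻¹ ^ 498 := by
  have hu := u_pos h
  have hL1 := h.Lam1
  have hup : ∀ k : ℕ, 0 < (x n)⁻¹ ^ k := fun k => pow_pos hu k
  have hd := d_le h
  have h1 : Real.sqrt (sgh Lam n * (Lam + 1)) ≤ 640 * (x n)⁻¹ ^ 498 := by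
    rw [Real.sqrt_le_left (by positivity)]
    refine hd.trans ?_
    have : (640 * (x n)⁻¹ ^ 498) ^ 2 = 409600 * (x n)⁻¹ ^ 996 := by ring
    rw [this]
    linarith [hup 996]
  unfold kd
  have g1 := absorb h (c := 400000) (two_pow_le (m := 19) (by norm_num) (by norm_num)) (show 498 + 1 ≤ 996 by norm_num)
  linarith [hup 498]

/-- the right side of `finY` with the parameters of route A -/
theorem finalY (h : Big Lam n) {BD BG HB AF AG BE et : ℝ} (hBD : BD ≤ 100 * n * Lam) (hBG : BG ≤ 4 * n * Lam / L0 n)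
    (hHB : HB ≤ 8 * n * Lam) (hAF : AF ≤ (x n)⁻¹ ^ 27) (hAG : AG ≤ (x n)⁻¹ ^ 27) (hBE : BE ≤ (x n)⁻¹ ^ 27)
    (hBD0 : 0 ≤ BD) (hBG0 : 0 ≤ BG) (hHB0 : 0 ≤ HB) (hAF0 : 0 ≤ AF) (hAG0 : 0 ≤ AG) (hBE0 : 0 ≤ BE)
    (het : 0 < et) (het1 : et ≤ 1) :
    6 / et * (sg Lam n * (Real.log (1 / al Lam) + 1)) +
      (2 / et * (4 * kd (sgh Lam n * (Real.log (1 / al Lam) + 1)) * B n * Lam +
        kd (sgh Lam n * (Real.log (1 / al Lam) + 1)) * (mu Lam n * BD + BG)) +
      1 / et * ((Real.log (1 / al Lam) * (mu Lam n * BD) + Real.log (1 / al Lam) *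
          (eta n * (2 / Real.log (B n)) * (2 * Lam) +
          Real.exp (Real.log (1 / mu Lam n) + 1 - eta n / (2 * sg Lam n)) * BD)) +
        (del n * BG + AF + AG + BE + Real.log (1 / al Lam) * (eta n * (2 / Real.log (B n)) * (2 * Lam) +
          Real.exp (L0 n + 1 - eta n / (2 * sgh Lam n)) * HB))) +
      Real.log (1 / al Lam) * (mu Lam n * BD)) ≤ 1 / et * (40 * Lam ^ 2 * (x n)⁻¹ ^ 25) := by
  have f := final_le h hBD hBG hHB hAF hAG hBE
  rw [log_al, log_inv_mu]
  have hL1 := h.Lam1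
  have hL0 : 0 < Lam := by linarith
  have hu := u_pos h
  have hup : ∀ k : ℕ, 0 < (x n)⁻¹ ^ k := fun k => pow_pos hu k
  have hlB : 0 < Real.log (B n) := by linarith [log_B_ge h]
  have hsg := sg_pos h
  have hmu : 0 < mu Lam n := mu_pos
  have hd0 : 0 ≤ sgh Lam n * (Lam + 1) := mul_nonneg (sgh_pos h).le (by linarith)
  have hkd := kd_nonneg hd0
  have hkd2 := kd_leY h
  have hB := B_pos h
  have heta := eta_pos h
  have hdel := del_pos h
  set a := sg Lam n * (Lam + 1) with ha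
  set m := Lam * (mu Lam n * BD) with hm
  set L1 := Lam * (eta n * (2 / Real.log (B n)) * (2 * Lam) +
    Real.exp (50 * lg Lam n + 1 - eta n / (2 * sg Lam n)) * BD) with hL1d
  set L2 := Lam * (eta n * (2 / Real.log (B n)) * (2 * Lam) + Real.exp (L0 n + 1 - eta n / (2 * sgh Lam n)) * HB)
    with hL2d
  set k := kd (sgh Lam n * (Lam + 1)) with hk
  have a0 : 0 ≤ a := by positivity
  have m0 : 0 ≤ m := by positivity
  have L10 : 0 ≤ L1 := by positivity
  have L20 : 0 ≤ L2 := by positivity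
  have db0 : 0 ≤ del n * BG := mul_nonneg hdel.le hBG0
  have bk0 : 0 ≤ 4 * B n * k * Lam := by positivity
  -- the new term
  have hnew : 2 * (k * (mu Lam n * BD + BG)) ≤ Lam ^ 2 * (x n)⁻¹ ^ 25 := by
    have h1 := mu_BD_le h hBD
    have h2 : BG ≤ 4 * x n ^ 151 := by
      have h7 : x n ^ 1001 * (x n)⁻¹ ^ 850 = x n ^ 151 := by
        have hx := h.x_pos
        rw [show x n ^ 1001 = x n ^ 151 * x n ^ 850 by rw [← pow_add], mul_assoc, inv_pow,
          mul_inv_cancel₀ (by positivity), mul_one]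
      refine hBG.trans ?_
      unfold L0
      rw [div_eq_mul_inv, ← inv_pow, ← h7]
      have := nLam_le h
      calc 4 * n * Lam * (x n)⁻¹ ^ 850 ≤ 4 * x n ^ 1001 * (x n)⁻¹ ^ 850 :=
            mul_le_mul_of_nonneg_right (by linarith) (by positivity)
        _ = _ := by ring
    have h3 : mu Lam n * BD + BG ≤ 104 * x n ^ 151 := by
      have h4 : (x n)⁻¹ ^ 1000 ≤ 1 := pow_le_one₀ hu.le (u_le_one h)
      have h5 : 1 ≤ x n ^ 151 := one_le_pow₀ h.x_ge1
      linarith
    have h4 : 0 ≤ mu Lam n * BD + BG := by positivity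
    have h5 : k * (mu Lam n * BD + BG) ≤ (2000 * (x n)⁻¹ ^ 498) * (104 * x n ^ 151) :=
      mul_le_mul hkd2 h3 h4 (by positivity)
    have h6 : x n ^ 151 * (x n)⁻¹ ^ 498 = (x n)⁻¹ ^ 347 := xu h (by norm_num)
    have h7 : (2000 * (x n)⁻¹ ^ 498) * (104 * x n ^ 151) = 208000 * (x n)⁻¹ ^ 347 := by
      rw [← h6]; ring
    rw [h7] at h5
    have h8 := absorb h (c := 416000) (two_pow_le (m := 19) (by norm_num) (by norm_num)) (show 25 + 1 ≤ 347 by norm_num)
    have h9 : (x n)⁻¹ ^ 25 ≤ Lam ^ 2 * (x n)⁻¹ ^ 25 := by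
      have : (1 : ℝ) ≤ Lam ^ 2 := one_le_pow₀ hL1
      nlinarith [hup 25]
    linarith
  -- sum
  have e1 : 6 / et * a + (2 / et * (4 * k * B n * Lam + k * (mu Lam n * BD + BG)) +
      1 / et * ((m + L1) + (del n * BG + AF + AG + BE + L2)) + m) ≤
      1 / et * (6 * a + 2 * (4 * k * B n * Lam) + 2 * (k * (mu Lam n * BD + BG)) + (m + L1) +
        (del n * BG + AF + AG + BE + L2) + m) := by
    have h1 : m ≤ 1 / et * m := by
      have : 1 ≤ 1 / et := by rw [le_div_iff₀ het, one_mul]; exact het1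
      nlinarith
    have h2 : 1 / et * (6 * a + 2 * (4 * k * B n * Lam) + 2 * (k * (mu Lam n * BD + BG)) + (m + L1) +
        (del n * BG + AF + AG + BE + L2) + m) = 6 / et * a + (2 / et * (4 * k * B n * Lam +
        k * (mu Lam n * BD + BG)) + 1 / et * ((m + L1) + (del n * BG + AF + AG + BE + L2)) + 1 / et * m) := by
      ring
    rw [h2]
    linarith
  refine e1.trans (mul_le_mul_of_nonneg_left ?_ (by positivity))
  have e2 : 4 * k * B n * Lam = 4 * B n * k * Lam := by ring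
  rw [e2]
  have h25 : 0 < Lam ^ 2 * (x n)⁻¹ ^ 25 := by positivity
  nlinarith

end num

end PA

namespace C3

section concl

variable {X β γ ι φ : Type} [Fintype X] [Fintype β] [Fintype γ] [Fintype φ] [Nonempty X] [Nonempty β] [Nonempty γ]

/-- the conclusion of Theorem 3 with the entropy of the classes and closeness at all times -/
structure Concl3P {D : Dat X β γ ι φ} {al : ℝ} (T : D.Thick al) (dg : ℕ → X → ℝ) (prf prg : ℕ → φ → φ) (K : ℕ)
    (Lam n κ : ℝ) (C : ℕ) (U : ℕ → X → β → γ → Finset X) : Prop where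
  base : Concl3 T dg K Lam n κ C U
  /-- entropy of the classes -/
  bits : E3 (fun x b c => Real.log (((D.cA 0 x).card : ℝ) / (U 0 x b c).card)) +
    ∑ t ∈ range K, E3 (fun x b c => Real.log (((hlf D U t x b c).card : ℝ) / (U (t + 1) x b c).card)) ≤
      (C : ℝ) * n * Lam ^ C
  /-- the pair of labels is close to independent on the class of the true point, at all times -/
  all : ∀ et : ℝ, 0 < et → et ≤ 1 → (D.kp T K).P.E (fun w => ind (past T U prf prg et K w)) ≤
    (C : ℝ) * Lam ^ C * n ^ (-κ) / et ^ 2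

/-- the event `past` for the law with thickness `T` does not depend on the constant of `T` -/
theorem past_thick {D : Dat X β γ ι φ} {al al' : ℝ} (T : D.Thick al) (T' : D.Thick al')
    (U : ℕ → X → β → γ → Finset X) (prf prg : ℕ → φ → φ) (et : ℝ) (t : ℕ) :
    past T U prf prg et t = past T' U prf prg et t := by
  induction t with
  | zero => rfl
  | succ t ih =>
    funext w
    show (hit T U et (t + 1) w ∨ past T U prf prg et t _) = (hit T' U et (t + 1) w ∨ past T' U prf prg et t _)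
    rw [ih]
    rfl

theorem past_frz {D : Dat X β γ ι φ} {al : ℝ} (T : D.Thick al) {K : ℕ} {U : ℕ → X → β → γ → Finset X}
    (hU : RefCl (D.frz K) U) (prf prg : ℕ → φ → φ) (et : ℝ) (t : ℕ) (ht : t ≤ K) :
    past (frz_thick T K) U prf prg et t = past T (unfrz D K U) prf prg et t := by
  have hh : ∀ s ≤ K, hit (frz_thick T K) U et s = hit T (unfrz D K U) et s := by
    intro s hs
    funext w
    unfold hit
    rw [kp_frz T hs, unfrz_le hU hs]
  induction t with
  | zero => exact hh 0 ht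
  | succ t ih =>
    funext w
    show (hit (frz_thick T K) U et (t + 1) w ∨ past (frz_thick T K) U prf prg et t _) =
      (hit T (unfrz D K U) et (t + 1) w ∨ past T (unfrz D K U) prf prg et t _)
    rw [ih (by omega), hh (t + 1) ht]

/-- the conclusion for the frozen data gives the conclusion for the data -/
theorem concl3P_unfrz {D : Dat X β γ ι φ} {al : ℝ} (T : D.Thick al) {dg : ℕ → X → ℝ} {prf prg : ℕ → φ → φ} {K : ℕ}
    {Lam n κ : ℝ} {C : ℕ} {U : ℕ → X → β → γ → Finset X}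
    (h : Concl3P (frz_thick T K) dg prf prg K Lam n κ C U) : Concl3P T dg prf prg K Lam n κ C (unfrz D K U) := by
  classical
  refine ⟨concl3_unfrz T h.base, ?_, ?_⟩
  · refine le_trans (le_of_eq ?_) h.bits
    have e0 : (D.frz K).cA 0 = D.cA 0 := by rw [frz_cA, min_eq_left (Nat.zero_le K)]
    rw [e0, unfrz_le h.base.ref (Nat.zero_le K)]
    refine congrArg (fun z => E3 (fun x b c => Real.log (((D.cA 0 x).card : ℝ) / (U 0 x b c).card)) + z)
      (Finset.sum_congr rfl fun t ht => ?_)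
    have ht' := Finset.mem_range.1 ht
    have e1 : ∀ x b c, hlf D (unfrz D K U) t x b c = hlf (D.frz K) U t x b c := by
      intro x b c
      ext y
      rw [mem_hlf, mem_hlf, unfrz_le h.base.ref (by omega : t ≤ K), frz_qa (by omega : t + 1 ≤ K)]
    simp only [e1, unfrz_le h.base.ref (by omega : t + 1 ≤ K)]
  · intro et het het1
    have h1 := h.all et het het1
    rw [past_frz T h.base.ref prf prg et K le_rfl, kp_frz T le_rfl] at h1
    exact h1

/-- **route A with all times** -/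
theorem endP_of [DecidableEq φ] {D : Dat X β γ ι φ} {Lam n : ℝ} {K : ℕ} {dg : ℕ → X → ℝ} (h : PA.Big Lam n)
    {prf prg : ℕ → φ → φ} {al : ℝ} (T0 : D.Thick al) (H : Hyp3 D dg prf prg al K Lam) (P : Proj D)
    (T : D.Thick (PA.al Lam))
    (hAF : ∑ s ∈ range K, E3 (fun x b c => ind (ffF (EA.RA D Lam n) (PA.q n) (PA.l n) s x b c) *
      Pst T (PA.del n) (EA.RA D Lam n) s x b c) ≤ (PA.x n)⁻¹ ^ 27)
    (hAG : ∑ s ∈ range K, E3 (fun x b c => ind (ffG (EA.RA D Lam n) (PA.q n) (PA.l n) s x b c) *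
      Pst T (PA.del n) (EA.RA D Lam n) s x b c) ≤ (PA.x n)⁻¹ ^ 27)
    (hBE : ∑ s ∈ range K, E3 (fun x b c => ind (ntn (EA.RA D Lam n) (PA.mu Lam n) s x b c ∧
      bgc (EA.RA D Lam n) (PA.L0 n) s x b c ∧ ¬ ffF (EA.RA D Lam n) (PA.q n) (PA.l n) s x b c ∧
        ¬ ffG (EA.RA D Lam n) (PA.q n) (PA.l n) s x b c) * Pst T (PA.del n) (EA.RA D Lam n) s x b c) ≤
          (PA.x n)⁻¹ ^ 27) :
    Concl3P T0 dg prf prg K Lam n (1 / 40) 1000000 (EA.RA D Lam n).U := by
  have hA := hyp_all T0 H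
  have hL1 := h.Lam1
  have hL0 : 0 < Lam := by linarith
  have hn := h.n_pos
  have hLn : 0 ≤ n * Lam := by positivity
  have H' : Hyp3 D dg prf prg (PA.al Lam) K Lam := { H with alL := le_rfl }
  have hb0 : E3 (fun x b c => Real.log (((D.cA 0 x).card : ℝ) / ((EA.RA D Lam n).U 0 x b c).card)) +
      bits (EA.RA D Lam n) K ≤ 4 * n * Lam := B0.hv_bits0 T P v2_tst v2_con (PA.cnum h) hA.birth
  have hb : bits (EA.RA D Lam n) K ≤ 4 * n * Lam := bits_le T P v2_tst v2_con (PA.cnum h) hA.birth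
  have hLp1 : Lam ≤ Lam ^ 1000000 := le_self_pow₀ hL1 (by norm_num)
  have hbd := EA.bd_le (K := K) (EA.RA D Lam n) H.dg_val H.dg_cell H.dg_bal
  have hbg := EA.bg_le h hb
  have hhb := B0.two_le (EA.RA D Lam n) K
  have i0 : ∀ (p : ℕ → X → β → γ → Prop), 0 ≤ ∑ s ∈ range K, E3 (fun x b c => ind (p s x b c)) := fun p =>
    Finset.sum_nonneg fun s _ => by
      have h1 := E3_mono (f := fun (_ : X) (_ : β) (_ : γ) => (0 : ℝ)) (g := fun x b c => ind (p s x b c))
        (fun x b c => ind_nonneg _)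
      rwa [E3_const] at h1
  refine ⟨EA.endA_of h T0 H P T hAF hAG hBE, ?_, ?_⟩
  · rw [EA.sum_hlf]
    have h2 : n * Lam ≤ n * Lam ^ 1000000 := mul_le_mul_of_nonneg_left hLp1 hn.le
    push_cast
    linarith
  · intro et het het1
    have key := finY T (PA.al_le_one h) (EA.RA D Lam n) H' hA.birth (PA.sg_pos h) (PA.sg_le_sgh h) PA.mu_pos
      (PA.mu_le h) (PA.B_ge h) (PA.eta_pos h) (PA.B_eta h) (PA.del_pos h).le (L0 := PA.L0 n) (q := PA.q n)
      (l := PA.l n)
      (fun s _ x b c => SA.sat_PA h T hA.upd s x b c)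
      (fun s hs x b c hnt => by
        have h1 := SA.sat_half T (EA.RA D Lam n) (PA.sg_pos h).le PA.mu_pos (SA.sat_PA h T hA.upd s x b c)
          (EA.cB_half H hs b) (EA.cC_half H hs c) hnt
        rw [SA.hlf_hcl, PA.sgH_eq] at h1
        exact h1)
      hbd hbg hhb hAF hAG hBE het het1
    have hBD0 := (i0 (fun s x b c => 1 / 2 < |avg ((EA.RA D Lam n).U s x b c) (dg s)|)).trans hbd
    have hBG0 := (i0 (fun s x b c => bgc (EA.RA D Lam n) (PA.L0 n) s x b c)).trans hbg
    have hHB0 := (i0 (fun s x b c => 2 * (((EA.RA D Lam n).U (s + 1) x b c).card : ℝ) ≤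
      (hcl (EA.RA D Lam n) s x b c).card)).trans hhb
    have hu27 : 0 ≤ (PA.x n)⁻¹ ^ 27 := (pow_pos (PA.u_pos h) _).le
    have fin := PA.finalY h (BD := 8 * (E3 (fun x b c => Real.log (((D.cA 0 x).card : ℝ) /
        ((EA.RA D Lam n).U 0 x b c).card)) + bits (EA.RA D Lam n) K)) (BG := 4 * n * Lam / PA.L0 n)
      (HB := 2 * bits (EA.RA D Lam n) K) (by linarith) le_rfl (by linarith) le_rfl le_rfl le_rfl
      hBD0 hBG0 hHB0 hu27 hu27 hu27 het het1
    have h1 := key.trans fin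
    have hE : (D.kp T K).P = (D.kp T0 K).P := rfl
    rw [past_thick T0 T, ← hE]
    set p := (D.kp T K).P.E (fun w => ind (past T (EA.RA D Lam n).U prf prg et K w)) with hp
    rw [PA.n_rpow h]
    have hu : 0 < (PA.x n)⁻¹ ^ 25 := pow_pos (PA.u_pos h) _
    have h2 : p ≤ 40 * Lam ^ 2 * (PA.x n)⁻¹ ^ 25 / et ^ 2 := by
      rw [le_div_iff₀ (by positivity)]
      have h3 : et * p ≤ 40 * Lam ^ 2 * (PA.x n)⁻¹ ^ 25 / et := by
        refine h1.trans (le_of_eq ?_)
        ring
      rw [le_div_iff₀ het] at h3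
      linarith
    refine h2.trans (div_le_div_of_nonneg_right ?_ (by positivity))
    have h4 : Lam ^ 2 ≤ Lam ^ 1000000 := pow_le_pow_right₀ hL1 (by norm_num)
    refine mul_le_mul_of_nonneg_right ?_ hu.le
    have h5 : 0 < Lam ^ 1000000 := by positivity
    push_cast
    linarith

end concl

/-- **THEOREM 3 WITH CLOSENESS AT ALL TIMES** -/
def Thm3P (κ : ℝ) : Prop :=
  ∃ C : ℕ, ∀ (X β γ ι φ : Type) [Fintype X] [Fintype β] [Fintype γ] [Fintype φ] [Nonempty X] [Nonempty β] [Nonempty γ]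
    (D : Dat X β γ ι φ) (al : ℝ) (T : D.Thick al) (dg : ℕ → X → ℝ) (prf prg : ℕ → φ → φ) (K : ℕ) (Lam n : ℝ),
    Hyp3 D dg prf prg al K Lam → (2 * Lam) ^ C ≤ n →
    ∃ U : ℕ → X → β → γ → Finset X, Concl3P T dg prf prg K Lam n κ C U

theorem cor3P : Thm3P (1 / 40) := by
  classical
  refine ⟨1000000, ?_⟩
  intro X β γ ι φ _ _ _ _ _ _ _ D0 al T0 dg prf prg K Lam n H0 hn
  set D := D0.frz K with hD
  have H : Hyp3 D dg prf prg al K Lam := frz_hyp3 H0
  have P : Proj D := projFrz H0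
  have Tf : D.Thick al := frz_thick T0 K
  have h : PA.Big Lam n := ⟨H0.Lam1, hn⟩
  have hA := hyp_all Tf H
  have T : D.Thick (PA.al Lam) := Tf.mono PA.al_pos H.alL
  refine ⟨unfrz D0 K (EA.RA D Lam n).U, concl3P_unfrz T0 ?_⟩
  exact endP_of h Tf H P T
    (PA.AF_le h T P hA.upd (Real.exp_pos _).le le_rfl hA.birth)
    (PA.AG_le h T P hA.upd (Real.exp_pos _).le le_rfl hA.birth)
    (PA.BE_le h T P hA.upd (Real.exp_pos _).le le_rfl hA.birth (fun s hs b => EA.cB_half H hs b)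
      (fun s hs c => EA.cC_half H hs c))

end C3

end

end Pool.Agent.M3.S3
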