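import Pool.Agent.M3.S3KeyF

/-!
# GMC3.TabY: Cor. 3' (closeness at all times), one partition, table form (helper97)

`yy eta a b = a * max (log (a / b) - eta) 0`.
* `yy_le_kk` : `yy eta a b ≤ (2 e / eta) kk a b`;
* `Tab.basicY` : one pair of letters;
* `Tab.keyY` : the loss of the mean of `(log (J / UV) - eta)^+` under a partition, with a weight `h` depending on the pair.
-/

set_option autoImplicit false
set_option linter.unusedSectionVars false

namespace Pool.Agent.M3

open Finset Pool.Agent.PWZ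

noncomputable section

/-- positive part of the density above `eta`, weighted -/
def yy (eta a b : ℝ) : ℝ := a * max (Real.log (a / b) - eta) 0

theorem yy_nonneg {eta a b : ℝ} (ha : 0 ≤ a) : 0 ≤ yy eta a b := mul_nonneg ha (le_max_right _ _)

/-- `e^s (s - 1) + 1 ≥ s^2 / 2` for `s ≥ 0` -/
theorem exp_quad {s : ℝ} (hs : 0 ≤ s) : s ^ 2 / 2 ≤ Real.exp s * (s - 1) + 1 := by
  -- from `e^(-s) ≤ 1 - s + s^2/2` we get ... direct: f s = e^s (s-1) + 1 - s^2/2, f' = s (e^s - 1) ≥ 0
  have hmono : MonotoneOn (fun s : ℝ => Real.exp s * (s - 1) + 1 - s ^ 2 / 2) (Set.Ici 0) := by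
    refine monotoneOn_of_deriv_nonneg (convex_Ici 0) ?_ ?_ ?_
    · fun_prop
    · intro x _
      have hd : DifferentiableAt ℝ (fun s : ℝ => Real.exp s * (s - 1) + 1 - s ^ 2 / 2) x := by fun_prop
      exact hd.differentiableWithinAt
    · intro x hx
      rw [interior_Ici] at hx
      have hx0 : (0 : ℝ) < x := hx
      have hd : HasDerivAt (fun s : ℝ => Real.exp s * (s - 1) + 1 - s ^ 2 / 2)
          (Real.exp x * (x - 1) + Real.exp x * 1 - (2 * x ^ (2 - 1) * 1) / 2) x := by
        have h1 : HasDerivAt (fun s : ℝ => Real.exp s * (s - 1)) (Real.exp x * (x - 1) + Real.exp x * 1) x :=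
          (Real.hasDerivAt_exp x).mul ((hasDerivAt_id x).sub_const 1)
        have h2 : HasDerivAt (fun s : ℝ => s ^ 2 / 2) ((2 * x ^ (2 - 1) * 1) / 2) x := by
          have := ((hasDerivAt_id x).pow 2).div_const 2
          simpa using this
        exact (h1.add_const 1).sub h2
      rw [hd.deriv]
      have h3 : 1 ≤ Real.exp x := Real.one_le_exp hx0.le
      norm_num
      nlinarith
  have h := hmono (Set.mem_Ici.2 le_rfl) (Set.mem_Ici.2 hs) hs
  simp at h
  linarith

/-- the final estimate -/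
theorem yy_le_kk {eta a b : ℝ} (he : 0 < eta) (he1 : eta ≤ 1) (ha : 0 ≤ a) (hb : 0 ≤ b) (h0 : b = 0 → a = 0) :
    yy eta a b ≤ 6 / eta * kk a b := by
  have hk := kk_nonneg ha hb h0
  have h6 : 0 ≤ 6 / eta * kk a b := mul_nonneg (by positivity) hk
  rcases ha.eq_or_lt with h | ha'
  · unfold yy
    rw [← h, zero_mul]
    rw [← h] at h6
    exact h6
  have hb' : 0 < b := lt_of_le_of_ne hb (fun h => ha'.ne' (h0 h.symm))
  by_cases hL : Real.log (a / b) ≤ eta
  · unfold yy
    rw [max_eq_right (by linarith), mul_zero]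
    exact h6
  · set s := Real.log (a / b) with hs
    have hs0 : eta < s := not_le.1 hL
    have hsp : 0 < s := he.trans hs0
    have hab : a = b * Real.exp s := by
      rw [hs, Real.exp_log (div_pos ha' hb')]
      field_simp
    have hkk : kk a b = b * (Real.exp s * (s - 1) + 1) := by
      unfold kk
      rw [← hs]
      calc a * s - a + b = a * (s - 1) + b := by ring
        _ = b * Real.exp s * (s - 1) + b := by rw [← hab]
        _ = _ := by ring
    unfold yy
    rw [← hs, max_eq_left (by linarith), hkk]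
    have hq := exp_quad hsp.le
    -- `e^s (s - eta) ≤ (6 / eta) (e^s (s-1) + 1)`
    have key : Real.exp s * (s - eta) ≤ 6 / eta * (Real.exp s * (s - 1) + 1) := by
      by_cases h1 : s ≤ 1
      · have h2 : Real.exp s ≤ 3 := by
          have := Real.exp_le_exp.2 h1
          have h3 := Real.exp_one_lt_d9
          linarith
        have h4 : Real.exp s * (s - eta) ≤ 3 * s := by
          have : 0 ≤ s - eta := by linarith
          nlinarith [Real.exp_pos s]
        have h5 : 3 * s ≤ 6 / eta * (s ^ 2 / 2) := by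
          have : 6 / eta * (s ^ 2 / 2) = 3 * s * (s / eta) := by field_simp; ring
          rw [this]
          have h7 : 1 ≤ s / eta := by rw [le_div_iff₀ he]; linarith
          nlinarith
        have h6' : 6 / eta * (s ^ 2 / 2) ≤ 6 / eta * (Real.exp s * (s - 1) + 1) :=
          mul_le_mul_of_nonneg_left hq (by positivity)
        linarith
      · have h1' : 1 < s := not_le.1 h1
        -- `e^s s ≤ 3 (e^s (s-1) + 1)` since `e^s (2 s - 3) + 3 ≥ 0`
        have h2 : Real.exp s * s ≤ 3 * (Real.exp s * (s - 1) + 1) := by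
          have h3 : 0 ≤ Real.exp s * (2 * s - 3) + 3 := by
            by_cases h4 : 3 ≤ 2 * s
            · have := mul_nonneg (Real.exp_pos s).le (by linarith : (0 : ℝ) ≤ 2 * s - 3)
              linarith
            · -- s in (1, 3/2): e^s (2s-3) + 3, use e^s (s-1) + 1 >= s^2/2 : e^s <= ...
              -- `e^s (3 - 2 s) ≤ 3` : e^(s) = e * e^(s-1), e^(s-1) ≤ 1/(1-(s-1)) = 1/(2-s)
              have h5 : s < 3 / 2 := by linarith
              have h6 : Real.exp (s - 1) ≤ 1 / (2 - s) := by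
                have h7 := Real.add_one_le_exp (-(s - 1))
                have h8 : 0 < 2 - s := by linarith
                rw [Real.exp_neg] at h7
                have h9 : 2 - s ≤ (Real.exp (s - 1))⁻¹ := by linarith
                rw [one_div]
                have h10 := inv_anti₀ h8 h9
                rwa [inv_inv] at h10
              have h7 : Real.exp s = Real.exp 1 * Real.exp (s - 1) := by
                rw [← Real.exp_add]; congr 1; ring
              have h8 : 0 < 2 - s := by linarith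
              have h9 : Real.exp s * (3 - 2 * s) ≤ 3 * (1 / (2 - s)) * (3 - 2 * s) := by
                refine mul_le_mul_of_nonneg_right ?_ (by linarith)
                rw [h7]
                have h10 := Real.exp_one_lt_d9
                exact mul_le_mul (by linarith) h6 (Real.exp_pos _).le (by norm_num)
              have h11 : 3 * (1 / (2 - s)) * (3 - 2 * s) ≤ 3 := by
                rw [mul_one_div, div_mul_eq_mul_div, div_le_iff₀ h8]
                nlinarith
              linarith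
          linarith
        have h3 : Real.exp s * (s - eta) ≤ Real.exp s * s := by
          have := Real.exp_pos s
          nlinarith
        have h4 : 0 ≤ Real.exp s * (s - 1) + 1 := by
          have : 0 ≤ s ^ 2 / 2 := by positivity
          linarith
        have h5 : 3 * (Real.exp s * (s - 1) + 1) ≤ 6 / eta * (Real.exp s * (s - 1) + 1) := by
          refine mul_le_mul_of_nonneg_right ?_ h4
          rw [le_div_iff₀ he]
          linarith
        linarith
    calc a * (s - eta) = b * (Real.exp s * (s - eta)) := by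
          calc a * (s - eta) = b * Real.exp s * (s - eta) := by rw [← hab]
            _ = _ := by ring
      _ ≤ b * (6 / eta * (Real.exp s * (s - 1) + 1)) := mul_le_mul_of_nonneg_left key hb'.le
      _ = _ := by ring

namespace Tab

variable {κ ι ζ : Type*} {SX : Finset κ} {SY : Finset ι} {SZ : Finset ζ} (t : Tab SX SY SZ)

/-- one pair of letters -/
theorem basicY {x : κ} {y : ι} (hx : x ∈ SX) (hy : y ∈ SY) (Gd : ζ → Prop) {eta : ℝ}
    (hL : eta < Real.log (t.J x y / (t.U x * t.V y))) :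
    yy eta (t.J x y) (t.U x * t.V y) - ∑ z ∈ SZ, yy eta (t.j x y z) (t.u x z * t.v y z / t.p z) ≤
      ∑ z ∈ SZ, ind (¬ Gd z) * (t.j x y z * (Real.log (t.J x y / (t.U x * t.V y)) - eta + 1)) +
        t.J x y * (∑ z ∈ SZ, ind (Gd z) * (t.u x z * t.v y z / t.p z / (t.U x * t.V y)) - 1) := by
  set UV := t.U x * t.V y with hUV
  set L := Real.log (t.J x y / UV) with hLd
  have hUV0 : 0 ≤ UV := mul_nonneg (t.U_nn hx) (t.V_nn hy)
  rcases hUV0.eq_or_lt with h0 | h0
  · have hJ : t.J x y = 0 := t.J_zero hx hy h0.symm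
    have hj : ∀ z ∈ SZ, t.j x y z = 0 := fun z hz =>
      le_antisymm (hJ ▸ t.j_le_J hx hy hz) (t.nn _ _ _)
    have h1 : ∑ z ∈ SZ, yy eta (t.j x y z) (t.u x z * t.v y z / t.p z) = 0 :=
      Finset.sum_eq_zero (fun z hz => by unfold yy; rw [hj z hz, zero_mul])
    have h2 : ∑ z ∈ SZ, ind (¬ Gd z) * (t.j x y z * (L - eta + 1)) = 0 :=
      Finset.sum_eq_zero (fun z hz => by rw [hj z hz]; ring)
    rw [h1, h2, hJ]
    unfold yy
    simp
  · rcases (t.J_nn hx hy).eq_or_lt with hJ | hJ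
    · have hj : ∀ z ∈ SZ, t.j x y z = 0 := fun z hz =>
        le_antisymm (hJ ▸ t.j_le_J hx hy hz) (t.nn _ _ _)
      have h1 : ∑ z ∈ SZ, yy eta (t.j x y z) (t.u x z * t.v y z / t.p z) = 0 :=
        Finset.sum_eq_zero (fun z hz => by unfold yy; rw [hj z hz, zero_mul])
      have h2 : ∑ z ∈ SZ, ind (¬ Gd z) * (t.j x y z * (L - eta + 1)) = 0 :=
        Finset.sum_eq_zero (fun z hz => by rw [hj z hz]; ring)
      rw [h1, h2, ← hJ]
      unfold yy
      simp
    -- every good cell: tangent at `rho = J / UV`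
    set r := t.J x y / UV with hr
    have hr0 : 0 < r := div_pos hJ h0
    have hcell : ∀ z ∈ SZ, ind (Gd z) * (t.j x y z * (L - eta + 1) - r * (t.u x z * t.v y z / t.p z)) ≤
        yy eta (t.j x y z) (t.u x z * t.v y z / t.p z) := by
      intro z hz
      have hy0 : 0 ≤ yy eta (t.j x y z) (t.u x z * t.v y z / t.p z) := yy_nonneg (t.nn _ _ _)
      by_cases hG : Gd z
      · rw [ind_of hG, one_mul]
        set b := t.u x z * t.v y z / t.p z with hb
        have hb0 : 0 ≤ b := t.uvp_nn hx hy hz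
        rcases (t.nn x y z).eq_or_lt with hj | hj
        · rw [← hj] at hy0 ⊢
          have : 0 ≤ r * b := mul_nonneg hr0.le hb0
          linarith
        · have hb1 : b ≠ 0 := fun h => hj.ne' (t.j_zero hx hy hz h)
          have h3 := kk_nonneg (a := t.j x y z) (b := r * b) (t.nn _ _ _) (mul_nonneg hr0.le hb0)
            (fun h => t.j_zero hx hy hz ((mul_eq_zero.1 h).resolve_left hr0.ne'))
          have e2 : Real.log (t.j x y z / (r * b)) = Real.log (t.j x y z / b) - L := by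
            rw [mul_comm r b, ← div_div, Real.log_div (div_ne_zero hj.ne' hb1) hr0.ne']
          unfold kk at h3
          rw [e2] at h3
          have h4 : t.j x y z * (Real.log (t.j x y z / b) - eta) ≤ yy eta (t.j x y z) b :=
            mul_le_mul_of_nonneg_left (le_max_left _ _) hj.le
          nlinarith
      · rw [ind_not hG, zero_mul]; exact hy0
    have hsum := Finset.sum_le_sum hcell
    have e3 : ∑ z ∈ SZ, ind (Gd z) * (t.j x y z * (L - eta + 1) - r * (t.u x z * t.v y z / t.p z)) =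
        (L - eta + 1) * ∑ z ∈ SZ, ind (Gd z) * t.j x y z -
          t.J x y * ∑ z ∈ SZ, ind (Gd z) * (t.u x z * t.v y z / t.p z / UV) := by
      rw [Finset.mul_sum, Finset.mul_sum, ← Finset.sum_sub_distrib]
      refine Finset.sum_congr rfl (fun z _ => ?_)
      rw [hr]
      field_simp
    have e4 : ∑ z ∈ SZ, ind (¬ Gd z) * (t.j x y z * (L - eta + 1)) =
        (L - eta + 1) * (t.J x y - ∑ z ∈ SZ, ind (Gd z) * t.j x y z) := by
      rw [← t.jJ x hx y hy, ← Finset.sum_sub_distrib, Finset.mul_sum]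
      refine Finset.sum_congr rfl (fun z _ => ?_)
      rw [FP.ind_not_eq]; ring
    rw [e3] at hsum
    rw [e4]
    have e5 : yy eta (t.J x y) UV = t.J x y * (L - eta) := by
      unfold yy
      rw [max_eq_left (by linarith)]
    rw [e5]
    nlinarith

/-- the covariance terms of one cell in absolute value -/
theorem cell_abs {B d : ℝ} (hB : Real.exp 2 ≤ B) (hd : 0 ≤ d)
    (hx : ∀ x ∈ SX, ∑ y ∈ SY, (Real.sqrt (t.J x y) - Real.sqrt (t.U x * t.V y)) ^ 2 ≤ d * t.U x)
    (hy : ∀ y ∈ SY, ∑ x ∈ SX, (Real.sqrt (t.J x y) - Real.sqrt (t.U x * t.V y)) ^ 2 ≤ d * t.V y)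
    (X : κ → ℝ) (Y : ι → ℝ) (hX0 : ∀ x ∈ SX, 0 ≤ X x) (hY0 : ∀ y ∈ SY, 0 ≤ Y y) :
    ∑ x ∈ SX, ∑ y ∈ SY, |t.J x y - t.U x * t.V y| *
      |(hwk B (X x) - 1) * (hwk B (Y y) - 1) + hsg B (X x) * (hwk B (Y y) - 1) + (hwk B (X x) - 1) * hsg B (Y y)| ≤
      2 * kd d * B * (∑ x ∈ SX, t.U x * hphi (X x) + ∑ y ∈ SY, t.V y * hphi (Y y)) := by
  have hB1 : 1 ≤ B := by
    have := Real.add_one_le_exp 2
    linarith
  have hkd := kd_nonneg hd
  set K : ℝ := ∑ x ∈ SX, t.U x * hphi (X x) with hK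
  set K' : ℝ := ∑ y ∈ SY, t.V y * hphi (Y y) with hK'
  have hK0 : 0 ≤ K := Finset.sum_nonneg (fun x hx => mul_nonneg (t.U_nn hx) (hphi_nonneg (hX0 x hx)))
  have hK'0 : 0 ≤ K' := Finset.sum_nonneg (fun y hy => mul_nonneg (t.V_nn hy) (hphi_nonneg (hY0 y hy)))
  have c1 := cov_abs (fun x hx y hy => t.J_nn hx hy) (fun x hx => t.U_nn hx) (fun y hy => t.V_nn hy) t.U1 hd
    hx hy (fun x => hwk B (X x) - 1) (fun y => hwk B (Y y) - 1)
  have c2 := cov_abs1 (fun x hx y hy => t.J_nn hx hy) (fun x hx => t.U_nn hx) (fun y hy => t.V_nn hy) t.V1 hd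
    hx (fun x => hsg B (X x)) (k := fun y => hwk B (Y y) - 1) (K := B)
    (fun y hy => abs_wk_sub_le hB (hY0 y hy)) (by linarith)
  have c3 := cov_abs1 (SX := SY) (SY := SX) (J := fun y x => t.J x y) (fun y hy x hx => t.J_nn hx hy)
    (fun y hy => t.V_nn hy) (fun x hx => t.U_nn hx) t.U1 hd
    (fun y hyy => by
      refine le_trans (le_of_eq (Finset.sum_congr rfl (fun x _ => ?_))) (hy y hyy)
      rw [mul_comm (t.V y) (t.U x)])
    (fun y => hsg B (Y y)) (k := fun x => hwk B (X x) - 1) (K := B)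
    (fun x hx => abs_wk_sub_le hB (hX0 x hx)) (by linarith)
  -- second moments
  have m1 : ∑ x ∈ SX, t.U x * (hwk B (X x) - 1) ^ 2 ≤ 2 * B * K := by
    rw [hK, Finset.mul_sum]
    refine Finset.sum_le_sum (fun x hx => ?_)
    calc _ ≤ t.U x * (2 * B * hphi (X x)) :=
          mul_le_mul_of_nonneg_left (wk_sub_sq_le hB (hX0 x hx)) (t.U_nn hx)
      _ = _ := by ring
  have m2 : ∑ y ∈ SY, t.V y * (hwk B (Y y) - 1) ^ 2 ≤ 2 * B * K' := by
    rw [hK', Finset.mul_sum]
    refine Finset.sum_le_sum (fun y hy => ?_)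
    calc _ ≤ t.V y * (2 * B * hphi (Y y)) :=
          mul_le_mul_of_nonneg_left (wk_sub_sq_le hB (hY0 y hy)) (t.V_nn hy)
      _ = _ := by ring
  have m3 : ∑ x ∈ SX, t.U x * |hsg B (X x)| ≤ K := by
    refine Finset.sum_le_sum (fun x hx => mul_le_mul_of_nonneg_left ?_ (t.U_nn hx))
    rw [abs_of_nonneg (hsg_nonneg (hX0 x hx))]
    exact sg_le_hphi hB (hX0 x hx)
  have m4 : ∑ y ∈ SY, t.V y * |hsg B (Y y)| ≤ K' := by
    refine Finset.sum_le_sum (fun y hy => mul_le_mul_of_nonneg_left ?_ (t.V_nn hy))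
    rw [abs_of_nonneg (hsg_nonneg (hY0 y hy))]
    exact sg_le_hphi hB (hY0 y hy)
  have hBK : 0 ≤ 2 * B * K := by positivity
  have hBK' : 0 ≤ 2 * B * K' := by positivity
  have m5 : Real.sqrt (∑ x ∈ SX, t.U x * (hwk B (X x) - 1) ^ 2) *
      Real.sqrt (∑ y ∈ SY, t.V y * (hwk B (Y y) - 1) ^ 2) ≤ B * (K + K') := by
    have a1 := Real.sqrt_le_sqrt m1
    have a2 := Real.sqrt_le_sqrt m2
    have a3 := mul_le_mul a1 a2 (Real.sqrt_nonneg _) (Real.sqrt_nonneg _)
    refine a3.trans ?_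
    have a4 := Real.sq_sqrt hBK
    have a5 := Real.sq_sqrt hBK'
    nlinarith [sq_nonneg (Real.sqrt (2 * B * K) - Real.sqrt (2 * B * K'))]
  have hsplit : ∑ x ∈ SX, ∑ y ∈ SY, |t.J x y - t.U x * t.V y| *
      |(hwk B (X x) - 1) * (hwk B (Y y) - 1) + hsg B (X x) * (hwk B (Y y) - 1) + (hwk B (X x) - 1) * hsg B (Y y)| ≤
      ∑ x ∈ SX, ∑ y ∈ SY, |t.J x y - t.U x * t.V y| * (|hwk B (X x) - 1| * |hwk B (Y y) - 1|) +
      ∑ x ∈ SX, ∑ y ∈ SY, |t.J x y - t.U x * t.V y| * (|hsg B (X x)| * |hwk B (Y y) - 1|) +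
      ∑ y ∈ SY, ∑ x ∈ SX, |t.J x y - t.V y * t.U x| * (|hsg B (Y y)| * |hwk B (X x) - 1|) := by
    rw [Finset.sum_comm (s := SY) (t := SX), ← Finset.sum_add_distrib, ← Finset.sum_add_distrib]
    refine Finset.sum_le_sum (fun x _ => ?_)
    rw [← Finset.sum_add_distrib, ← Finset.sum_add_distrib]
    refine Finset.sum_le_sum (fun y _ => ?_)
    rw [mul_comm (t.V y) (t.U x)]
    set a := t.J x y - t.U x * t.V y
    have b2 : |(hwk B (X x) - 1) * (hwk B (Y y) - 1) + hsg B (X x) * (hwk B (Y y) - 1) +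
        (hwk B (X x) - 1) * hsg B (Y y)| ≤ |hwk B (X x) - 1| * |hwk B (Y y) - 1| +
        |hsg B (X x)| * |hwk B (Y y) - 1| + |hsg B (Y y)| * |hwk B (X x) - 1| := by
      refine (abs_add_le _ _).trans ?_
      refine add_le_add ((abs_add_le _ _).trans (le_of_eq ?_)) (le_of_eq ?_)
      · rw [abs_mul, abs_mul]
      · rw [abs_mul, mul_comm]
    have b3 := mul_le_mul_of_nonneg_left b2 (abs_nonneg a)
    refine b3.trans (le_of_eq ?_)
    ring
  have n1 : kd d * (Real.sqrt (∑ x ∈ SX, t.U x * (hwk B (X x) - 1) ^ 2) *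
      Real.sqrt (∑ y ∈ SY, t.V y * (hwk B (Y y) - 1) ^ 2)) ≤ kd d * (B * (K + K')) :=
    mul_le_mul_of_nonneg_left m5 hkd
  have n2 : kd d * B * ∑ x ∈ SX, t.U x * |hsg B (X x)| ≤ kd d * B * K :=
    mul_le_mul_of_nonneg_left m3 (by positivity)
  have n3 : kd d * B * ∑ y ∈ SY, t.V y * |hsg B (Y y)| ≤ kd d * B * K' :=
    mul_le_mul_of_nonneg_left m4 (by positivity)
  have := hsplit.trans (add_le_add (add_le_add (c1.trans n1) (c2.trans n2)) (c3.trans n3))
  refine this.trans (le_of_eq ?_)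
  ring

/-- KEY for a table, positive part above `eta`, weight `h` of the pair -/
theorem keyY {B d : ℝ} (hB : Real.exp 2 ≤ B) (hd : 0 ≤ d)
    (hx : ∀ x ∈ SX, ∑ y ∈ SY, (Real.sqrt (t.J x y) - Real.sqrt (t.U x * t.V y)) ^ 2 ≤ d * t.U x)
    (hy : ∀ y ∈ SY, ∑ x ∈ SX, (Real.sqrt (t.J x y) - Real.sqrt (t.U x * t.V y)) ^ 2 ≤ d * t.V y)
    (T : ζ → Prop) {eta : ℝ} (he : 0 < eta) (he1 : eta ≤ 1) {h : κ → ι → ℝ} (h0 : ∀ x y, 0 ≤ h x y)
    (h1 : ∀ x y, h x y ≤ 1) :
    ∑ x ∈ SX, ∑ y ∈ SY, h x y * yy eta (t.J x y) (t.U x * t.V y) -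
        ∑ x ∈ SX, ∑ y ∈ SY, ∑ z ∈ SZ, h x y * yy eta (t.j x y z) (t.u x z * t.v y z / t.p z) ≤
      2 / eta * (2 * kd d * B * (∑ z ∈ SZ, ∑ x ∈ SX, kk (t.u x z) (t.p z * t.U x) +
        ∑ z ∈ SZ, ∑ y ∈ SY, kk (t.v y z) (t.p z * t.V y)) + kd d * ∑ z ∈ SZ, ind (T z) * t.p z) +
      ∑ x ∈ SX, ∑ y ∈ SY, ∑ z ∈ SZ,
        ind (¬ (¬ T z ∧ ¬ (B < t.u x z / (t.p z * t.U x) ∧ B < t.v y z / (t.p z * t.V y)))) *
          (t.j x y z * (1 / eta * (ind (eta < Real.log (t.J x y / (t.U x * t.V y))) *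
            Real.log (t.J x y / (t.U x * t.V y))))) := by
  set X : κ → ζ → ℝ := fun x z => t.u x z / (t.p z * t.U x) with hX
  set Y : ι → ζ → ℝ := fun y z => t.v y z / (t.p z * t.V y) with hY
  set Gd : κ → ι → ζ → Prop := fun x y z => ¬ T z ∧ ¬ (B < X x z ∧ B < Y y z) with hGd
  have hB1 : 1 ≤ B := by
    have := Real.add_one_le_exp 2
    linarith
  have hX0 : ∀ x ∈ SX, ∀ z ∈ SZ, 0 ≤ X x z := fun x hx z hz =>
    div_nonneg (t.u_nn hx hz) (mul_nonneg (t.p_nn hz) (t.U_nn hx))
  have hY0 : ∀ y ∈ SY, ∀ z ∈ SZ, 0 ≤ Y y z := fun y hy z hz =>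
    div_nonneg (t.v_nn hy hz) (mul_nonneg (t.p_nn hz) (t.V_nn hy))
  have hkd := kd_nonneg hd
  set PT : ℝ := ∑ z ∈ SZ, ind (T z) * t.p z with hPT
  have hPT0 : 0 ≤ PT := Finset.sum_nonneg fun z hz => mul_nonneg (ind_nonneg _) (t.p_nn hz)
  set q : κ → ι → ζ → ℝ := fun x y z => (hwk B (X x z) - 1) * (hwk B (Y y z) - 1) +
    hsg B (X x z) * (hwk B (Y y z) - 1) + (hwk B (X x z) - 1) * hsg B (Y y z) with hq
  -- `R - 1 ≤ sum p |q| + P(T)`
  have hR : ∀ x ∈ SX, ∀ y ∈ SY,
      ∑ z ∈ SZ, ind (Gd x y z) * (t.u x z * t.v y z / t.p z / (t.U x * t.V y)) - 1 ≤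
        ∑ z ∈ SZ, t.p z * |q x y z| + PT := by
    intro x hxx y hyy
    have h1 : ∀ z ∈ SZ, ind (Gd x y z) * (t.u x z * t.v y z / t.p z / (t.U x * t.V y)) =
        ind (¬ T z) * t.p z * q x y z + (ind (¬ T z) * t.p z * X x z + ind (¬ T z) * t.p z * Y y z -
          ind (¬ T z) * t.p z) := by
      intro z _
      have e1 : t.u x z * t.v y z / t.p z / (t.U x * t.V y) = t.p z * (X x z * Y y z) := by
        show _ = t.p z * (t.u x z / (t.p z * t.U x) * (t.v y z / (t.p z * t.V y)))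
        by_cases hp : t.p z = 0
        · rw [hp]; simp
        · rw [div_mul_div_comm, div_div, ← mul_div_assoc]
          rw [show t.p z * t.U x * (t.p z * t.V y) = t.p z * (t.p z * (t.U x * t.V y)) by ring,
            mul_div_mul_left _ _ hp]
      have e2 : ind (Gd x y z) = ind (¬ T z) * ind (¬ (B < X x z ∧ B < Y y z)) := by
        by_cases a : T z
        · rw [ind_not (fun h : Gd x y z => h.1 a), ind_not (fun h => h a), zero_mul]
        · by_cases b : B < X x z ∧ B < Y y z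
          · have i1 : ind (¬ (B < X x z ∧ B < Y y z)) = 0 := ind_not (fun h => h b)
            rw [ind_not (fun h : Gd x y z => h.2 b), i1, mul_zero]
          · have i1 : ind (¬ (B < X x z ∧ B < Y y z)) = 1 := ind_of b
            have i2 : ind (¬ T z) = 1 := ind_of a
            rw [ind_of (show Gd x y z from ⟨a, b⟩), i1, i2, one_mul]
      rw [e1, e2]
      have e3 := not_ss_eq B (X x z) (Y y z)
      calc ind (¬ T z) * ind (¬ (B < X x z ∧ B < Y y z)) * (t.p z * (X x z * Y y z)) =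
          ind (¬ T z) * t.p z * (ind (¬ (B < X x z ∧ B < Y y z)) * (X x z * Y y z)) := by ring
        _ = _ := by rw [e3]; ring
    rw [Finset.sum_congr rfl h1, Finset.sum_add_distrib, Finset.sum_sub_distrib, Finset.sum_add_distrib]
    have g1 : ∑ z ∈ SZ, ind (¬ T z) * t.p z * q x y z ≤ ∑ z ∈ SZ, t.p z * |q x y z| := by
      refine Finset.sum_le_sum fun z hz => ?_
      have a1 : ind (¬ T z) * t.p z ≤ t.p z := by
        have := mul_le_mul_of_nonneg_right (ind_le_one (¬ T z)) (t.p_nn hz)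
        rwa [one_mul] at this
      have a2 : 0 ≤ ind (¬ T z) * t.p z := mul_nonneg (ind_nonneg _) (t.p_nn hz)
      exact (mul_le_mul_of_nonneg_left (le_abs_self _) a2).trans (mul_le_mul_of_nonneg_right a1 (abs_nonneg _))
    have g2 : ∑ z ∈ SZ, ind (¬ T z) * t.p z * X x z ≤ 1 := by
      have a1 : ∀ z ∈ SZ, ind (¬ T z) * t.p z * X x z ≤ t.u x z / t.U x := by
        intro z hz
        have a2 : t.p z * X x z ≤ t.u x z / t.U x := by
          show t.p z * (t.u x z / (t.p z * t.U x)) ≤ _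
          by_cases hp : t.p z = 0
          · rw [hp, zero_mul]
            exact div_nonneg (t.u_nn hxx hz) (t.U_nn hxx)
          · rw [← mul_div_assoc, mul_div_mul_left _ _ hp]
        have a3 : 0 ≤ t.p z * X x z := mul_nonneg (t.p_nn hz) (hX0 x hxx z hz)
        have a4 := mul_le_mul_of_nonneg_right (ind_le_one (¬ T z)) a3
        rw [one_mul] at a4
        rw [mul_assoc]
        exact a4.trans a2
      refine (Finset.sum_le_sum a1).trans ?_
      rw [← Finset.sum_div, t.uU x hxx]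
      exact div_self_le_one _
    have g3 : ∑ z ∈ SZ, ind (¬ T z) * t.p z * Y y z ≤ 1 := by
      have a1 : ∀ z ∈ SZ, ind (¬ T z) * t.p z * Y y z ≤ t.v y z / t.V y := by
        intro z hz
        have a2 : t.p z * Y y z ≤ t.v y z / t.V y := by
          show t.p z * (t.v y z / (t.p z * t.V y)) ≤ _
          by_cases hp : t.p z = 0
          · rw [hp, zero_mul]
            exact div_nonneg (t.v_nn hyy hz) (t.V_nn hyy)
          · rw [← mul_div_assoc, mul_div_mul_left _ _ hp]
        have a3 : 0 ≤ t.p z * Y y z := mul_nonneg (t.p_nn hz) (hY0 y hyy z hz)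
        have a4 := mul_le_mul_of_nonneg_right (ind_le_one (¬ T z)) a3
        rw [one_mul] at a4
        rw [mul_assoc]
        exact a4.trans a2
      refine (Finset.sum_le_sum a1).trans ?_
      rw [← Finset.sum_div, t.vV y hyy]
      exact div_self_le_one _
    have g4 : ∑ z ∈ SZ, ind (¬ T z) * t.p z = 1 - PT := by
      rw [← t.p1, hPT, ← Finset.sum_sub_distrib]
      refine Finset.sum_congr rfl fun z _ => ?_
      rw [FP.ind_not_eq]; ring
    rw [g4]
    linarith
  -- the covariance terms, cell by cell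
  set K : ζ → ℝ := fun z => ∑ x ∈ SX, t.U x * hphi (X x z) with hK
  set K' : ζ → ℝ := fun z => ∑ y ∈ SY, t.V y * hphi (Y y z) with hK'
  have hcell : ∀ z ∈ SZ, ∑ x ∈ SX, ∑ y ∈ SY, |t.J x y - t.U x * t.V y| * |q x y z| ≤
      2 * kd d * B * (K z + K' z) := fun z hz =>
    t.cell_abs hB hd hx hy (fun x => X x z) (fun y => Y y z) (fun x hxx => hX0 x hxx z hz)
      (fun y hyy => hY0 y hyy z hz)
  have habs : ∑ x ∈ SX, ∑ y ∈ SY, |t.J x y - t.U x * t.V y| ≤ kd d := by
    have c2 := cov_abs1 (fun x hx y hy => t.J_nn hx hy) (fun x hx => t.U_nn hx) (fun y hy => t.V_nn hy) t.V1 hd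
      hx (fun _ => 1) (k := fun _ => 1) (K := 1) (fun y hy => by norm_num) zero_le_one
    simp only [abs_one, mul_one] at c2
    rw [t.U1, mul_one] at c2
    exact c2
  have htot : ∑ x ∈ SX, ∑ y ∈ SY, |t.J x y - t.U x * t.V y| * (∑ z ∈ SZ, t.p z * |q x y z| + PT) ≤
      2 * kd d * B * (∑ z ∈ SZ, t.p z * K z + ∑ z ∈ SZ, t.p z * K' z) + kd d * PT := by
    have e1 : ∑ x ∈ SX, ∑ y ∈ SY, |t.J x y - t.U x * t.V y| * (∑ z ∈ SZ, t.p z * |q x y z| + PT) =
        ∑ z ∈ SZ, t.p z * (∑ x ∈ SX, ∑ y ∈ SY, |t.J x y - t.U x * t.V y| * |q x y z|) +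
          (∑ x ∈ SX, ∑ y ∈ SY, |t.J x y - t.U x * t.V y|) * PT := by
      have a1 : ∀ x y, |t.J x y - t.U x * t.V y| * (∑ z ∈ SZ, t.p z * |q x y z| + PT) =
          ∑ z ∈ SZ, t.p z * (|t.J x y - t.U x * t.V y| * |q x y z|) + |t.J x y - t.U x * t.V y| * PT := by
        intro x y
        rw [mul_add, Finset.mul_sum]
        congr 1
        exact Finset.sum_congr rfl fun z _ => by ring
      simp only [a1, Finset.sum_add_distrib]
      congr 1
      · have h3 : ∀ x ∈ SX, ∑ y ∈ SY, ∑ z ∈ SZ, t.p z * (|t.J x y - t.U x * t.V y| * |q x y z|) =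
            ∑ z ∈ SZ, ∑ y ∈ SY, t.p z * (|t.J x y - t.U x * t.V y| * |q x y z|) := fun x _ => Finset.sum_comm
        rw [Finset.sum_congr rfl h3, Finset.sum_comm]
        refine Finset.sum_congr rfl (fun z _ => ?_)
        rw [Finset.mul_sum]
        exact Finset.sum_congr rfl (fun x _ => by rw [Finset.mul_sum])
      · rw [Finset.sum_mul]
        exact Finset.sum_congr rfl fun x _ => by rw [Finset.sum_mul]
    rw [e1]
    refine add_le_add ?_ (mul_le_mul_of_nonneg_right habs hPT0)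
    rw [← Finset.sum_add_distrib, Finset.mul_sum]
    refine Finset.sum_le_sum (fun z hz => ?_)
    calc _ ≤ t.p z * (2 * kd d * B * (K z + K' z)) := mul_le_mul_of_nonneg_left (hcell z hz) (t.p_nn hz)
      _ = _ := by ring
  have hg1 : ∑ z ∈ SZ, t.p z * K z = ∑ z ∈ SZ, ∑ x ∈ SX, kk (t.u x z) (t.p z * t.U x) := by
    refine Finset.sum_congr rfl (fun z hz => ?_)
    rw [hK, Finset.mul_sum]
    refine Finset.sum_congr rfl (fun x hx => ?_)
    rw [kk_eq (fun h => ?_)]
    · ring
    · rcases mul_eq_zero.1 h with h | h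
      · exact le_antisymm (h ▸ t.u_le_p hx hz) (t.u_nn hx hz)
      · exact le_antisymm (h ▸ t.u_le_U hx hz) (t.u_nn hx hz)
  have hg2 : ∑ z ∈ SZ, t.p z * K' z = ∑ z ∈ SZ, ∑ y ∈ SY, kk (t.v y z) (t.p z * t.V y) := by
    refine Finset.sum_congr rfl (fun z hz => ?_)
    rw [hK', Finset.mul_sum]
    refine Finset.sum_congr rfl (fun y hy => ?_)
    rw [kk_eq (fun h => ?_)]
    · ring
    · rcases mul_eq_zero.1 h with h | h
      · exact le_antisymm (h ▸ t.v_le_p hy hz) (t.v_nn hy hz)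
      · exact le_antisymm (h ▸ t.v_le_V hy hz) (t.v_nn hy hz)
  rw [hg1, hg2] at htot
  -- one pair
  have hpair : ∀ x ∈ SX, ∀ y ∈ SY, h x y * yy eta (t.J x y) (t.U x * t.V y) -
      ∑ z ∈ SZ, h x y * yy eta (t.j x y z) (t.u x z * t.v y z / t.p z) ≤
      2 / eta * (|t.J x y - t.U x * t.V y| * (∑ z ∈ SZ, t.p z * |q x y z| + PT)) +
      ∑ z ∈ SZ, ind (¬ Gd x y z) * (t.j x y z * (1 / eta * (ind (eta < Real.log (t.J x y / (t.U x * t.V y))) *
            Real.log (t.J x y / (t.U x * t.V y))))) := by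
    intro x hxx y hyy
    set L := Real.log (t.J x y / (t.U x * t.V y)) with hLd
    have hsq : 0 ≤ ∑ z ∈ SZ, t.p z * |q x y z| + PT := add_nonneg
      (Finset.sum_nonneg fun z hz => mul_nonneg (t.p_nn hz) (abs_nonneg _)) hPT0
    have hr1 : 0 ≤ 2 / eta * (|t.J x y - t.U x * t.V y| * (∑ z ∈ SZ, t.p z * |q x y z| + PT)) :=
      mul_nonneg (by positivity) (mul_nonneg (abs_nonneg _) hsq)
    have hys : 0 ≤ ∑ z ∈ SZ, h x y * yy eta (t.j x y z) (t.u x z * t.v y z / t.p z) :=
      Finset.sum_nonneg fun z hz => mul_nonneg (h0 x y) (yy_nonneg (t.nn _ _ _))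
    have hb0 : 0 ≤ ∑ z ∈ SZ, ind (¬ Gd x y z) * (t.j x y z * (1 / eta * (ind (eta < L) * L))) := by
      refine Finset.sum_nonneg fun z hz => mul_nonneg (ind_nonneg _) (mul_nonneg (t.nn _ _ _)
        (mul_nonneg (by positivity) ?_))
      by_cases hL : eta < L
      · rw [ind_of hL, one_mul]; linarith
      · rw [ind_not hL, zero_mul]
    by_cases hL : eta < L
    · have hb := t.basicY hxx hyy (Gd x y) hL
      have e1 : h x y * yy eta (t.J x y) (t.U x * t.V y) -
          ∑ z ∈ SZ, h x y * yy eta (t.j x y z) (t.u x z * t.v y z / t.p z) =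
          h x y * (yy eta (t.J x y) (t.U x * t.V y) -
            ∑ z ∈ SZ, yy eta (t.j x y z) (t.u x z * t.v y z / t.p z)) := by
        rw [mul_sub, Finset.mul_sum]
      rw [e1]
      -- the bound without weight
      have hD : yy eta (t.J x y) (t.U x * t.V y) -
            ∑ z ∈ SZ, yy eta (t.j x y z) (t.u x z * t.v y z / t.p z) ≤
          2 / eta * (|t.J x y - t.U x * t.V y| * (∑ z ∈ SZ, t.p z * |q x y z| + PT)) +
          ∑ z ∈ SZ, ind (¬ Gd x y z) * (t.j x y z * (1 / eta * (ind (eta < L) * L))) := by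
        refine hb.trans ?_
        rw [add_comm]
        refine add_le_add ?_ ?_
        · have hJ0 := t.J_nn hxx hyy
          have b1 : t.J x y * (∑ z ∈ SZ, ind (Gd x y z) * (t.u x z * t.v y z / t.p z / (t.U x * t.V y)) - 1) ≤
              t.J x y * (∑ z ∈ SZ, t.p z * |q x y z| + PT) := mul_le_mul_of_nonneg_left (hR x hxx y hyy) hJ0
          have b2 : t.J x y ≤ 2 / eta * |t.J x y - t.U x * t.V y| := by
            rcases hJ0.eq_or_lt with hJ | hJ
            · rw [← hJ]; positivity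
            have hUV0 : 0 ≤ t.U x * t.V y := mul_nonneg (t.U_nn hxx) (t.V_nn hyy)
            have hUV : 0 < t.U x * t.V y := lt_of_le_of_ne hUV0 (fun h => hJ.ne' (t.J_zero hxx hyy h.symm))
            have b3 : t.U x * t.V y = t.J x y * Real.exp (-L) := by
              rw [Real.exp_neg, hLd, Real.exp_log (div_pos hJ hUV)]
              field_simp
            have b4 : Real.exp (-L) ≤ 1 - eta / 2 := by
              have b5 : Real.exp (-L) ≤ Real.exp (-eta) := Real.exp_le_exp.2 (by linarith)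
              have b6 : Real.exp (-eta) ≤ 1 - eta / 2 := by
                have b7 := Real.add_one_le_exp eta
                rw [Real.exp_neg]
                have b8 : (Real.exp eta)⁻¹ ≤ (eta + 1)⁻¹ := inv_anti₀ (by linarith) b7
                refine b8.trans ?_
                rw [inv_le_iff_one_le_mul₀ (by linarith)]
                nlinarith
              exact b5.trans b6
            have b5 : t.J x y * (eta / 2) ≤ |t.J x y - t.U x * t.V y| := by
              refine le_trans ?_ (le_abs_self _)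
              rw [b3]
              nlinarith
            calc t.J x y = 2 / eta * (t.J x y * (eta / 2)) := by field_simp
              _ ≤ _ := mul_le_mul_of_nonneg_left b5 (by positivity)
          refine b1.trans ?_
          calc t.J x y * (∑ z ∈ SZ, t.p z * |q x y z| + PT) ≤
              (2 / eta * |t.J x y - t.U x * t.V y|) * (∑ z ∈ SZ, t.p z * |q x y z| + PT) :=
                mul_le_mul_of_nonneg_right b2 hsq
            _ = _ := by ring
        · refine Finset.sum_le_sum fun z hz => mul_le_mul_of_nonneg_left ?_ (ind_nonneg _)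
          refine mul_le_mul_of_nonneg_left ?_ (t.nn _ _ _)
          rw [ind_of hL, one_mul, one_div, ← div_eq_inv_mul, le_div_iff₀ he]
          nlinarith
      have hRHS : 0 ≤ 2 / eta * (|t.J x y - t.U x * t.V y| * (∑ z ∈ SZ, t.p z * |q x y z| + PT)) +
          ∑ z ∈ SZ, ind (¬ Gd x y z) * (t.j x y z * (1 / eta * (ind (eta < L) * L))) := add_nonneg hr1 hb0
      calc h x y * (yy eta (t.J x y) (t.U x * t.V y) -
            ∑ z ∈ SZ, yy eta (t.j x y z) (t.u x z * t.v y z / t.p z)) ≤ h x y * (2 / eta *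
            (|t.J x y - t.U x * t.V y| * (∑ z ∈ SZ, t.p z * |q x y z| + PT)) +
          ∑ z ∈ SZ, ind (¬ Gd x y z) * (t.j x y z * (1 / eta * (ind (eta < L) * L)))) :=
            mul_le_mul_of_nonneg_left hD (h0 x y)
        _ ≤ 1 * (2 / eta *
            (|t.J x y - t.U x * t.V y| * (∑ z ∈ SZ, t.p z * |q x y z| + PT)) +
          ∑ z ∈ SZ, ind (¬ Gd x y z) * (t.j x y z * (1 / eta * (ind (eta < L) * L)))) :=
            mul_le_mul_of_nonneg_right (h1 x y) hRHS
        _ = _ := one_mul _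
    · have e1 : yy eta (t.J x y) (t.U x * t.V y) = 0 := by
        unfold yy
        rw [max_eq_right (by rw [← hLd]; linarith), mul_zero]
      rw [e1, mul_zero]
      linarith
  have hb : ∑ x ∈ SX, ∑ y ∈ SY, (h x y * yy eta (t.J x y) (t.U x * t.V y) -
      ∑ z ∈ SZ, h x y * yy eta (t.j x y z) (t.u x z * t.v y z / t.p z)) ≤
      ∑ x ∈ SX, ∑ y ∈ SY, (2 / eta * (|t.J x y - t.U x * t.V y| * (∑ z ∈ SZ, t.p z * |q x y z| + PT)) +
      ∑ z ∈ SZ, ind (¬ Gd x y z) * (t.j x y z * (1 / eta * (ind (eta < Real.log (t.J x y / (t.U x * t.V y))) *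
            Real.log (t.J x y / (t.U x * t.V y)))))) :=
    Finset.sum_le_sum (fun x hx => Finset.sum_le_sum (fun y hy => hpair x hx y hy))
  simp only [Finset.sum_sub_distrib, Finset.sum_add_distrib, ← Finset.mul_sum] at hb
  have h2e : 0 ≤ 2 / eta := by positivity
  have hf := mul_le_mul_of_nonneg_left htot h2e
  simp only [Finset.mul_sum] at hb hf ⊢
  linarith

end Tab

end

end Pool.Agent.M3
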