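import Pool.Agent.M3.S3.SumG
import Pool.Agent.GMC3.KeyY

/-!
# GMC3.UpdY: Cor. 3', the update of the labels and the event `past` (helper97)

* `yy_sum_le` : merging of cells lowers the mean of the positive part;
* `updY` : one label update;
* `pr1`, `hit`, `past` : `past t w` = the density was at least `2 eta` at some time `≤ t` (the labels of the earlier times
  are functions of the labels of the time `t`); `E_push` : the law of the time `t` is the image of the law of `t + 1`.
-/

set_option autoImplicit false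
set_option linter.unusedSectionVars false

namespace Pool.Agent.M3.S3

open Finset Pool.Agent.PWZ Pool.Agent.M3

noncomputable section

namespace C3

theorem yy_sum_le {α : Type*} (S : Finset α) {a b : α → ℝ} (ha : ∀ i ∈ S, 0 ≤ a i) (hb : ∀ i ∈ S, 0 ≤ b i)
    (h0 : ∀ i ∈ S, b i = 0 → a i = 0) (eta : ℝ) :
    yy eta (∑ i ∈ S, a i) (∑ i ∈ S, b i) ≤ ∑ i ∈ S, yy eta (a i) (b i) := by
  set A := ∑ i ∈ S, a i with hA
  set Bs := ∑ i ∈ S, b i with hB
  have hA0 : 0 ≤ A := Finset.sum_nonneg ha
  have hB0 : 0 ≤ Bs := Finset.sum_nonneg hb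
  have hR : 0 ≤ ∑ i ∈ S, yy eta (a i) (b i) := Finset.sum_nonneg fun i hi => yy_nonneg (ha i hi)
  rcases hA0.eq_or_lt with h | hAp
  · unfold yy
    rw [← h, zero_mul]
    exact hR
  have hBp : 0 < Bs := by
    rcases hB0.eq_or_lt with h | h
    · exfalso
      have h1 : ∀ i ∈ S, b i = 0 := (Finset.sum_eq_zero_iff_of_nonneg hb).1 h.symm
      have h2 : A = 0 := Finset.sum_eq_zero fun i hi => h0 i hi (h1 i hi)
      exact hAp.ne' h2
    · exact h
  set r := A / Bs with hr
  have hr0 : 0 < r := div_pos hAp hBp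
  set L := Real.log r with hL
  by_cases hLe : L ≤ eta
  · have : yy eta A Bs = 0 := by
      unfold yy
      rw [max_eq_right (by linarith), mul_zero]
    rw [this]
    exact hR
  have hcell : ∀ i ∈ S, a i * (L - eta) + a i - r * b i ≤ yy eta (a i) (b i) := by
    intro i hi
    have hy0 : 0 ≤ yy eta (a i) (b i) := yy_nonneg (ha i hi)
    rcases (ha i hi).eq_or_lt with hj | hj
    · rw [← hj] at hy0 ⊢
      have : 0 ≤ r * b i := mul_nonneg hr0.le (hb i hi)
      linarith
    · have hb1 : b i ≠ 0 := fun h => hj.ne' (h0 i hi h)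
      have h3 := kk_nonneg (a := a i) (b := r * b i) (ha i hi) (mul_nonneg hr0.le (hb i hi))
        (fun h => h0 i hi ((mul_eq_zero.1 h).resolve_left hr0.ne'))
      have e2 : Real.log (a i / (r * b i)) = Real.log (a i / b i) - L := by
        rw [mul_comm r (b i), ← div_div, Real.log_div (div_ne_zero hj.ne' hb1) hr0.ne']
      unfold kk at h3
      rw [e2] at h3
      have h4 : a i * (Real.log (a i / b i) - eta) ≤ yy eta (a i) (b i) :=
        mul_le_mul_of_nonneg_left (le_max_left _ _) hj.le
      nlinarith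
  have hsum := Finset.sum_le_sum hcell
  have e3 : ∑ i ∈ S, (a i * (L - eta) + a i - r * b i) = A * (L - eta) := by
    rw [Finset.sum_sub_distrib, Finset.sum_add_distrib, ← Finset.sum_mul, ← Finset.mul_sum, ← hA, ← hB, hr]
    field_simp
    ring
  rw [e3] at hsum
  have e5 : yy eta A Bs = A * (L - eta) := by
    unfold yy
    rw [max_eq_left (by linarith)]
  rw [e5]
  exact hsum

section upd

variable {X β γ φ : Type*} [Fintype X] [Fintype β] [Fintype γ] [Fintype φ] [Nonempty X] [Nonempty β] [Nonempty γ]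

/-- apply the projections to the labels -/
def prj (p q : φ → φ) (w : Sp X β γ φ) : Sp X β γ φ := (w.1, w.2.1, w.2.2.1, p w.2.2.2.1, q w.2.2.2.2)

/-- mean of a weighted positive part, class by class -/
theorem E_cls (k : KP X β γ φ) (N : Bx X β γ) (hN : N.Ok k) (hP : PV N.V) {h : Sp X β γ φ → ℝ}
    (hc : ∀ x x' b c F G, x' ∈ N.V x b c → h (x', b, c, F, G) = h (x, b, c, F, G)) (eta : ℝ) :
    k.P.E (fun w => h w * k.P.ioP eta xF xG N.map w) =
      E3 fun x b c => ∑ F, ∑ G, h (x, b, c, F, G) * yy eta (avg (N.V x b c) fun y => k.f y b c F * k.g y b c G)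
        (law (N.V x b c) (fun y => k.f y b c) F * law (N.V x b c) (fun y => k.g y b c) G) := by
  rw [k.E_eq, E3_mean hP]
  refine E3_congr fun x b c => ?_
  have h1 : ∀ y ∈ N.V x b c, (∑ F, ∑ G, k.f y b c F * k.g y b c G *
      (h (y, b, c, F, G) * k.P.ioP eta xF xG N.map (y, b, c, F, G))) =
      ∑ F, ∑ G, k.f y b c F * k.g y b c G * (h (x, b, c, F, G) * max (io k (N.V x b c) b c F G - eta) 0) := by
    intro y hy
    refine Finset.sum_congr rfl fun F _ => Finset.sum_congr rfl fun G _ => ?_
    unfold FP.ioP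
    rw [iota_FG k hN, hc x y b c F G hy]
    simp only
    rw [(hP b c).pub x y hy]
  unfold avg
  rw [Finset.sum_congr rfl h1, Finset.sum_comm, Finset.sum_div]
  refine Finset.sum_congr rfl fun F _ => ?_
  rw [Finset.sum_comm, Finset.sum_div]
  refine Finset.sum_congr rfl fun G _ => ?_
  rw [← Finset.sum_mul]
  unfold yy io avg
  ring

/-- **one label update** -/
theorem updY (k k' : KP X β γ φ) (N : Bx X β γ) (hN : N.Ok k) (hN' : N.Ok k') (hP : PV N.V) (p q : φ → φ)
    (hp : ∀ x b c F, k.f x b c F = ∑ F', ind (p F' = F) * k'.f x b c F')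
    (hq : ∀ x b c G, k.g x b c G = ∑ G', ind (q G' = G) * k'.g x b c G') {h : Sp X β γ φ → ℝ}
    (h0 : ∀ w, 0 ≤ h w)
    (hc : ∀ x x' b c F G, x' ∈ N.V x b c → h (x', b, c, F, G) = h (x, b, c, F, G)) (eta : ℝ) :
    k.P.E (fun w => h w * k.P.ioP eta xF xG N.map w) ≤
      k'.P.E (fun w => h (prj p q w) * k'.P.ioP eta xF xG N.map w) := by
  classical
  rw [E_cls k N hN hP hc eta, E_cls k' N hN' hP (h := fun w => h (prj p q w))
    (fun x x' b c F G hx => hc x x' b c (p F) (q G) hx) eta]
  refine E3_mono fun x b c => ?_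
  set W := N.V x b c with hW
  have hcd : (0 : ℝ) < W.card := by exact_mod_cast Finset.card_pos.2 ⟨x, N.sV x b c⟩
  set J' : φ → φ → ℝ := fun F G => avg W (fun y => k'.f y b c F * k'.g y b c G) with hJ'
  set U' : φ → ℝ := law W (fun y => k'.f y b c) with hU'
  set V' : φ → ℝ := law W (fun y => k'.g y b c) with hV'
  have hJ0 : ∀ F G, 0 ≤ J' F G := fun F G =>
    div_nonneg (Finset.sum_nonneg fun x _ => mul_nonneg (k'.f_nn _ _ _ _) (k'.g_nn _ _ _ _)) hcd.le
  have hU0 : ∀ F, 0 ≤ U' F := fun F => div_nonneg (Finset.sum_nonneg fun x _ => k'.f_nn _ _ _ _) hcd.le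
  have hV0 : ∀ F, 0 ≤ V' F := fun F => div_nonneg (Finset.sum_nonneg fun x _ => k'.g_nn _ _ _ _) hcd.le
  have hz : ∀ F G, U' F * V' G = 0 → J' F G = 0 := by
    intro F G hUV
    have hsum0 : ∀ y ∈ W, k'.f y b c F * k'.g y b c G = 0 := by
      rcases mul_eq_zero.1 hUV with h | h
      · have h1 : ∑ y ∈ W, k'.f y b c F = 0 := by
          have h2 : (∑ y ∈ W, k'.f y b c F) / (W.card : ℝ) = 0 := h
          rcases div_eq_zero_iff.1 h2 with h3 | h3
          · exact h3
          · exact absurd h3 hcd.ne'
        have h3 := (Finset.sum_eq_zero_iff_of_nonneg (fun y _ => k'.f_nn y b c F)).1 h1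
        intro y hy
        rw [h3 y hy, zero_mul]
      · have h1 : ∑ y ∈ W, k'.g y b c G = 0 := by
          have h2 : (∑ y ∈ W, k'.g y b c G) / (W.card : ℝ) = 0 := h
          rcases div_eq_zero_iff.1 h2 with h3 | h3
          · exact h3
          · exact absurd h3 hcd.ne'
        have h3 := (Finset.sum_eq_zero_iff_of_nonneg (fun y _ => k'.g_nn y b c G)).1 h1
        intro y hy
        rw [h3 y hy, mul_zero]
    show (∑ y ∈ W, k'.f y b c F * k'.g y b c G) / (W.card : ℝ) = 0
    rw [Finset.sum_eq_zero hsum0, zero_div]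
  -- the old tables as sums over fibres
  set S : φ → φ → Finset (φ × φ) := fun F G => univ.filter fun w => p w.1 = F ∧ q w.2 = G with hS
  have eJ : ∀ F G, avg W (fun y => k.f y b c F * k.g y b c G) = ∑ w ∈ S F G, J' w.1 w.2 := by
    intro F G
    have h1 : ∀ y, k.f y b c F * k.g y b c G = ∑ w ∈ S F G, k'.f y b c w.1 * k'.g y b c w.2 := by
      intro y
      rw [hp, hq, Finset.sum_mul_sum, hS, Finset.sum_filter, Fintype.sum_prod_type]
      refine Finset.sum_congr rfl fun F' _ => Finset.sum_congr rfl fun G' _ => ?_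
      by_cases hF : p F' = F
      · by_cases hG : q G' = G
        · rw [if_pos ⟨hF, hG⟩, ind_of hF, ind_of hG]; ring
        · rw [if_neg (fun h => hG h.2), ind_not hG]; ring
      · rw [if_neg (fun h => hF h.1), ind_not hF]; ring
    unfold avg
    rw [Finset.sum_congr rfl fun y _ => h1 y, Finset.sum_comm, Finset.sum_div]
    rfl
  have eUV : ∀ F G, law W (fun y => k.f y b c) F * law W (fun y => k.g y b c) G =
      ∑ w ∈ S F G, U' w.1 * V' w.2 := by
    intro F G
    have a1 : law W (fun y => k.f y b c) F = ∑ F', ind (p F' = F) * U' F' := by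
      show (∑ y ∈ W, k.f y b c F) / (W.card : ℝ) = _
      rw [Finset.sum_congr rfl fun y hy => hp y b c F, Finset.sum_comm, Finset.sum_div]
      refine Finset.sum_congr rfl fun F' _ => ?_
      rw [← Finset.mul_sum, mul_div_assoc]
      rfl
    have a2 : law W (fun y => k.g y b c) G = ∑ G', ind (q G' = G) * V' G' := by
      show (∑ y ∈ W, k.g y b c G) / (W.card : ℝ) = _
      rw [Finset.sum_congr rfl fun y hy => hq y b c G, Finset.sum_comm, Finset.sum_div]
      refine Finset.sum_congr rfl fun G' _ => ?_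
      rw [← Finset.mul_sum, mul_div_assoc]
      rfl
    rw [a1, a2, Finset.sum_mul_sum, hS, Finset.sum_filter, Fintype.sum_prod_type]
    refine Finset.sum_congr rfl fun F' _ => Finset.sum_congr rfl fun G' _ => ?_
    by_cases hF : p F' = F
    · by_cases hG : q G' = G
      · rw [if_pos ⟨hF, hG⟩, ind_of hF, ind_of hG]; ring
      · rw [if_neg (fun h => hG h.2), ind_not hG]; ring
    · rw [if_neg (fun h => hF h.1), ind_not hF]; ring
  calc ∑ F, ∑ G, h (x, b, c, F, G) * yy eta (avg W fun y => k.f y b c F * k.g y b c G)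
        (law W (fun y => k.f y b c) F * law W (fun y => k.g y b c) G)
      ≤ ∑ F, ∑ G, h (x, b, c, F, G) * ∑ w ∈ S F G, yy eta (J' w.1 w.2) (U' w.1 * V' w.2) := by
        refine Finset.sum_le_sum fun F _ => Finset.sum_le_sum fun G _ => mul_le_mul_of_nonneg_left ?_ (h0 _)
        rw [eJ, eUV]
        exact yy_sum_le (S F G) (fun w _ => hJ0 _ _) (fun w _ => mul_nonneg (hU0 _) (hV0 _))
          (fun w _ => hz _ _) eta
    _ = ∑ F', ∑ G', h (x, b, c, p F', q G') * yy eta (J' F' G') (U' F' * V' G') := by
        have h1 : ∀ F G, h (x, b, c, F, G) * ∑ w ∈ S F G, yy eta (J' w.1 w.2) (U' w.1 * V' w.2) =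
            ∑ w : φ × φ, if (p w.1 = F ∧ q w.2 = G) then
              h (x, b, c, p w.1, q w.2) * yy eta (J' w.1 w.2) (U' w.1 * V' w.2) else 0 := by
          intro F G
          rw [hS, Finset.mul_sum, Finset.sum_filter]
          refine Finset.sum_congr rfl fun w _ => ?_
          split_ifs with h2
          · rw [h2.1, h2.2]
          · rfl
        simp only [h1]
        rw [Finset.sum_comm' (t' := univ) (s' := fun _ => univ) (by simp)]
        have h3 : ∀ G : φ, (∑ F : φ, ∑ w : φ × φ, if (p w.1 = F ∧ q w.2 = G) then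
              h (x, b, c, p w.1, q w.2) * yy eta (J' w.1 w.2) (U' w.1 * V' w.2) else 0) =
            ∑ w : φ × φ, if q w.2 = G then
              h (x, b, c, p w.1, q w.2) * yy eta (J' w.1 w.2) (U' w.1 * V' w.2) else 0 := by
          intro G
          rw [Finset.sum_comm]
          refine Finset.sum_congr rfl fun w _ => ?_
          rw [Finset.sum_eq_single (p w.1)]
          · simp
          · intro F _ hne
            rw [if_neg (fun h => hne h.1.symm)]
          · intro h; exact absurd (Finset.mem_univ _) h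
        rw [Finset.sum_congr rfl fun G _ => h3 G, Finset.sum_comm, Fintype.sum_prod_type]
        refine Finset.sum_congr rfl fun F' _ => Finset.sum_congr rfl fun G' _ => ?_
        rw [Finset.sum_eq_single (q G')]
        · simp
        · intro F _ hne
          rw [if_neg (fun h => hne h.symm)]
        · intro h; exact absurd (Finset.mem_univ _) h

/-- the law of the old labels is the image of the law of the new labels -/
theorem E_push (k k' : KP X β γ φ) (p q : φ → φ)
    (hp : ∀ x b c F, k.f x b c F = ∑ F', ind (p F' = F) * k'.f x b c F')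
    (hq : ∀ x b c G, k.g x b c G = ∑ G', ind (q G' = G) * k'.g x b c G') (h : Sp X β γ φ → ℝ) :
    k'.P.E (fun w => h (prj p q w)) = k.P.E h := by
  classical
  rw [k.E_eq, k'.E_eq]
  refine E3_congr fun x b c => ?_
  have h1 : ∀ F G, k.f x b c F * k.g x b c G * h (x, b, c, F, G) =
      ∑ F', ∑ G', (ind (p F' = F) * ind (q G' = G)) *
        (k'.f x b c F' * k'.g x b c G' * h (x, b, c, p F', q G')) := by
    intro F G
    rw [hp, hq, Finset.sum_mul_sum, Finset.sum_mul]
    refine Finset.sum_congr rfl fun F' _ => ?_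
    rw [Finset.sum_mul]
    refine Finset.sum_congr rfl fun G' _ => ?_
    by_cases hF : p F' = F
    · by_cases hG : q G' = G
      · rw [ind_of hF, ind_of hG, hF, hG]; ring
      · rw [ind_not hG]; ring
    · rw [ind_not hF]; ring
  rw [Finset.sum_congr rfl fun F _ => Finset.sum_congr rfl fun G _ => h1 F G]
  symm
  calc ∑ F, ∑ G, ∑ F', ∑ G', (ind (p F' = F) * ind (q G' = G)) *
        (k'.f x b c F' * k'.g x b c G' * h (x, b, c, p F', q G'))
      = ∑ F', ∑ G', ∑ F, ∑ G, (ind (p F' = F) * ind (q G' = G)) *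
        (k'.f x b c F' * k'.g x b c G' * h (x, b, c, p F', q G')) := by
        rw [Finset.sum_congr rfl fun F _ => Finset.sum_comm]
        rw [Finset.sum_comm]
        refine Finset.sum_congr rfl fun F' _ => ?_
        rw [Finset.sum_congr rfl fun F _ => Finset.sum_comm]
        rw [Finset.sum_comm]
    _ = _ := by
        refine Finset.sum_congr rfl fun F' _ => Finset.sum_congr rfl fun G' _ => ?_
        simp only [← Finset.sum_mul, ← Finset.mul_sum]
        have i1 : ∑ G, ind (q G' = G) = 1 := by
          rw [Finset.sum_eq_single (q G')]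
          · exact ind_of rfl
          · intro G _ hne; exact ind_not (fun h => hne h.symm)
          · intro h; exact absurd (Finset.mem_univ _) h
        have i2 : ∑ F, ind (p F' = F) = 1 := by
          rw [Finset.sum_eq_single (p F')]
          · exact ind_of rfl
          · intro G _ hne; exact ind_not (fun h => hne h.symm)
          · intro h; exact absurd (Finset.mem_univ _) h
        rw [i1, i2, one_mul, one_mul]
        rfl

end upd

section past

variable {X β γ ι φ : Type*} [Fintype X] [Fintype β] [Fintype γ] [Fintype φ] {D : Dat X β γ ι φ}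
  {al : ℝ}

/-- the density of the two labels of the time `t` on the class of the time `t` is at least `2 eta` -/
def hit (T : D.Thick al) (V : ℕ → X → β → γ → Finset X) (eta : ℝ) (t : ℕ) (w : Sp X β γ φ) : Prop :=
  2 * eta ≤ io (D.kp T t) (V t w.1 w.2.1 w.2.2.1) w.2.1 w.2.2.1 w.2.2.2.1 w.2.2.2.2

/-- the density was at least `2 eta` at some time `≤ t` -/
def past (T : D.Thick al) (V : ℕ → X → β → γ → Finset X) (prf prg : ℕ → φ → φ) (eta : ℝ) :
    ℕ → Sp X β γ φ → Prop
  | 0, w => hit T V eta 0 w
  | t + 1, w => hit T V eta (t + 1) w ∨ past T V prf prg eta t (prj (prf t) (prg t) w)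

theorem hit_cls (T : D.Thick al) {V : ℕ → X → β → γ → Finset X} (hV : RefCl D V) (eta : ℝ) (t : ℕ)
    {x x' : X} {b : β} {c : γ} {F G : φ} (hx : x' ∈ V t x b c) :
    hit T V eta t (x', b, c, F, G) ↔ hit T V eta t (x, b, c, F, G) := by
  unfold hit
  simp only
  rw [(hV.pv t b c).pub x x' hx]

theorem past_cls (T : D.Thick al) {V : ℕ → X → β → γ → Finset X} (hV : RefCl D V) (prf prg : ℕ → φ → φ)
    (eta : ℝ) (t : ℕ) : ∀ (x x' : X) (b : β) (c : γ) (F G : φ), x' ∈ V t x b c →
    (past T V prf prg eta t (x', b, c, F, G) ↔ past T V prf prg eta t (x, b, c, F, G)) := by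
  induction t with
  | zero => exact fun x x' b c F G hx => hit_cls T hV eta 0 hx
  | succ t ih =>
    intro x x' b c F G hx
    unfold past
    rw [hit_cls T hV eta (t + 1) hx]
    refine or_congr Iff.rfl ?_
    exact ih x x' b c (prf t F) (prg t G) (hV.ref t x b c hx)

end past

end C3

end

end Pool.Agent.M3.S3
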